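import Mathlib

/-! Haiman's twisted lattices, built as a closure system on vectors. -/

set_option autoImplicit false

noncomputable section

namespace Pool.Agent.H43Z.Arg

open scoped Classical

abbrev K := ZMod 3
abbrev I (N : ℕ) := Fin (N + 3)
abbrev V (N : ℕ) := (I N → K) × (I N → K)

variable {N : ℕ}

def sg (k i : I N) : K := if i.val ≤ k.val then -1 else 1
def kap (l : I N) : K := if l.val = N + 2 then -1 else 1

lemma sg_sq (k i : I N) : sg k i * sg k i = 1 := by
  unfold sg; split_ifs <;> simp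

lemma kap_sq (l : I N) : kap l * kap l = 1 := by
  unfold kap; split_ifs <;> simp

lemma val_succ (l : I N) : (l + 1).val = if l.val = N + 2 then 0 else l.val + 1 := by
  rw [Fin.val_add]
  have h1 : ((1 : I N)).val = 1 := by simp
  rw [h1]
  have := l.isLt
  split_ifs with h
  · rw [h]; simp
  · exact Nat.mod_eq_of_lt (by omega)

lemma sg_succ (k l : I N) (h : l ≠ k) : sg k (l + 1) = kap l * sg k l := by
  have h' : l.val ≠ k.val := fun e => h (Fin.ext e)
  have := l.isLt
  have := k.isLt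
  unfold sg kap
  rw [val_succ]
  split_ifs <;> first | omega | simp

lemma succ_ne (l : I N) : l + 1 ≠ l := by
  intro h
  have h2 := congrArg Fin.val h
  rw [val_succ] at h2
  split_ifs at h2 <;> omega

lemma succ_succ_ne (l : I N) : l + 1 + 1 ≠ l := by
  intro h
  have h2 := congrArg Fin.val h
  rw [val_succ, val_succ] at h2
  have := l.isLt
  split_ifs at h2 <;> omega

def rho (k : I N) (z : V N) : V N := if z.2 = 0 then (sg k * z.1, 0) else z

def al (i : I N) : V N := (Pi.single i 1, 0)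
def be (i : I N) : V N := (0, Pi.single i 1)

def axis (k : I N) (y : I N → K) : Prop := y ≠ 0 ∧ ∀ j, j ≠ k → y j = 0

def Bad (k : I N) (z z' : V N) : Prop :=
  (z.2 = 0 ∨ z'.2 = 0 ∨ z.2 + z'.2 = 0) ∧ (axis k z.2 ∨ axis k z'.2)

structure Closed (S : Set (V N)) : Prop where
  zero : 0 ∈ S
  smul : ∀ (c : K) z, z ∈ S → c • z ∈ S
  low : ∀ z ∈ S, ∀ j i, z.2 j ≠ 0 → i ≠ j → i ≠ j + 1 → al i ∈ S
  add : ∀ k z z', rho k z ∈ S → rho k z' ∈ S → ¬ Bad k z z' → rho k (z + z') ∈ S

@[simp] lemma rho_snd (k : I N) (z : V N) : (rho k z).2 = z.2 := by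
  unfold rho; split_ifs with h
  · exact h.symm
  · rfl

lemma rho_of_ne (k : I N) {z : V N} (h : z.2 ≠ 0) : rho k z = z := by
  unfold rho; rw [if_neg h]

lemma rho_of_eq (k : I N) {z : V N} (h : z.2 = 0) : rho k z = (sg k * z.1, 0) := by
  unfold rho; rw [if_pos h]

lemma rho_bot (k : I N) (x : I N → K) : rho k (x, 0) = (sg k * x, 0) := rho_of_eq k rfl

@[simp] lemma rho_rho (k : I N) (z : V N) : rho k (rho k z) = z := by
  by_cases h : z.2 = 0
  · rw [rho_of_eq k h, rho_bot]
    ext i
    · simp [← mul_assoc, sg_sq]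
    · simp [h]
  · rw [rho_of_ne k h, rho_of_ne k h]

@[simp] lemma rho_zero (k : I N) : rho k (0 : V N) = 0 := by
  rw [rho_of_eq k rfl]; simp

lemma rho_smul (k : I N) (c : K) (z : V N) : rho k (c • z) = c • rho k z := by
  by_cases hc : c = 0
  · simp [hc]
  by_cases h : z.2 = 0
  · rw [rho_of_eq k h, rho_of_eq k (by simp [h])]
    ext i <;> simp [mul_left_comm]
  · rw [rho_of_ne k h, rho_of_ne k (by simp [h, hc])]

lemma rho_neg (k : I N) (z : V N) : rho k (-z) = -rho k z := by
  have := rho_smul k (-1) z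
  simpa using this

lemma rho_al (k i : I N) : rho k (al i) = sg k i • al i := by
  unfold al
  rw [rho_bot]
  ext j
  · by_cases h : j = i
    · subst h; simp
    · simp [h]
  · simp

lemma Closed.neg {S : Set (V N)} (hS : Closed S) {z : V N} (h : z ∈ S) : -z ∈ S := by
  simpa using hS.smul (-1) z h

lemma Closed.rho_al {S : Set (V N)} (hS : Closed S) (k : I N) {i : I N} (h : al i ∈ S) :
    rho k (al i) ∈ S := by
  rw [Arg.rho_al]; exact hS.smul _ _ h

/-- invariance of a subspace under a diagonal map -/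
lemma diag_mem (U : Submodule K (I N → K)) (d : I N → K) (c : K)
    (h : ∀ i, d i ≠ c → Pi.single i 1 ∈ U) {x : I N → K} (hx : x ∈ U) : d * x ∈ U := by
  have e : d * x = c • x + ∑ i, ((d i - c) * x i) • (Pi.single i (1 : K) : I N → K) := by
    ext j
    simp only [Pi.mul_apply, Pi.add_apply, Pi.smul_apply, smul_eq_mul, Finset.sum_apply]
    rw [Finset.sum_eq_single j]
    · simp; ring
    · intro b _ hb; simp [Ne.symm hb]
    · simp
  rw [e]
  refine U.add_mem (U.smul_mem _ hx) (U.sum_mem fun i _ => ?_)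
  by_cases hi : d i = c
  · simp [hi]
  · exact U.smul_mem _ (h i hi)

/-- from a nonzero coordinate off `k` get one of the two basis vectors -/
lemma two_of_low {P : I N → Prop} {k l : I N} (hl : l ≠ k)
    (h : ∀ i, i ≠ l → i ≠ l + 1 → P i) : P k ∨ P (k + 1) := by
  by_cases h1 : k = l + 1
  · right
    apply h
    · rw [h1]; exact succ_succ_ne l
    · rw [h1]; exact succ_ne _
  · left; exact h k (Ne.symm hl) h1

/-- the main invariance statement for the bottom part -/
lemma inv_bot (U : Submodule K (I N → K)) (j k l : I N) (hlj : l ≠ j)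
    (h : ∀ i, i ≠ l → i ≠ l + 1 → Pi.single i 1 ∈ U)
    (hk : l = k → Pi.single k 1 ∈ U ∨ Pi.single (k + 1) 1 ∈ U)
    {x : I N → K} (hx : x ∈ U) : sg k * (sg j * x) ∈ U := by
  rw [← mul_assoc]
  by_cases hlk : l = k
  · subst hlk
    rcases hk rfl with h1 | h1
    · refine diag_mem U _ ((sg l * sg j) (l + 1)) (fun i hi => ?_) hx
      by_cases e : i = l
      · rw [e]; exact h1
      · exact h i e (fun e' => hi (by rw [e']))
    · refine diag_mem U _ ((sg l * sg j) l) (fun i hi => ?_) hx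
      by_cases e : i = l + 1
      · rw [e]; exact h1
      · exact h i (fun e' => hi (by rw [e'])) e
  · refine diag_mem U _ ((sg k * sg j) l) (fun i hi => ?_) hx
    refine h i (fun e' => hi (by rw [e'])) (fun e' => hi ?_)
    rw [e']
    simp only [Pi.mul_apply]
    rw [sg_succ k l hlk, sg_succ j l hlj]
    linear_combination (sg k l * sg j l) * kap_sq l

def Fine (k : I N) (S : Set (V N)) : Prop :=
  ∀ z ∈ S, axis k z.2 → al k ∈ S ∨ al (k + 1) ∈ S

lemma exists_ne_of_not_axis {k : I N} {y : I N → K} (h0 : y ≠ 0) (h : ¬ axis k y) :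
    ∃ l, l ≠ k ∧ y l ≠ 0 := by
  by_contra hc
  push Not at hc
  exact h ⟨h0, hc⟩

lemma axis_ne {k : I N} {y : I N → K} (h : axis k y) : y k ≠ 0 := by
  intro e
  apply h.1
  ext j
  by_cases hj : j = k
  · rw [hj]; exact e
  · exact h.2 j hj

lemma axis_unique {k j : I N} {y : I N → K} (h : axis k y) (h' : axis j y) : k = j := by
  by_contra e
  exact axis_ne h (h'.2 k e)

lemma axis_neg {k : I N} {y : I N → K} (h : axis k y) : axis k (-y) :=
  ⟨by simpa using h.1, fun j hj => by simp [h.2 j hj]⟩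

/-- subspaces with the lowering property give closed sets -/
lemma closed_of_sub (k : I N) (U : Submodule K (V N))
    (hlow : ∀ z ∈ U, ∀ j i, z.2 j ≠ 0 → i ≠ j → i ≠ j + 1 → al i ∈ U)
    (hf : Fine k (U : Set (V N))) : Closed {z | rho k z ∈ U} := by
  refine ⟨by simp, fun c z hz => ?_, fun z hz j i h1 h2 h3 => ?_, fun j z z' hz hz' hb => ?_⟩
  · simp only [Set.mem_ofPred_eq] at hz ⊢
    rw [rho_smul]; exact U.smul_mem _ hz
  · simp only [Set.mem_ofPred_eq] at hz ⊢
    rw [rho_al]
    exact U.smul_mem _ (hlow _ hz j i (by simpa using h1) h2 h3)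
  · simp only [Set.mem_ofPred_eq] at hz hz' ⊢
    let U0 : Submodule K (I N → K) := U.comap (LinearMap.inl K _ _)
    have hU0 : ∀ x, x ∈ U0 ↔ ((x, 0) : V N) ∈ U := fun x => Iff.rfl
    have key : ∀ w ∈ U, w.2 ≠ 0 → ¬ axis j w.2 → ∀ x, x ∈ U0 → sg k * (sg j * x) ∈ U0 := by
      intro w hw h0 ha x hx
      obtain ⟨l, hl, hl'⟩ := exists_ne_of_not_axis h0 ha
      refine inv_bot U0 j k l hl (fun i h1 h2 => hlow w hw l i hl' h1 h2) (fun e => ?_) hx
      by_cases hak : axis k w.2
      · exact hf w hw hak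
      · obtain ⟨l', h1, h2⟩ := exists_ne_of_not_axis h0 hak
        exact two_of_low (P := fun i => Pi.single i 1 ∈ U0) h1
          (fun i a b => hlow w hw l' i h2 a b)
    have key2 : ∀ w ∈ U, w.2 ≠ 0 → ¬ axis j w.2 → ∀ y : V N, y.2 = 0 →
        (rho k (rho j y) ∈ U ↔ y ∈ U) := by
      intro w hw h0 ha y hy
      have e : y = (y.1, 0) := Prod.ext rfl hy
      rw [rho_of_eq j hy, rho_bot]
      constructor
      · intro h
        have := key w hw h0 ha _ ((hU0 _).2 h)
        have e2 : sg k * (sg j * (sg k * (sg j * y.1))) = y.1 := by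
          ext i
          simp only [Pi.mul_apply]
          linear_combination (sg j i * sg j i * y.1 i) * sg_sq k i + y.1 i * sg_sq j i
        rw [e2] at this
        rw [e]; exact this
      · intro h
        rw [e] at h
        exact key w hw h0 ha _ ((hU0 _).2 h)
    by_cases h1 : z.2 = 0
    · by_cases h2 : z'.2 = 0
      · have h3 : (z + z').2 = 0 := by simp [h1, h2]
        rw [rho_of_eq j h1, rho_bot] at hz
        rw [rho_of_eq j h2, rho_bot] at hz'
        rw [rho_of_eq j h3, rho_bot]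
        have := U.add_mem hz hz'
        simpa [mul_add] using this
      · have h3 : (z + z').2 ≠ 0 := by simpa [h1] using h2
        rw [rho_of_ne j h2, rho_of_ne k h2] at hz'
        rw [rho_of_ne j h3, rho_of_ne k h3]
        have ha : ¬ axis j z'.2 := fun a => hb ⟨Or.inl h1, Or.inr a⟩
        exact U.add_mem ((key2 z' hz' h2 ha z h1).1 hz) hz'
    · rw [rho_of_ne j h1, rho_of_ne k h1] at hz
      by_cases h2 : z'.2 = 0
      · have h3 : (z + z').2 ≠ 0 := by simpa [h2] using h1
        rw [rho_of_ne j h3, rho_of_ne k h3]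
        have ha : ¬ axis j z.2 := fun a => hb ⟨Or.inr (Or.inl h2), Or.inl a⟩
        exact U.add_mem hz ((key2 z hz h1 ha z' h2).1 hz')
      · rw [rho_of_ne j h2, rho_of_ne k h2] at hz'
        by_cases h3 : (z + z').2 = 0
        · have ha : ¬ axis j z.2 := fun a => hb ⟨Or.inr (Or.inr h3), Or.inl a⟩
          exact (key2 z hz h1 ha _ h3).2 (U.add_mem hz hz')
        · rw [rho_of_ne j h3, rho_of_ne k h3]
          exact U.add_mem hz hz'

/-- the bottom part of a closed set -/
def botPart {S : Set (V N)} (hS : Closed S) : Submodule K (I N → K) where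
  carrier := {x | ((x, 0) : V N) ∈ S}
  zero_mem' := hS.zero
  add_mem' := by
    intro a b ha hb
    have := hS.add 0 (rho 0 (a, 0)) (rho 0 (b, 0)) (by simpa using ha) (by simpa using hb)
      (fun h => by
        rcases h.2 with h | h
        · exact h.1 (by simp)
        · exact h.1 (by simp))
    rw [rho_bot, rho_bot] at this
    have e : ((sg 0 * a, 0) : V N) + (sg 0 * b, 0) = rho 0 (a + b, 0) := by
      rw [rho_bot]; simp [mul_add]
    rw [e, rho_rho] at this
    exact this
  smul_mem' := by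
    intro c x hx
    have := hS.smul c _ hx
    simpa using this

lemma Closed.add_fine {S : Set (V N)} (hS : Closed S) {k : I N} (hf : Fine k S) {z z' : V N}
    (hz : rho k z ∈ S) (hz' : rho k z' ∈ S) : rho k (z + z') ∈ S := by
  by_cases hb : Bad k z z'
  swap
  · exact hS.add k z z' hz hz' hb
  have hj : k ≠ k + 1 := (succ_ne k).symm
  have key : ∀ w ∈ S, axis k w.2 → ∀ y : V N, y.2 = 0 →
      (rho k y ∈ S ↔ rho (k + 1) y ∈ S) := by
    intro w hw ha y hy
    have key0 : ∀ x, x ∈ botPart hS → sg k * (sg (k + 1) * x) ∈ botPart hS := by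
      intro x hx
      exact inv_bot (botPart hS) (k + 1) k k hj
        (fun i h1 h2 => hS.low w hw k i (axis_ne ha) h1 h2) (fun _ => hf w hw ha) hx
    rw [rho_of_eq _ hy, rho_of_eq _ hy]
    constructor
    · intro h
      have := key0 _ h
      have e2 : sg k * (sg (k + 1) * (sg k * y.1)) = sg (k + 1) * y.1 := by
        ext i
        simp only [Pi.mul_apply]
        linear_combination (sg (k + 1) i * y.1 i) * sg_sq k i
      rw [e2] at this
      exact this
    · intro h
      have := key0 _ h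
      have e2 : sg k * (sg (k + 1) * (sg (k + 1) * y.1)) = sg k * y.1 := by
        ext i
        simp only [Pi.mul_apply]
        linear_combination (sg k i * y.1 i) * sg_sq (k + 1) i
      rw [e2] at this
      exact this
  have nb : ¬ Bad (k + 1) z z' := by
    intro h
    rcases hb with ⟨h0, ha | ha⟩
    · rcases h.2 with hb | hb
      · exact hj (axis_unique ha hb)
      · rcases h0 with h0 | h0 | h0
        · exact ha.1 h0
        · exact hb.1 h0
        · have : z'.2 = -z.2 := by linear_combination h0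
          rw [this] at hb
          exact hj (axis_unique (axis_neg ha) hb)
    · rcases h.2 with hb | hb
      · rcases h0 with h0 | h0 | h0
        · exact hb.1 h0
        · exact ha.1 h0
        · have : z.2 = -z'.2 := by linear_combination h0
          rw [this] at hb
          exact hj (axis_unique (axis_neg ha) hb)
      · exact hj (axis_unique ha hb)
  have hw : ∃ w ∈ S, axis k w.2 := by
    rcases hb.2 with ha | ha
    · exact ⟨_, hz, by simpa using ha⟩
    · exact ⟨_, hz', by simpa using ha⟩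
  obtain ⟨w, hw, ha⟩ := hw
  have key3 : ∀ y : V N, rho k y ∈ S ↔ rho (k + 1) y ∈ S := by
    intro y
    by_cases hy : y.2 = 0
    · exact key w hw ha y hy
    · rw [rho_of_ne _ hy, rho_of_ne _ hy]
  exact (key3 _).2 (hS.add (k + 1) z z' ((key3 _).1 hz) ((key3 _).1 hz') nb)

/-- the subspace attached to a closed fine set -/
def subOf {S : Set (V N)} (hS : Closed S) {k : I N} (hf : Fine k S) : Submodule K (V N) where
  carrier := {z | rho k z ∈ S}
  zero_mem' := by simpa using hS.zero
  add_mem' := fun ha hb => hS.add_fine hf ha hb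
  smul_mem' := by
    intro c x hx
    simp only [Set.mem_ofPred_eq] at hx ⊢
    rw [rho_smul]; exact hS.smul c _ hx

lemma mem_subOf {S : Set (V N)} (hS : Closed S) {k : I N} (hf : Fine k S) (z : V N) :
    z ∈ subOf hS hf ↔ rho k z ∈ S := Iff.rfl

lemma Closed.al_of_rho {S : Set (V N)} (hS : Closed S) (k : I N) {i : I N}
    (h : rho k (al i) ∈ S) : al i ∈ S := by
  rw [Arg.rho_al] at h
  have := hS.smul (sg k i) _ h
  rwa [smul_smul, sg_sq, one_smul] at this

/-- The lattice -/
def A (N : ℕ) := {S : Set (V N) // Closed S}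

lemma closed_sInter (F : Set (Set (V N))) (h : ∀ S ∈ F, Closed S) : Closed (⋂₀ F) :=
  ⟨fun S hS => (h S hS).zero, fun c z hz S hS => (h S hS).smul c z (hz S hS),
    fun z hz j i h1 h2 h3 S hS => (h S hS).low z (hz S hS) j i h1 h2 h3,
    fun k z z' hz hz' hb S hS => (h S hS).add k z z' (hz S hS) (hz' S hS) hb⟩

lemma closed_inter {S T : Set (V N)} (hS : Closed S) (hT : Closed T) : Closed (S ∩ T) :=
  ⟨⟨hS.zero, hT.zero⟩, fun c z hz => ⟨hS.smul c z hz.1, hT.smul c z hz.2⟩,
    fun z hz j i h1 h2 h3 => ⟨hS.low z hz.1 j i h1 h2 h3, hT.low z hz.2 j i h1 h2 h3⟩,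
    fun k z z' hz hz' hb => ⟨hS.add k z z' hz.1 hz'.1 hb, hT.add k z z' hz.2 hz'.2 hb⟩⟩

def clo (T : Set (V N)) : A N :=
  ⟨⋂₀ {S | Closed S ∧ T ⊆ S}, closed_sInter _ fun _ h => h.1⟩

lemma sub_clo (T : Set (V N)) : T ⊆ (clo T).1 := fun _ hz _ hS => hS.2 hz

lemma clo_sub {T : Set (V N)} {S : Set (V N)} (hS : Closed S) (h : T ⊆ S) : (clo T).1 ⊆ S :=
  fun _ hz => hz S ⟨hS, h⟩

instance : Lattice (A N) where
  le X Y := X.1 ⊆ Y.1
  le_refl X := subset_rfl
  le_trans X Y Z h1 h2 := subset_trans h1 h2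
  le_antisymm X Y h1 h2 := Subtype.ext (subset_antisymm h1 h2)
  sup X Y := clo (X.1 ∪ Y.1)
  le_sup_left X Y := subset_trans Set.subset_union_left (sub_clo _)
  le_sup_right X Y := subset_trans Set.subset_union_right (sub_clo _)
  sup_le X Y Z h1 h2 := clo_sub Z.2 (Set.union_subset h1 h2)
  inf X Y := ⟨X.1 ∩ Y.1, closed_inter X.2 Y.2⟩
  inf_le_left X Y := Set.inter_subset_left
  inf_le_right X Y := Set.inter_subset_right
  le_inf X Y Z h1 h2 := Set.subset_inter h1 h2

instance : Finite (A N) := by unfold A; infer_instance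

lemma le_def {X Y : A N} : X ≤ Y ↔ X.1 ⊆ Y.1 := Iff.rfl

lemma mem_of_le {X Y : A N} (h : X ≤ Y) {z : V N} (hz : z ∈ X.1) : z ∈ Y.1 := h hz

lemma mem_inf {X Y : A N} {z : V N} : z ∈ (X ⊓ Y).1 ↔ z ∈ X.1 ∧ z ∈ Y.1 := Iff.rfl

lemma mem_inf' {ι : Type} (s : Finset ι) (h : s.Nonempty) (f : ι → A N) (z : V N) :
    z ∈ (s.inf' h f).1 ↔ ∀ i ∈ s, z ∈ (f i).1 := by
  constructor
  · intro hz i hi
    exact mem_of_le (Finset.inf'_le f hi) hz
  · intro hz
    have : clo {z} ≤ s.inf' h f :=
      Finset.le_inf' h f fun i hi => clo_sub (f i).2 (by simpa using hz i hi)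
    exact mem_of_le this (sub_clo _ rfl)

/-- preimage of a subspace of the top quotient -/
def HW (W : Submodule K (I N → K)) : A N :=
  ⟨{z | z.2 ∈ W}, ⟨W.zero_mem, fun c z hz => W.smul_mem c hz, fun _ _ _ _ _ _ _ => W.zero_mem,
    fun k z z' hz hz' _ => by
      simp only [Set.mem_ofPred_eq, rho_snd] at hz hz' ⊢
      exact W.add_mem hz hz'⟩⟩

lemma mem_HW {W : Submodule K (I N → K)} {z : V N} : z ∈ (HW W).1 ↔ z.2 ∈ W := Iff.rfl

lemma join_fine {X Y : A N} {k : I N} (hX : Fine k X.1) (hY : Fine k Y.1) {z : V N}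
    (hz : rho k z ∈ (X ⊔ Y).1) : ∃ x y, rho k x ∈ X.1 ∧ rho k y ∈ Y.1 ∧ z = x + y := by
  let U := subOf X.2 hX ⊔ subOf Y.2 hY
  have hXU : ∀ i, al i ∈ X.1 → al i ∈ U := fun i hi =>
    Submodule.mem_sup_left ((mem_subOf _ _ _).2 (X.2.rho_al k hi))
  have hYU : ∀ i, al i ∈ Y.1 → al i ∈ U := fun i hi =>
    Submodule.mem_sup_right ((mem_subOf _ _ _).2 (Y.2.rho_al k hi))
  have hlow : ∀ z ∈ U, ∀ j i, z.2 j ≠ 0 → i ≠ j → i ≠ j + 1 → al i ∈ U := by
    intro z hz j i h1 h2 h3
    obtain ⟨x, hx, y, hy, rfl⟩ := Submodule.mem_sup.1 hz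
    by_cases e : x.2 j = 0
    · have e' : y.2 j ≠ 0 := by simpa [e] using h1
      exact hYU i (Y.2.low _ hy j i (by simpa using e') h2 h3)
    · exact hXU i (X.2.low _ hx j i (by simpa using e) h2 h3)
  have hfine : Fine k (U : Set (V N)) := by
    intro z hz ha
    obtain ⟨x, hx, y, hy, rfl⟩ := Submodule.mem_sup.1 hz
    have gen : ∀ (Z : A N), Fine k Z.1 → ∀ w, rho k w ∈ Z.1 → w.2 ≠ 0 →
        al k ∈ Z.1 ∨ al (k + 1) ∈ Z.1 := by
      intro Z hZ w hw h0
      by_cases hak : axis k w.2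
      · exact hZ _ hw (by simpa using hak)
      · obtain ⟨l', h1, h2⟩ := exists_ne_of_not_axis h0 hak
        exact two_of_low (P := fun i => al i ∈ Z.1) h1
          (fun i a b => Z.2.low _ hw l' i (by simpa using h2) a b)
    by_cases e : x.2 = 0
    · have e' : y.2 ≠ 0 := by simpa [e] using ha.1
      exact (gen Y hY y hy e').imp (hYU _) (hYU _)
    · exact (gen X hX x hx e).imp (hXU _) (hXU _)
  have hc := closed_of_sub k U hlow hfine
  have hle : (X ⊔ Y).1 ⊆ {z | rho k z ∈ U} := by
    refine clo_sub hc (Set.union_subset (fun x hx => ?_) (fun y hy => ?_))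
    · exact Submodule.mem_sup_left ((mem_subOf _ _ _).2 (by simpa using hx))
    · exact Submodule.mem_sup_right ((mem_subOf _ _ _).2 (by simpa using hy))
  have := hle hz
  simp only [Set.mem_ofPred_eq, rho_rho] at this
  obtain ⟨x, hx, y, hy, rfl⟩ := Submodule.mem_sup.1 this
  exact ⟨x, y, hx, hy, rfl⟩

end Pool.Agent.H43Z.Arg
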