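import Pool.Agent.H43Z.ArgA

/-! The twisted lattice with `n` columns satisfies the laws of order below `n`. -/

set_option autoImplicit false

noncomputable section

namespace Pool.Agent.H43Z.Arg

open scoped Classical

variable {N : ℕ}

lemma supp_of_not_fine {X : A N} {k : I N} (h : ¬ Fine k X.1) :
    (∃ w ∈ X.1, axis k w.2) ∧ ∀ w ∈ X.1, ∀ j, j ≠ k → w.2 j = 0 := by
  unfold Fine at h
  push Not at h
  obtain ⟨w, hw, ha, h1, h2⟩ := h
  refine ⟨⟨w, hw, ha⟩, fun w' hw' j hj => ?_⟩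
  by_contra e
  rcases two_of_low (P := fun i => al i ∈ X.1) hj (fun i a b => X.2.low _ hw' j i e a b) with
    h | h
  · exact h1 h
  · exact h2 h

lemma not_fine_unique {X : A N} {k j : I N} (h : ¬ Fine k X.1) (h' : ¬ Fine j X.1) : k = j := by
  obtain ⟨⟨w, hw, ha⟩, _⟩ := supp_of_not_fine h
  by_contra e
  exact axis_ne ha ((supp_of_not_fine h').2 w hw k e)

lemma exists_good {X Y : A N} {z : V N} (hz : z ∈ (X ⊔ Y).1) :
    ∃ k, Fine k X.1 ∧ Fine k Y.1 ∧ ¬ axis k z.2 := by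
  have h3 : ∀ k k' k'' : I N, ¬ Fine k X.1 → ¬ Fine k' Y.1 → axis k'' z.2 →
      k'' = k ∨ k'' = k' := by
    intro k k' k'' h1 h2 ha
    let W : Submodule K (I N → K) :=
      { carrier := {y | ∀ j, j ≠ k → j ≠ k' → y j = 0}
        zero_mem' := fun _ _ _ => rfl
        add_mem' := fun {a b} ha hb j h1 h2 => by simp [ha j h1 h2, hb j h1 h2]
        smul_mem' := fun c x hx j h1 h2 => by simp [hx j h1 h2] }
    have hle : X ⊔ Y ≤ HW W :=
      sup_le (fun w hw j a _ => (supp_of_not_fine h1).2 w hw j a)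
        (fun w hw j _ b => (supp_of_not_fine h2).2 w hw j b)
    have := mem_of_le hle hz
    by_contra e
    push Not at e
    exact axis_ne ha (this k'' e.1 e.2)
  by_contra hc
  have hall : ∀ k : I N, ¬ Fine k X.1 ∨ ¬ Fine k Y.1 ∨ axis k z.2 := by
    intro k
    by_contra e
    push Not at e
    exact hc ⟨k, e⟩
  have n1 : (0 : I N) + 1 ≠ 0 := succ_ne 0
  have n2 : (0 : I N) + 1 + 1 ≠ 0 := succ_succ_ne 0
  have n3 : (0 : I N) + 1 + 1 ≠ 0 + 1 := succ_ne _
  generalize (0 : I N) + 1 + 1 = r at n2 n3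
  generalize (0 : I N) + 1 = q at n1 n3
  generalize (0 : I N) = p at n1 n2
  rcases hall p with a | a | a <;> rcases hall q with b | b | b <;> rcases hall r with c | c | c <;>
    first
      | exact n1 (not_fine_unique b a)
      | exact n2 (not_fine_unique c a)
      | exact n3 (not_fine_unique c b)
      | exact n1 (axis_unique b a)
      | exact n2 (axis_unique c a)
      | exact n3 (axis_unique c b)
      | exact (h3 _ _ _ a b c).elim n2 n3
      | exact (h3 _ _ _ b a c).elim n3 n2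
      | exact (h3 _ _ _ a c b).elim n1 n3.symm
      | exact (h3 _ _ _ c a b).elim n3.symm n1
      | exact (h3 _ _ _ b c a).elim n1.symm n2.symm
      | exact (h3 _ _ _ c b a).elim n2.symm n1.symm

lemma join_decomp {X Y : A N} {z : V N} (hz : z ∈ (X ⊔ Y).1) :
    ∃ x y, x ∈ X.1 ∧ y ∈ Y.1 ∧ z.2 = x.2 + y.2 ∧ (x.2 ≠ 0 → y.2 ≠ 0 → z.2 ≠ 0 → z = x + y) ∧
      ∀ Z : A N, x ∈ Z.1 → y ∈ Z.1 → (∀ i, al i ∈ Y.1 → al i ∈ Z.1) → z ∈ Z.1 := by
  obtain ⟨k, hX, hY, ha⟩ := exists_good hz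
  obtain ⟨x, y, hx, hy, e⟩ := join_fine (z := rho k z) hX hY (by simpa using hz)
  have e2 : z.2 = x.2 + y.2 := by
    have := congrArg Prod.snd e
    simpa using this
  have e3 : z = rho k (x + y) := by rw [← e, rho_rho]
  refine ⟨rho k x, rho k y, hx, hy, by simpa using e2, fun h1 h2 h3 => ?_, fun Z h1 h2 h3 => ?_⟩
  · rw [rho_snd] at h1 h2
    rw [rho_of_ne k h1, rho_of_ne k h2, ← e, rho_of_ne k h3]
  · rw [e3]
    by_cases hb : Bad k x y
    swap
    · exact Z.2.add k x y h1 h2 hb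
    have hay : axis k y.2 := by
      rcases hb with ⟨h0 | h0 | h0, hb | hb⟩
      · exact absurd h0 hb.1
      · exact hb
      · exact absurd (by rw [e2, h0, add_zero]; exact hb) ha
      · exact hb
      · have : y.2 = -x.2 := by linear_combination h0
        rw [this]; exact axis_neg hb
      · exact hb
    have hf : Fine k Z.1 := fun _ _ _ =>
      (hY _ hy (by simpa using hay)).imp (h3 _) (h3 _)
    exact Z.2.add_fine hf h1 h2

/-- left side of the law -/
def LL {α : Type} [Lattice α] (m : ℕ) (h : (Finset.Icc 1 (m - 1)).Nonempty) (a b : ℕ → α) : α :=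
  a m ⊓ ((Finset.Icc 1 (m - 1)).inf' h (fun i => a i ⊔ b i) ⊔ b m)

/-- right side of the law -/
def RR {α : Type} [Lattice α] (m : ℕ) (h : (Finset.Icc 1 (m - 1)).Nonempty) (a b : ℕ → α) : α :=
  a 1 ⊔ ((Finset.Icc 1 (m - 1)).sup' h
    (fun i => (a i ⊔ a (i + 1)) ⊓ (b i ⊔ b (i + 1))) ⊓ (b 1 ⊔ b m))

lemma abstract {α : Type} [Lattice α] (m : ℕ) (h : (Finset.Icc 1 (m - 1)).Nonempty)
    (E : ℕ → ℕ → α → Prop)
    (hsymm : ∀ p q Z, E p q Z → E q p Z)
    (hmono : ∀ p q Z Z', Z ≤ Z' → E p q Z → E p q Z')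
    (hinf : ∀ p q Z Z', E p q Z → E p q Z' → E p q (Z ⊓ Z'))
    (htri : ∀ p q r Z, p ≤ m + 1 → q ≤ m + 1 → r ≤ m + 1 → p ≠ q → q ≠ r → p ≠ r →
      E p q Z → E q r Z → E p r Z)
    (a b : ℕ → α) (ha : ∀ i, 1 ≤ i → i ≤ m → E i 0 (a i))
    (hb : ∀ i, 1 ≤ i → i ≤ m → E (m + 1) i (b i)) : E m 0 (RR m h a b) := by
  have hm : 2 ≤ m := by
    obtain ⟨i, hi⟩ := h
    rw [Finset.mem_Icc] at hi
    omega
  have hA : ∀ i j, 1 ≤ i → i ≤ m → 1 ≤ j → j ≤ m → i ≠ j → E i j (a i ⊔ a j) := by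
    intro i j h1 h2 h3 h4 h5
    exact htri i 0 j _ (by omega) (by omega) (by omega) (by omega) (by omega) h5
      (hmono _ _ _ _ le_sup_left (ha i h1 h2))
      (hsymm _ _ _ (hmono _ _ _ _ le_sup_right (ha j h3 h4)))
  have hB : ∀ i j, 1 ≤ i → i ≤ m → 1 ≤ j → j ≤ m → i ≠ j → E i j (b i ⊔ b j) := by
    intro i j h1 h2 h3 h4 h5
    exact htri i (m + 1) j _ (by omega) (by omega) (by omega) (by omega) (by omega) h5
      (hsymm _ _ _ (hmono _ _ _ _ le_sup_left (hb i h1 h2)))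
      (hmono _ _ _ _ le_sup_right (hb j h3 h4))
  set Y := (Finset.Icc 1 (m - 1)).sup' h
    (fun i => (a i ⊔ a (i + 1)) ⊓ (b i ⊔ b (i + 1))) with hYdef
  have hY : ∀ i, 1 ≤ i → i + 1 ≤ m → E i (i + 1) Y := by
    intro i h1 h2
    refine hmono _ _ _ _ (Finset.le_sup' (fun i => (a i ⊔ a (i + 1)) ⊓ (b i ⊔ b (i + 1)))
      (b := i) (by rw [Finset.mem_Icc]; omega)) ?_
    exact hinf _ _ _ _ (hA i (i + 1) h1 (by omega) (by omega) h2 (by omega))
      (hB i (i + 1) h1 (by omega) (by omega) h2 (by omega))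
  have hY2 : ∀ l, l + 2 ≤ m → E 1 (l + 2) Y := by
    intro l
    induction l with
    | zero => intro hl; exact hY 1 le_rfl hl
    | succ l ih =>
      intro hl
      exact htri 1 (l + 2) (l + 3) _ (by omega) (by omega) (by omega) (by omega) (by omega)
        (by omega) (ih (by omega)) (hY (l + 2) (by omega) (by omega))
  have hY3 : E 1 m Y := by
    have := hY2 (m - 2) (by omega)
    rwa [show m - 2 + 2 = m by omega] at this
  have h4 : E 1 m (Y ⊓ (b 1 ⊔ b m)) :=
    hinf _ _ _ _ hY3 (hB 1 m le_rfl (by omega) (by omega) le_rfl (by omega))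
  exact htri m 1 0 _ (by omega) (by omega) (by omega) (by omega) (by omega) (by omega)
    (hsymm _ _ _ (hmono _ _ _ _ le_sup_right h4))
    (hmono _ _ _ _ le_sup_left (ha 1 le_rfl (by omega)))

/-- vertices -/
def vtx (m : ℕ) (o : V N) (u : ℕ → V N) (p : ℕ) : V N :=
  if p = 0 then 0 else if p = m + 1 then o else u p

lemma vtx_zero (m : ℕ) (o : V N) (u : ℕ → V N) : vtx m o u 0 = 0 := by simp [vtx]

lemma vtx_top (m : ℕ) (o : V N) (u : ℕ → V N) : vtx m o u (m + 1) = o := by simp [vtx]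

lemma vtx_mid (m : ℕ) (o : V N) (u : ℕ → V N) {i : ℕ} (h1 : 1 ≤ i) (h2 : i ≤ m) :
    vtx m o u i = u i := by
  unfold vtx
  rw [if_neg (by omega), if_neg (by omega)]

lemma concrete (m : ℕ) (h : (Finset.Icc 1 (m - 1)).Nonempty) (a b : ℕ → A N) (k : I N)
    (o : V N) (u w : ℕ → V N)
    (hu : ∀ i, 1 ≤ i → i ≤ m → rho k (u i) ∈ (a i).1)
    (hw : ∀ i, 1 ≤ i → i ≤ m → rho k (w i) ∈ (b i).1)
    (ho : ∀ i, 1 ≤ i → i ≤ m → o = u i + w i)
    (hg : (∀ p q, p ≤ m + 1 → q ≤ m + 1 → p ≠ q → (vtx m o u p).2 ≠ (vtx m o u q).2) ∨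
      (∀ p q, p ≤ m + 1 → q ≤ m + 1 → ¬ axis k (vtx m o u p - vtx m o u q).2)) :
    rho k (u m) ∈ (RR m h a b).1 := by
  have hm : 2 ≤ m := by
    obtain ⟨i, hi⟩ := h
    rw [Finset.mem_Icc] at hi
    omega
  have := abstract m h (fun p q Z => rho k (vtx m o u p - vtx m o u q) ∈ Z.1)
    (fun p q Z hz => by
      have := Z.2.neg hz
      rwa [← rho_neg, neg_sub] at this)
    (fun p q Z Z' hle hz => mem_of_le hle hz)
    (fun p q Z Z' h1 h2 => mem_inf.2 ⟨h1, h2⟩)
    (fun p q r Z hp hq hr n1 n2 n3 h1 h2 => by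
      have := Z.2.add k _ _ h1 h2 (by
        rintro ⟨hb1, hb2⟩
        rcases hg with hg | hg
        · rcases hb1 with e | e | e
          · exact hg p q hp hq n1 (by simpa [sub_eq_zero] using e)
          · exact hg q r hq hr n2 (by simpa [sub_eq_zero] using e)
          · exact hg p r hp hr n3 (by simpa [sub_eq_zero] using e)
        · rcases hb2 with e | e
          · exact hg p q hp hq e
          · exact hg q r hq hr e)
      rwa [sub_add_sub_cancel] at this)
    a b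
    (fun i h1 h2 => by
      simp only [vtx_zero, vtx_mid m o u h1 h2, sub_zero]
      exact hu i h1 h2)
    (fun i h1 h2 => by
      simp only [vtx_top, vtx_mid m o u h1 h2]
      rw [ho i h1 h2, add_sub_cancel_left]
      exact hw i h1 h2)
  simpa only [vtx_zero, vtx_mid m o u (show 1 ≤ m by omega) le_rfl, sub_zero] using this

lemma not_axis_of_mem {W : Submodule K (I N → K)} {k : I N} (hk : Pi.single k (1 : K) ∉ W)
    {y : I N → K} (hy : y ∈ W) : ¬ axis k y := by
  intro ha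
  apply hk
  have e : (Pi.single k (1 : K) : I N → K) = (y k)⁻¹ • y := by
    ext j
    by_cases hj : j = k
    · rw [hj]; simp [axis_ne ha]
    · simp [hj, ha.2 j hj]
  rw [e]
  exact W.smul_mem _ hy

lemma fine_of_le {W : Submodule K (I N → K)} {k : I N} (hk : Pi.single k (1 : K) ∉ W)
    {X : A N} (hX : X ≤ HW W) : Fine k X.1 :=
  fun _ hz ha => absurd ha (not_axis_of_mem hk (mem_of_le hX hz))

lemma exists_not_mem_span (s : Finset (I N → K)) (hs : s.card < N + 3) :
    ∃ k : I N, Pi.single k (1 : K) ∉ Submodule.span K (s : Set (I N → K)) := by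
  by_contra hc
  push Not at hc
  have htop : Submodule.span K (s : Set (I N → K)) = ⊤ := by
    rw [eq_top_iff]
    intro x _
    have := diag_mem (Submodule.span K (s : Set (I N → K))) x 0 (fun i _ => hc i)
      (x := 1) (by
        have e : (1 : I N → K) = ∑ i, (Pi.single i (1 : K) : I N → K) := by
          ext j; simp [Finset.sum_apply]
        rw [e]
        exact Submodule.sum_mem _ fun i _ => hc i)
    simpa using this
  have h1 := finrank_span_finset_le_card (R := K) s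
  unfold Set.finrank at h1
  rw [htop, finrank_top] at h1
  simp at h1
  omega

lemma law_in_ideal (m : ℕ) (h : (Finset.Icc 1 (m - 1)).Nonempty) (a b : ℕ → A N)
    {W : Submodule K (I N → K)} {k : I N} (hk : Pi.single k (1 : K) ∉ W)
    (ha : ∀ i, a i ≤ HW W) (hb : ∀ i, b i ≤ HW W) : LL m h a b ≤ RR m h a b := by
  intro v hv
  have hm : 2 ≤ m := by
    obtain ⟨i, hi⟩ := h
    rw [Finset.mem_Icc] at hi
    omega
  obtain ⟨hv1, hv2⟩ := mem_inf.1 hv
  have hO : (Finset.Icc 1 (m - 1)).inf' h (fun i => a i ⊔ b i) ≤ HW W :=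
    le_trans (Finset.inf'_le (fun i => a i ⊔ b i) (b := 1) (by rw [Finset.mem_Icc]; omega))
      (sup_le (ha 1) (hb 1))
  obtain ⟨o, w0, ho, hw0, e⟩ := join_fine (z := rho k v) (fine_of_le hk hO)
    (fine_of_le hk (hb m)) (by simpa using hv2)
  have hdec : ∀ i, ∃ x y : V N, 1 ≤ i → i ≤ m →
      rho k x ∈ (a i).1 ∧ rho k y ∈ (b i).1 ∧ o = x + y ∧ (i = m → x = rho k v) := by
    intro i
    by_cases hi : 1 ≤ i ∧ i ≤ m - 1
    · obtain ⟨x, y, hx, hy, e⟩ := join_fine (fine_of_le hk (ha i)) (fine_of_le hk (hb i))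
        ((mem_inf' _ _ _ _).1 ho i (Finset.mem_Icc.2 hi))
      exact ⟨x, y, fun _ _ => ⟨hx, hy, e, fun e' => by omega⟩⟩
    · refine ⟨rho k v, -w0, fun h1 h2 => ?_⟩
      have : i = m := by omega
      subst this
      refine ⟨by simpa using hv1, ?_, by rw [e]; abel, fun _ => rfl⟩
      rw [rho_neg]; exact (b i).2.neg hw0
  choose u w huw using hdec
  have hW : ∀ p, p ≤ m + 1 → (vtx m o u p).2 ∈ W := by
    intro p hp
    by_cases h0 : p = 0
    · rw [h0, vtx_zero]; exact W.zero_mem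
    by_cases h1 : p = m + 1
    · rw [h1, vtx_top]
      simpa [mem_HW] using mem_of_le hO ho
    · rw [vtx_mid m o u (by omega) (by omega)]
      simpa [mem_HW] using mem_of_le (ha p) (huw p (by omega) (by omega)).1
  have := concrete m h a b k o u w (fun i h1 h2 => (huw i h1 h2).1)
    (fun i h1 h2 => (huw i h1 h2).2.1) (fun i h1 h2 => (huw i h1 h2).2.2.1)
    (Or.inr fun p q hp hq => not_axis_of_mem hk (W.sub_mem (hW p hp) (hW q hq)))
  rwa [(huw m (by omega) le_rfl).2.2.2 rfl, rho_rho] at this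

lemma RR_mono {α : Type} [Lattice α] (m : ℕ) (h : (Finset.Icc 1 (m - 1)).Nonempty)
    {a b a' b' : ℕ → α} (ha : ∀ i, a i ≤ a' i) (hb : ∀ i, b i ≤ b' i) :
    RR m h a b ≤ RR m h a' b' := by
  unfold RR
  refine sup_le_sup (ha 1) (inf_le_inf ?_ (sup_le_sup (hb 1) (hb m)))
  refine Finset.sup'_le _ _ fun i hi => le_trans ?_
    (Finset.le_sup' (fun i => (a' i ⊔ a' (i + 1)) ⊓ (b' i ⊔ b' (i + 1))) hi)
  exact inf_le_inf (sup_le_sup (ha _) (ha _)) (sup_le_sup (hb _) (hb _))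

theorem law_holds (m : ℕ) (hmN : m < N + 3) (h : (Finset.Icc 1 (m - 1)).Nonempty)
    (a b : ℕ → A N) : LL m h a b ≤ RR m h a b := by
  intro v hv
  have hm : 2 ≤ m := by
    obtain ⟨i, hi⟩ := h
    rw [Finset.mem_Icc] at hi
    omega
  obtain ⟨hv1, hv2⟩ := mem_inf.1 hv
  obtain ⟨o, w0, ho, hw0, e1, e2, e3⟩ := join_decomp hv2
  have hdec : ∀ i, ∃ x y : V N, 1 ≤ i → i ≤ m →
      x ∈ (a i).1 ∧ y ∈ (b i).1 ∧ o.2 = x.2 + y.2 ∧ (x.2 ≠ 0 → y.2 ≠ 0 → o.2 ≠ 0 → o = x + y) ∧
        (i = m → x = v ∧ y = -w0) ∧ (i < m → ∀ Z : A N, x ∈ Z.1 → y ∈ Z.1 →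
          (∀ j, al j ∈ (b i).1 → al j ∈ Z.1) → o ∈ Z.1) := by
    intro i
    by_cases hi : 1 ≤ i ∧ i ≤ m - 1
    · obtain ⟨x, y, hx, hy, f1, f2, f3⟩ :=
        join_decomp ((mem_inf' _ _ _ _).1 ho i (Finset.mem_Icc.2 hi))
      exact ⟨x, y, fun _ _ => ⟨hx, hy, f1, f2, fun e' => by omega, fun _ => f3⟩⟩
    · refine ⟨v, -w0, fun h1 h2 => ?_⟩
      have : i = m := by omega
      subst this
      refine ⟨hv1, (b i).2.neg hw0, by rw [e1]; simp, fun g1 g2 g3 => ?_, fun _ => ⟨rfl, rfl⟩,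
        fun hlt => absurd hlt (lt_irrefl _)⟩
      rw [e2 g3 (by simpa using g2) g1]; abel
  choose u w huw using hdec
  have hum : u m = v := ((huw m (by omega) le_rfl).2.2.2.2.1 rfl).1
  have hwm : w m = -w0 := ((huw m (by omega) le_rfl).2.2.2.2.1 rfl).2
  by_cases hinj : ∀ p q, p ≤ m + 1 → q ≤ m + 1 → p ≠ q → (vtx m o u p).2 ≠ (vtx m o u q).2
  · have hu0 : ∀ i, 1 ≤ i → i ≤ m → (u i).2 ≠ 0 := by
      intro i h1 h2
      have := hinj i 0 (by omega) (by omega) (by omega)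
      rwa [vtx_zero, vtx_mid m o u h1 h2] at this
    have ho0 : o.2 ≠ 0 := by
      have := hinj (m + 1) 0 (by omega) (by omega) (by omega)
      rwa [vtx_zero, vtx_top] at this
    have hw0' : ∀ i, 1 ≤ i → i ≤ m → (w i).2 ≠ 0 := by
      intro i h1 h2 e
      have := hinj (m + 1) i (by omega) (by omega) (by omega)
      rw [vtx_top, vtx_mid m o u h1 h2] at this
      apply this
      rw [(huw i h1 h2).2.2.1, e, add_zero]
    have := concrete m h a b 0 o u w
      (fun i h1 h2 => by rw [rho_of_ne _ (hu0 i h1 h2)]; exact (huw i h1 h2).1)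
      (fun i h1 h2 => by rw [rho_of_ne _ (hw0' i h1 h2)]; exact (huw i h1 h2).2.1)
      (fun i h1 h2 => (huw i h1 h2).2.2.2.1 (hu0 i h1 h2) (hw0' i h1 h2) ho0) (Or.inl hinj)
    rwa [rho_of_ne _ (hu0 m (by omega) le_rfl), hum] at this
  · push Not at hinj
    obtain ⟨p, q, hp, hq, hpq, epq⟩ := hinj
    let g : ℕ → (I N → K) := fun p => (vtx m o u p).2
    let s0 := (Finset.range (m + 2)).image g
    have hc0 : s0.card < m + 2 := by
      have h1 : s0.card ≤ (Finset.range (m + 2)).card := Finset.card_image_le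
      have h2 : s0.card ≠ (Finset.range (m + 2)).card := by
        intro e
        exact hpq (Finset.card_image_iff.1 e (by simp; omega) (by simp; omega) epq)
      rw [Finset.card_range] at h1 h2
      omega
    have h00 : (0 : I N → K) ∈ s0 :=
      Finset.mem_image.2 ⟨0, by simp, by simp [g, vtx_zero]⟩
    have hc1 : (s0.erase 0).card < N + 3 := by
      rw [Finset.card_erase_of_mem h00]; omega
    obtain ⟨k, hk⟩ := exists_not_mem_span _ hc1
    set W := Submodule.span K ((s0.erase 0 : Finset (I N → K)) : Set (I N → K)) with hWdef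
    have hg : ∀ p, p ≤ m + 1 → g p ∈ W := by
      intro p hp
      by_cases e : g p = 0
      · rw [e]; exact W.zero_mem
      · exact Submodule.subset_span (Finset.mem_coe.2 (Finset.mem_erase.2
          ⟨e, Finset.mem_image.2 ⟨p, by simp; omega, rfl⟩⟩))
    have hoW : o.2 ∈ W := by simpa [g, vtx_top] using hg (m + 1) le_rfl
    have huW : ∀ i, 1 ≤ i → i ≤ m → (u i).2 ∈ W := by
      intro i h1 h2
      simpa [g, vtx_mid m o u h1 h2] using hg i (by omega)
    have hwW : ∀ i, 1 ≤ i → i ≤ m → (w i).2 ∈ W := by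
      intro i h1 h2
      have := W.sub_mem hoW (huW i h1 h2)
      rwa [(huw i h1 h2).2.2.1, add_sub_cancel_left] at this
    have hal : ∀ j, al j ∈ (HW W).1 := fun j => W.zero_mem
    have hL : v ∈ (LL m h (fun i => a i ⊓ HW W) (fun i => b i ⊓ HW W)).1 := by
      refine mem_inf.2 ⟨mem_inf.2 ⟨hv1, ?_⟩, ?_⟩
      · rw [← hum]; exact huW m (by omega) le_rfl
      · refine e3 _ (mem_of_le le_sup_left ?_) (mem_of_le le_sup_right (mem_inf.2 ⟨hw0, ?_⟩))
          (fun j hj => mem_of_le le_sup_right (mem_inf.2 ⟨hj, hal j⟩))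
        · refine (mem_inf' _ _ _ _).2 fun i hi => ?_
          rw [Finset.mem_Icc] at hi
          have hh := huw i hi.1 (by omega)
          exact hh.2.2.2.2.2 (by omega) _
            (mem_of_le le_sup_left (mem_inf.2 ⟨hh.1, huW i hi.1 (by omega)⟩))
            (mem_of_le le_sup_right (mem_inf.2 ⟨hh.2.1, hwW i hi.1 (by omega)⟩))
            (fun j hj => mem_of_le le_sup_right (mem_inf.2 ⟨hj, hal j⟩))
        · have := W.neg_mem (hwW m (by omega) le_rfl)
          rw [hwm] at this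
          simpa [mem_HW] using this
    exact mem_of_le (RR_mono m h (fun i => inf_le_left) (fun i => inf_le_left))
      (mem_of_le (law_in_ideal m h _ _ hk (fun i => inf_le_right) (fun i => inf_le_right)) hL)

end Pool.Agent.H43Z.Arg
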