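import Pool.Agent.H43Z.ArgB

/-! The twisted lattice with `n` columns fails the law of order `n`. -/

set_option autoImplicit false

noncomputable section

namespace Pool.Agent.H43Z.Arg

open scoped Classical

variable {N : ℕ}

lemma mem_of_agree (U : Submodule K (I N → K)) {x y : I N → K}
    (h : ∀ i, x i ≠ y i → Pi.single i 1 ∈ U) (hy : y ∈ U) : x ∈ U := by
  have e : x = y + ∑ i, (x i - y i) • (Pi.single i (1 : K) : I N → K) := by
    ext j
    simp only [Pi.add_apply, Pi.smul_apply, smul_eq_mul, Finset.sum_apply]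
    rw [Finset.sum_eq_single j]
    · simp
    · intro b _ hb; simp [Ne.symm hb]
    · simp
  rw [e]
  refine U.add_mem hy (U.sum_mem fun i _ => ?_)
  by_cases hi : x i = y i
  · simp [hi]
  · exact U.smul_mem _ (h i hi)

def tv (l : I N) : I N → K := Pi.single l 1 + kap l • Pi.single (l + 1) 1

def bv (l : I N) : V N := (tv l, Pi.single l 1)

def GG (l : I N) (s t : K) : A N :=
  ⟨{z | z.1 (l + 1) = s * z.2 l + t * z.2 (l + 1) ∧ ∀ j, j ≠ l → j ≠ l + 1 → z.2 j = 0}, by
    have key : ∀ (k : I N) (z : V N),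
        ((rho k z).1 (l + 1) = s * z.2 l + t * z.2 (l + 1) ↔
          z.1 (l + 1) = s * z.2 l + t * z.2 (l + 1)) := by
      intro k z
      by_cases h : z.2 = 0
      · rw [rho_of_eq k h, h]
        have : sg k (l + 1) ≠ 0 := fun e => by
          have := sg_sq k (l + 1)
          rw [e] at this; simp at this
        simp [this]
      · rw [rho_of_ne k h]
    refine ⟨by simp, fun c z hz => ⟨?_, fun j h1 h2 => ?_⟩, fun z hz j i h1 h2 h3 => ⟨?_, ?_⟩,
      fun k z z' hz hz' _ => ?_⟩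
    · simp only [Prod.smul_fst, Prod.smul_snd, Pi.smul_apply, smul_eq_mul]
      rw [hz.1]; ring
    · simp [hz.2 j h1 h2]
    · have : l + 1 ≠ i := by
        intro e
        by_cases a : j = l
        · exact h3 (by rw [a, e])
        · by_cases b : j = l + 1
          · exact h2 (by rw [b, e])
          · exact h1 (hz.2 j a b)
      simp [al, this]
    · intro j _ _; simp [al]
    · simp only [Set.mem_ofPred_eq, rho_snd, key] at hz hz' ⊢
      refine ⟨?_, fun j h1 h2 => by simp [hz.2 j h1 h2, hz'.2 j h1 h2]⟩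
      simp only [Prod.fst_add, Prod.snd_add, Pi.add_apply]
      rw [hz.1, hz'.1]; ring⟩

lemma mem_GG {l : I N} {s t : K} {z : V N} : z ∈ (GG l s t).1 ↔
    z.1 (l + 1) = s * z.2 l + t * z.2 (l + 1) ∧ ∀ j, j ≠ l → j ≠ l + 1 → z.2 j = 0 := Iff.rfl

lemma be_mem_left (l : I N) (t : K) : be l ∈ (GG l 0 t).1 :=
  mem_GG.2 ⟨by simp [be, succ_ne l], fun j h _ => by simp [be, h]⟩

lemma be_mem_right (l : I N) (s : K) : be (l + 1) ∈ (GG l s 0).1 :=
  mem_GG.2 ⟨by simp [be, (succ_ne l).symm], fun j _ h => by simp [be, h]⟩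

lemma bv_mem_left (l : I N) : bv l ∈ (GG l (kap l) 1).1 :=
  mem_GG.2 ⟨by simp [bv, tv, succ_ne l], fun j h _ => by simp [bv, h]⟩

lemma bv_mem_right (l : I N) : bv (l + 1) ∈ (GG l (kap l) 1).1 :=
  mem_GG.2 ⟨by simp [bv, tv, (succ_ne l).symm, (succ_ne (l + 1)).symm],
    fun j _ h => by simp [bv, h]⟩

lemma clo_le {z : V N} {Z : A N} (h : z ∈ Z.1) : clo {z} ≤ Z :=
  clo_sub Z.2 (by simpa using h)

lemma sum_two {y : I N → K} {l : I N} (h : ∀ j, j ≠ l → j ≠ l + 1 → y j = 0) :
    ∑ j, y j = y l + y (l + 1) := by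
  rw [← Finset.sum_pair (succ_ne l).symm]
  symm
  refine Finset.sum_subset (Finset.subset_univ _) fun j _ hj => ?_
  simp only [Finset.mem_insert, Finset.mem_singleton, not_or] at hj
  exact h j hj.1 hj.2

def W0 (N : ℕ) : Submodule K (I N → K) where
  carrier := {y | ∑ j, y j = 0}
  zero_mem' := by simp
  add_mem' := by
    intro a b ha hb
    simp only [Set.mem_ofPred_eq, Pi.add_apply, Finset.sum_add_distrib] at ha hb ⊢
    rw [ha, hb, add_zero]
  smul_mem' := by
    intro c x hx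
    simp only [Set.mem_ofPred_eq, Pi.smul_apply, smul_eq_mul, ← Finset.mul_sum] at hx ⊢
    rw [hx, mul_zero]

lemma mem_W0 {y : I N → K} : y ∈ W0 N ↔ ∑ j, y j = 0 := Iff.rfl

def ov (N : ℕ) : V N := (1, 0)

lemma single_not_axis (l : I N) : ¬ axis (l + 1) (Pi.single l (1 : K) : I N → K) := by
  intro h
  have := h.2 l (succ_ne l).symm
  simp at this

lemma rho_tv_iff {Z : A N} {l : I N} (hlow : ∀ i, i ≠ l → i ≠ l + 1 → al i ∈ Z.1) :
    rho (l + 1) (tv l, 0) ∈ Z.1 ↔ ov N ∈ Z.1 := by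
  rw [rho_bot]
  have hs := sg_succ (l + 1) l (succ_ne l).symm
  have hag : ∀ i, (sg (l + 1) * tv l : I N → K) i ≠ (sg (l + 1) l • (1 : I N → K)) i →
      Pi.single i 1 ∈ botPart Z.2 := by
    intro i hi
    refine hlow i (fun e => hi ?_) (fun e => hi ?_)
    · rw [e]; simp [tv, (succ_ne l).symm]
    · rw [e]
      simp only [tv, Pi.mul_apply, Pi.add_apply, Pi.smul_apply, smul_eq_mul, Pi.one_apply]
      rw [hs]
      simp only [ne_eq, succ_ne l, not_false_eq_true, Pi.single_eq_of_ne, Pi.single_eq_same]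
      linear_combination (sg (l + 1) l) * kap_sq l
  constructor
  · intro h
    have h1 : sg (l + 1) l • (1 : I N → K) ∈ botPart Z.2 :=
      mem_of_agree _ (fun i hi => hag i (Ne.symm hi)) h
    have h2 := (botPart Z.2).smul_mem (sg (l + 1) l) h1
    rw [smul_smul, sg_sq, one_smul] at h2
    exact h2
  · intro h
    exact mem_of_agree (botPart Z.2) hag ((botPart Z.2).smul_mem _ h)

lemma single_ne_zero (l : I N) : (Pi.single l (1 : K) : I N → K) ≠ 0 := by
  intro e
  have := congrFun e l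
  simp at this

lemma ov_mem {Z : A N} {l : I N} (h1 : be l ∈ Z.1) (h2 : bv l ∈ Z.1) : ov N ∈ Z.1 := by
  have hlow : ∀ i, i ≠ l → i ≠ l + 1 → al i ∈ Z.1 :=
    fun i a b => Z.2.low _ h1 l i (by simp [be]) a b
  rw [← rho_tv_iff hlow]
  have := Z.2.add (l + 1) (bv l) (-be l)
    (by rw [rho_of_ne _ (single_ne_zero l)]; exact h2)
    (by
      rw [rho_neg, rho_of_ne _ (single_ne_zero l)]; exact Z.2.neg h1)
    (by
      rintro ⟨_, h | h⟩
      · exact single_not_axis l h
      · exact single_not_axis l (by simpa [be] using axis_neg h))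
  simpa [bv, be] using this

lemma be_mem {Z : A N} {l : I N} (h1 : ov N ∈ Z.1) (h2 : bv l ∈ Z.1) : be l ∈ Z.1 := by
  have hlow : ∀ i, i ≠ l → i ≠ l + 1 → al i ∈ Z.1 :=
    fun i a b => Z.2.low _ h2 l i (by simp [bv]) a b
  rw [← rho_tv_iff hlow] at h1
  have := Z.2.add (l + 1) (bv l) (-(tv l, 0))
    (by rw [rho_of_ne _ (single_ne_zero l)]; exact h2)
    (by rw [rho_neg]; exact Z.2.neg h1)
    (by
      rintro ⟨_, h | h⟩
      · exact single_not_axis l h
      · exact h.1 (by simp))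
  have e : bv l + -(tv l, 0) = be l := by simp [bv, be]
  rwa [e, rho_of_ne _ (single_ne_zero l)] at this

def cc (N i : ℕ) : I N := ⟨(i + (N + 2)) % (N + 3), Nat.mod_lt _ (by omega)⟩

lemma cc_succ (i : ℕ) : cc N (i + 1) = cc N i + 1 := by
  apply Fin.ext
  rw [Fin.val_add]
  have h1 : ((1 : I N)).val = 1 := by simp
  rw [h1]
  simp only [cc]
  rw [Nat.mod_add_mod]
  congr 1
  omega

lemma kap_cc {i : ℕ} (h1 : 1 ≤ i) (h2 : i ≤ N + 2) : kap (cc N i) = 1 := by
  unfold kap
  rw [if_neg]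
  simp only [cc]
  rw [show i + (N + 2) = (i - 1) + (N + 3) by omega, Nat.add_mod_right, Nat.mod_eq_of_lt (by omega)]
  omega

lemma kap_last : kap (cc N (N + 3)) = -1 := by
  unfold kap
  rw [if_pos]
  simp only [cc]
  rw [Nat.add_mod_left, Nat.mod_eq_of_lt (by omega)]

lemma cc_one : cc N 1 = cc N (N + 3) + 1 := by
  rw [← cc_succ]
  apply Fin.ext
  simp only [cc]
  rw [show N + 3 + 1 + (N + 2) = 1 + (N + 2) + (N + 3) by omega, Nat.add_mod_right]

theorem law_fails (h : (Finset.Icc 1 (N + 3 - 1)).Nonempty) :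
    ∃ a b : ℕ → A N, ¬ LL (N + 3) h a b ≤ RR (N + 3) h a b := by
  refine ⟨fun i => clo {be (cc N i)}, fun i => clo {bv (cc N i)}, fun hle => ?_⟩
  set l := cc N (N + 3) with hl
  have h1 : be l ∈ (LL (N + 3) h (fun i => clo {be (cc N i)}) (fun i => clo {bv (cc N i)})).1 := by
    refine mem_inf.2 ⟨sub_clo _ rfl, be_mem (mem_of_le le_sup_left ?_)
      (mem_of_le le_sup_right (sub_clo _ rfl))⟩
    exact (mem_inf' _ _ _ _).2 fun i _ =>
      ov_mem (mem_of_le le_sup_left (sub_clo _ rfl)) (mem_of_le le_sup_right (sub_clo _ rfl))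
  have h2 : RR (N + 3) h (fun i => clo {be (cc N i)}) (fun i => clo {bv (cc N i)}) ≤
      GG l (-2) 0 := by
    refine sup_le (clo_le (by rw [cc_one]; exact be_mem_right _ _)) ?_
    have hY : (Finset.Icc 1 (N + 3 - 1)).sup' h
        (fun i => ((clo {be (cc N i)} : A N) ⊔ clo {be (cc N (i + 1))}) ⊓
          (clo {bv (cc N i)} ⊔ clo {bv (cc N (i + 1))})) ≤ HW (W0 N) := by
      refine Finset.sup'_le _ _ fun i hi => ?_
      rw [Finset.mem_Icc] at hi
      have ha : (clo {be (cc N i)} : A N) ⊔ clo {be (cc N (i + 1))} ≤ GG (cc N i) 0 0 :=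
        sup_le (clo_le (be_mem_left _ _)) (clo_le (by rw [cc_succ]; exact be_mem_right _ _))
      have hb : (clo {bv (cc N i)} : A N) ⊔ clo {bv (cc N (i + 1))} ≤
          GG (cc N i) (kap (cc N i)) 1 :=
        sup_le (clo_le (bv_mem_left _)) (clo_le (by rw [cc_succ]; exact bv_mem_right _))
      intro z hz
      have h3 := mem_GG.1 (mem_of_le ha (mem_inf.1 hz).1)
      have h4 := mem_GG.1 (mem_of_le hb (mem_inf.1 hz).2)
      rw [kap_cc hi.1 (by omega)] at h4
      refine mem_HW.2 (mem_W0.2 ?_)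
      rw [sum_two h3.2]
      linear_combination h3.1 - h4.1
    have hB : (clo {bv (cc N 1)} : A N) ⊔ clo {bv (cc N (N + 3))} ≤ GG l (kap l) 1 :=
      sup_le (clo_le (by rw [cc_one]; exact bv_mem_right _)) (clo_le (bv_mem_left _))
    intro z hz
    have h3 := mem_W0.1 (mem_HW.1 (mem_of_le hY (mem_inf.1 hz).1))
    have h4 := mem_GG.1 (mem_of_le hB (mem_inf.1 hz).2)
    rw [kap_last] at h4
    rw [sum_two h4.2] at h3
    exact mem_GG.2 ⟨by linear_combination h4.1 + h3, h4.2⟩
  have h3 := (mem_GG.1 (mem_of_le h2 (mem_of_le hle h1))).1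
  simp [be] at h3
  exact absurd h3 (by decide)

/-- the pentagon: `0 < 1 < 2 < 4` and `0 < 3 < 4` -/
def N5 : Type := Fin 5

instance : DecidableEq N5 := inferInstanceAs (DecidableEq (Fin 5))
instance : Fintype N5 := inferInstanceAs (Fintype (Fin 5))

def le5 (x y : Fin 5) : Bool := x = y || x = 0 || y = 4 || (x = 1 && y = 2)
def sup5 (x y : Fin 5) : Fin 5 := if le5 x y then y else if le5 y x then x else 4
def inf5 (x y : Fin 5) : Fin 5 := if le5 x y then x else if le5 y x then y else 0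

instance : Lattice N5 where
  le x y := le5 x y = true
  le_refl := (show ∀ x : Fin 5, le5 x x = true by decide)
  le_trans := (show ∀ x y z : Fin 5, le5 x y = true → le5 y z = true → le5 x z = true by decide)
  le_antisymm := (show ∀ x y : Fin 5, le5 x y = true → le5 y x = true → x = y by decide)
  sup := sup5
  le_sup_left := (show ∀ x y : Fin 5, le5 x (sup5 x y) = true by decide)
  le_sup_right := (show ∀ x y : Fin 5, le5 y (sup5 x y) = true by decide)
  sup_le := (show ∀ x y z : Fin 5, le5 x z = true → le5 y z = true → le5 (sup5 x y) z = true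
    by decide)
  inf := inf5
  inf_le_left := (show ∀ x y : Fin 5, le5 (inf5 x y) x = true by decide)
  inf_le_right := (show ∀ x y : Fin 5, le5 (inf5 x y) y = true by decide)
  le_inf := (show ∀ x y z : Fin 5, le5 x y = true → le5 x z = true → le5 x (inf5 y z) = true
    by decide)

theorem pentagon_fails (h : (Finset.Icc 1 (2 - 1)).Nonempty) :
    ∃ a b : ℕ → N5, ¬ LL 2 h a b ≤ RR 2 h a b := by
  refine ⟨fun i => if i = 1 then (1 : Fin 5) else (2 : Fin 5), fun _ => (3 : Fin 5), ?_⟩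
  unfold LL RR
  simp only [show (2 - 1 : ℕ) = 1 from rfl, Finset.Icc_self, Finset.inf'_singleton,
    Finset.sup'_singleton]
  show ¬ (le5 (inf5 2 (sup5 (sup5 1 3) 3))
    (sup5 1 (inf5 (inf5 (sup5 1 2) (sup5 3 3)) (sup5 3 3))) = true)
  decide

theorem main_finite (n : ℕ) (hn : 1 ≤ n) :
    ∃ (α : Type) (_ : Lattice α), Finite α ∧
      (∀ (a b : ℕ → α) (h : (Finset.Icc 1 (n - 1)).Nonempty), LL n h a b ≤ RR n h a b) ∧
      ¬ (∀ (a b : ℕ → α) (h : (Finset.Icc 1 (n + 1 - 1)).Nonempty),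
        LL (n + 1) h a b ≤ RR (n + 1) h a b) := by
  by_cases h1 : n = 1
  · subst h1
    refine ⟨N5, inferInstance, inferInstance, fun a b h => by simp at h, fun hall => ?_⟩
    obtain ⟨a, b, hab⟩ := pentagon_fails (by simp)
    exact hab (hall a b _)
  · obtain ⟨N, rfl⟩ : ∃ N, n = N + 2 := ⟨n - 2, by omega⟩
    refine ⟨A N, inferInstance, inferInstance,
      fun a b h => law_holds (N + 2) (by omega) h a b, fun hall => ?_⟩
    obtain ⟨a, b, hab⟩ := law_fails (N := N) (by simp)
    exact hab (hall a b _)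

end Pool.Agent.H43Z.Arg
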