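import Mathlib

set_option autoImplicit false

open Set

namespace Pool.Agent.H43Z.BU

/-! A compact ultrametric space with a Borel paradoxical decomposition by partial isometries.
The space is a closed subset of the cube of the ring of 2-adic integers. -/

abbrev Z2 := ℤ_[2]

/-- The radius `2 ^ (-n)`. -/
noncomputable def r (n : ℕ) : ℝ := (2 : ℝ) ^ (-n : ℤ)

lemma r_pos (n : ℕ) : 0 < r n := by unfold r; positivity

lemma r_lt {a b : ℕ} (h : a < b) : r b < r a := by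
  unfold r
  apply zpow_lt_zpow_right₀ (by norm_num)
  omega

lemma r_le {a b : ℕ} (h : a ≤ b) : r b ≤ r a := by
  rcases h.lt_or_eq with h | h
  · exact (r_lt h).le
  · rw [h]

lemma lt_of_r_lt {a b : ℕ} (h : r a < r b) : b < a := by
  by_contra hc
  exact absurd (r_le (not_lt.1 hc)) (not_le.2 h)

lemma norm_le_iff (x : Z2) (n : ℕ) : ‖x‖ ≤ r n ↔ (2 : Z2) ^ n ∣ x := by
  have := PadicInt.norm_le_pow_iff_mem_span_pow x n
  rw [Ideal.mem_span_singleton] at this
  simpa [r] using this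

lemma norm_two_pow (n : ℕ) : ‖(2 : Z2) ^ n‖ = r n := by
  have := PadicInt.norm_p_pow (p := 2) n
  simpa [r] using this

lemma norm_eq_of_dvd {x : Z2} {a : ℕ} (h : (2 : Z2) ^ (a + 1) ∣ x - 2 ^ a) : ‖x‖ = r a := by
  have h1 : ‖x - 2 ^ a‖ < ‖(2 : Z2) ^ a‖ := by
    rw [norm_two_pow]
    exact lt_of_le_of_lt ((norm_le_iff _ _).2 h) (r_lt (Nat.lt_succ_self a))
  have h2 := PadicInt.norm_add_eq_max_of_ne h1.ne
  rw [sub_add_cancel, max_eq_right h1.le, norm_two_pow] at h2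
  exact h2

lemma int_dvd_iff (n : ℕ) (k : ℤ) : (2 : Z2) ^ n ∣ (k : Z2) ↔ (2 : ℤ) ^ n ∣ k := by
  have := PadicInt.pow_p_dvd_int_iff (p := 2) n k
  simpa using this

lemma nat_dvd {n k : ℕ} (h : 2 ^ n ∣ k) : (2 : Z2) ^ n ∣ (k : Z2) := by
  obtain ⟨c, rfl⟩ := h
  exact ⟨c, by push_cast; ring⟩

lemma norm_pow_sub {a b : ℕ} (h : a < b) : ‖(2 : Z2) ^ a - 2 ^ b‖ = r a := by
  apply norm_eq_of_dvd
  rw [sub_sub_cancel_left, dvd_neg]
  exact pow_dvd_pow _ h

/-- The level of the block with number `l`. -/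
def lam (l : ℕ) : ℕ := Nat.clog 2 l

lemma le_pow_lam (l : ℕ) : l ≤ 2 ^ lam l := Nat.le_pow_clog (by norm_num) l

lemma lam_le (l : ℕ) : lam l ≤ l := by
  unfold lam
  rw [Nat.clog_le_iff_le_pow (by norm_num)]
  exact Nat.lt_two_pow_self.le

lemma lam_succ_of_lt {l : ℕ} (h : l < 2 ^ lam l) : lam (l + 1) = lam l := by
  apply le_antisymm
  · unfold lam
    rw [Nat.clog_le_iff_le_pow (by norm_num)]
    exact h
  · exact Nat.clog_mono_right _ (Nat.le_succ l)

lemma lam_succ_of_eq {l : ℕ} (h : l = 2 ^ lam l) : lam (l + 1) = lam l + 1 := by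
  apply le_antisymm
  · unfold lam
    rw [Nat.clog_le_iff_le_pow (by norm_num)]
    have h1 : 0 < 2 ^ lam l := by positivity
    change l + 1 ≤ 2 ^ (lam l + 1)
    rw [pow_succ]; omega
  · by_contra hc
    have h1 : lam (l + 1) ≤ lam l := by omega
    have h2 := le_pow_lam (l + 1)
    have h3 : 2 ^ lam (l + 1) ≤ 2 ^ lam l := Nat.pow_le_pow_right (by norm_num) h1
    omega

lemma lam_one : lam 1 = 0 := by simp [lam]

lemma lam_zero : lam 0 = 0 := by simp [lam]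

lemma two_pow_dvd_eight {a l : ℕ} (h : a ≤ 3 * l) : 2 ^ a ∣ 8 ^ l := by
  rw [show (8 : ℕ) = 2 ^ 3 by norm_num, ← pow_mul]
  exact pow_dvd_pow _ h

/-- The second coordinate. -/
noncomputable def z (l : ℕ) : Z2 := if l = 0 then 0 else 2 ^ lam l

lemma z_of_ne {l : ℕ} (h : l ≠ 0) : z l = 2 ^ lam l := if_neg h

lemma z_zero : z 0 = 0 := if_pos rfl

/-- Raw data. -/
abbrev Raw := Z2 × ℕ × ℕ

/-- Admissible data. -/
def Valid (p : Raw) : Prop :=
  (2 : Z2) ^ lam p.2.1 ∣ p.1 - p.2.1 ∧ 2 ^ lam p.2.1 ∣ p.2.2 ∧ p.2.2 < 8 ^ p.2.1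

/-- The space. -/
def Pt : Type := {p : Raw // Valid p}

/-- The embedding of raw data. -/
noncomputable def embR (p : Raw) : Z2 × Z2 × Z2 := (p.1, z p.2.1, (p.2.2 : Z2))

/-- The embedding of the space. -/
noncomputable def emb (p : Pt) : Z2 × Z2 × Z2 := embR p.1

lemma dist_embR (p q : Raw) : dist (embR p) (embR q) =
    max ‖p.1 - q.1‖ (max ‖z p.2.1 - z q.2.1‖ ‖(p.2.2 : Z2) - q.2.2‖) := by
  simp only [embR]
  rw [Prod.dist_eq, Prod.dist_eq]
  simp only [dist_eq_norm]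

lemma sep {p q : Raw} (hp : Valid p) (hq : Valid q) (hp0 : p.2.1 ≠ 0) (hq0 : q.2.1 ≠ 0)
    (hne : p.2.1 ≠ q.2.1) :
    r (min (lam p.2.1) (lam q.2.1)) ≤ max ‖p.1 - q.1‖ ‖z p.2.1 - z q.2.1‖ := by
  rw [z_of_ne hp0, z_of_ne hq0]
  rcases lt_trichotomy (lam p.2.1) (lam q.2.1) with h | h | h
  · rw [norm_pow_sub h, min_eq_left h.le]
    exact le_max_right _ _
  · rw [h, min_self]
    refine le_trans ?_ (le_max_left _ _)
    by_contra hc
    have h1 : (2 : Z2) ^ lam q.2.1 ∣ p.1 - q.1 := (norm_le_iff _ _).1 (not_le.1 hc).le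
    have h2 := hp.1
    rw [h] at h2
    have h3 : (2 : Z2) ^ lam q.2.1 ∣ (((p.2.1 : ℤ) - (q.2.1 : ℤ) : ℤ) : Z2) := by
      have := (h1.sub h2).add hq.1
      convert this using 1
      push_cast; ring
    rw [int_dvd_iff] at h3
    have h4 := le_pow_lam p.2.1
    have h5 := le_pow_lam q.2.1
    rw [h] at h4
    have h6 : ((p.2.1 : ℤ) - (q.2.1 : ℤ)) ≠ 0 := by omega
    have h7 := Int.le_of_dvd (abs_pos.2 h6) ((dvd_abs _ _).2 h3)
    have h8 : ((2 ^ lam q.2.1 : ℕ) : ℤ) = (2 : ℤ) ^ lam q.2.1 := by push_cast; rfl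
    rw [← h8] at h7
    rcases abs_cases ((p.2.1 : ℤ) - (q.2.1 : ℤ)) with h9 | h9 <;> omega
  · rw [norm_sub_rev (2 ^ lam p.2.1 : Z2), norm_pow_sub h, min_eq_right h.le]
    exact le_max_right _ _

lemma emb_inj : Function.Injective emb := by
  rintro ⟨⟨T, l, W⟩, hp⟩ ⟨⟨T', l', W'⟩, hq⟩ h
  simp only [emb, embR, Prod.mk.injEq, Nat.cast_inj] at h
  obtain ⟨h1, h2, h3⟩ := h
  have hl : l = l' := by
    by_contra hne
    by_cases h0 : l = 0
    · have h0' : l' ≠ 0 := by omega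
      rw [h0, z_zero, z_of_ne h0'] at h2
      exact absurd h2.symm (pow_ne_zero _ two_ne_zero)
    · by_cases h0' : l' = 0
      · rw [h0', z_zero, z_of_ne h0] at h2
        exact absurd h2 (pow_ne_zero _ two_ne_zero)
      · have := sep hp hq h0 h0' hne
        simp only [h1, h2, sub_self, norm_zero, max_self] at this
        exact absurd this (not_le.2 (r_pos _))
  subst h1 hl h3
  rfl

noncomputable instance : MetricSpace Pt := MetricSpace.induced emb emb_inj inferInstance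

lemma dist_def (p q : Pt) : dist p q = dist (embR p.1) (embR q.1) := rfl

lemma isometry_emb : Isometry emb := Isometry.of_dist_eq (fun _ _ => rfl)

noncomputable instance : MeasurableSpace Pt := borel Pt

instance : BorelSpace Pt := ⟨rfl⟩

lemma isClosed_dvd (n : ℕ) (c : Z2) : IsClosed {T : Z2 | (2 : Z2) ^ n ∣ T - c} := by
  have : {T : Z2 | (2 : Z2) ^ n ∣ T - c} = Metric.closedBall c (r n) := by
    ext T
    simp only [mem_ofPred_eq, Metric.mem_closedBall, dist_eq_norm, norm_le_iff]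
  rw [this]
  exact Metric.isClosed_closedBall

/-- The block with number `l`, in the ambient space. -/
def S (l : ℕ) : Set (Z2 × Z2 × Z2) :=
  ⋃ W ∈ {W : ℕ | 2 ^ lam l ∣ W ∧ W < 8 ^ l},
    ({T : Z2 | (2 : Z2) ^ lam l ∣ T - l} ×ˢ ({z l} ×ˢ {(W : Z2)}))

lemma isClosed_S (l : ℕ) : IsClosed (S l) := by
  apply Set.Finite.isClosed_biUnion
  · exact (Set.finite_lt_nat (8 ^ l)).subset (fun W hW => hW.2)
  · intro W _
    exact (isClosed_dvd _ _).prod (isClosed_singleton.prod isClosed_singleton)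

lemma S_sub (l : ℕ) : S l ⊆ range emb := by
  intro x hx
  simp only [S, mem_iUnion, mem_ofPred_eq, mem_prod, mem_singleton_iff, exists_prop] at hx
  obtain ⟨W, ⟨h1, h2⟩, h3, h4, h5⟩ := hx
  refine ⟨⟨(x.1, l, W), h3, h1, h2⟩, ?_⟩
  simp only [emb, embR]
  rw [← h4, ← h5]

lemma mem_S (p : Pt) : emb p ∈ S p.1.2.1 := by
  simp only [S, mem_iUnion, mem_ofPred_eq, mem_prod, mem_singleton_iff, exists_prop]
  exact ⟨p.1.2.2, ⟨p.2.2.1, p.2.2.2⟩, p.2.1, rfl, rfl⟩

lemma isClosed_range : IsClosed (range emb) := by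
  apply isClosed_of_closure_subset
  intro x hx
  by_cases h0 : x.2.1 = 0
  · have hsub : range emb ⊆ {y : Z2 × Z2 × Z2 | ‖y.2.2‖ ≤ ‖y.2.1‖} := by
      rintro _ ⟨⟨⟨T, l, W⟩, hp⟩, rfl⟩
      simp only [emb, embR, mem_ofPred_eq]
      by_cases hl : l = 0
      · subst hl
        have : W = 0 := by have := hp.2.2; simpa using this
        simp [this]
      · rw [z_of_ne hl, norm_two_pow, norm_le_iff]
        exact nat_dvd hp.2.1
    have hcl : IsClosed {y : Z2 × Z2 × Z2 | ‖y.2.2‖ ≤ ‖y.2.1‖} :=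
      isClosed_le (by fun_prop) (by fun_prop)
    have h1 := closure_minimal hsub hcl hx
    simp only [mem_ofPred_eq, h0, norm_zero, norm_le_zero_iff] at h1
    refine ⟨⟨(x.1, 0, 0), ?_⟩, ?_⟩
    · simp [Valid, lam_zero]
    · simp only [emb, embR, z_zero, Nat.cast_zero]
      rw [← h0]
      conv_lhs => enter [2, 2]; rw [h0, ← h1]
  · have hpos : 0 < ‖x.2.1‖ := norm_pos_iff.2 h0
    obtain ⟨N, hN⟩ : ∃ N : ℕ, r N < ‖x.2.1‖ := by
      obtain ⟨N, hN⟩ := exists_pow_lt_of_lt_one hpos (show (1 / 2 : ℝ) < 1 by norm_num)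
      refine ⟨N, ?_⟩
      have : r N = (1 / 2 : ℝ) ^ N := by
        unfold r
        rw [zpow_neg, zpow_natCast, one_div, inv_pow]
      rw [this]; exact hN
    have hU : IsOpen {y : Z2 × Z2 × Z2 | r N < ‖y.2.1‖} := isOpen_lt (by fun_prop) (by fun_prop)
    have h1 : x ∈ closure ({y : Z2 × Z2 × Z2 | r N < ‖y.2.1‖} ∩ range emb) :=
      hU.inter_closure ⟨hN, hx⟩
    have hcl : IsClosed (⋃ l ∈ {l : ℕ | l ≤ 2 ^ N}, S l) :=
      (Set.finite_le_nat _).isClosed_biUnion (fun l _ => isClosed_S l)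
    have hsub : {y : Z2 × Z2 × Z2 | r N < ‖y.2.1‖} ∩ range emb ⊆ ⋃ l ∈ {l : ℕ | l ≤ 2 ^ N}, S l := by
      rintro _ ⟨hy, p, rfl⟩
      simp only [mem_iUnion, mem_ofPred_eq, exists_prop]
      refine ⟨p.1.2.1, ?_, mem_S p⟩
      by_cases hl : p.1.2.1 = 0
      · rw [hl]; positivity
      · simp only [mem_ofPred_eq, emb, embR, z_of_ne hl, norm_two_pow] at hy
        exact (le_pow_lam _).trans (Nat.pow_le_pow_right (by norm_num) (lt_of_r_lt hy).le)
    have h2 := closure_minimal hsub hcl h1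
    simp only [mem_iUnion, exists_prop] at h2
    obtain ⟨l, _, hl⟩ := h2
    exact S_sub l hl

instance : CompactSpace Pt :=
  (Topology.IsClosedEmbedding.mk isometry_emb.isEmbedding isClosed_range).compactSpace

instance : Nonempty Pt := ⟨⟨(0, 0, 0), by simp [Valid, lam_zero]⟩⟩

end Pool.Agent.H43Z.BU
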