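import Pool.Agent.H43Z.BU

set_option autoImplicit false

open Set

namespace Pool.Agent.H43Z.BU

/-- Index set of the pieces. -/
abbrev K := Option (Option (Fin 2 × Fin 2))

/-- The pieces of the domain. -/
def InC : K → Raw → Prop
  | none, p => p.2.1 = 0
  | some none, p => p.2.1 ≠ 0 ∧ p.2.1 < 2 ^ lam p.2.1
  | some (some (b, c)), p => p.2.1 = 2 ^ lam p.2.1 ∧
      (2 : Z2) ^ (lam p.2.1 + 1) ∣ p.1 - (p.2.1 - ((b : ℕ) : Z2) * 2 ^ lam p.2.1) ∧
      ∃ V : ℕ, p.2.2 = V + c * 2 ^ lam p.2.1 ∧ 2 ^ (lam p.2.1 + 1) ∣ V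

/-- The maps on raw data. -/
noncomputable def G (e : Fin 2) : K → Raw → Raw
  | none, p => (p.1, 1, e)
  | some none, p => (p.1 + 1, p.2.1 + 1, p.2.2 + e * 8 ^ p.2.1)
  | some (some (b, c)), p => (p.1 + 1 + ((b : ℕ) : Z2) * 2 ^ lam p.2.1, p.2.1 + 1,
      p.2.2 - c * 2 ^ lam p.2.1 + (e + 2 * b + 4 * c) * 8 ^ p.2.1)

lemma cover (p : Raw) (hp : Valid p) : ∃ k, InC k p := by
  by_cases h0 : p.2.1 = 0
  · exact ⟨none, h0⟩
  rcases (le_pow_lam p.2.1).lt_or_eq with h | h
  · exact ⟨some none, h0, h⟩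
  · obtain ⟨s, hs⟩ := hp.1
    obtain ⟨w, hw⟩ := hp.2.1
    have hb : ∃ b : Fin 2, (2 : Z2) ∣ s + ((b : ℕ) : Z2) := by
      by_cases h2 : (2 : Z2) ∣ s
      · exact ⟨0, by simpa using h2⟩
      · refine ⟨1, ?_⟩
        have h3 : ‖s‖ = 1 := by
          apply le_antisymm (PadicInt.norm_le_one s)
          by_contra hc
          have := (PadicInt.norm_lt_one_iff_dvd s).1 (not_le.1 hc)
          exact h2 (by simpa using this)
        have h4 := PadicInt.toZMod_spec s
        have h5 : (2 : Z2) ∣ s - ((PadicInt.toZMod s).cast : Z2) := by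
          rw [PadicInt.maximalIdeal_eq_span_p, Ideal.mem_span_singleton] at h4
          simpa using h4
        generalize PadicInt.toZMod s = t at h5
        fin_cases t
        · have : ((0 : ZMod 2).cast : Z2) = 0 := ZMod.cast_zero
          have h6 : (2 : Z2) ∣ s - 0 := by rw [← this]; exact h5
          exact absurd (by simpa using h6) h2
        · have h6 : (2 : Z2) ∣ s - 1 := by
            have : ((1 : ZMod 2).cast : Z2) = 1 := by
              rw [ZMod.cast_eq_val, ZMod.val_one]; simp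
            rw [← this]; exact h5
          have := h6.add (dvd_refl 2)
          convert this using 1
          simp; ring
    obtain ⟨b, t, hb⟩ := hb
    have hc : ∃ c : Fin 2, ∃ v : ℕ, w = 2 * v + c := by
      rcases Nat.even_or_odd' w with ⟨v, hv | hv⟩
      · exact ⟨0, v, by simpa using hv⟩
      · exact ⟨1, v, by simpa using hv⟩
    obtain ⟨c, v, hc⟩ := hc
    refine ⟨some (some (b, c)), h, ⟨t, ?_⟩, 2 ^ (lam p.2.1 + 1) * v, ?_, dvd_mul_right _ _⟩
    · linear_combination hs + 2 ^ lam p.2.1 * hb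
    · rw [hw, hc]; ring

lemma G_valid (e : Fin 2) (k : K) (p : Raw) (hp : Valid p) (hk : InC k p) : Valid (G e k p) := by
  have he := e.2
  rcases k with _ | _ | ⟨b, c⟩
  · simp only [G, Valid, lam_one]
    refine ⟨by simp, by simp, by omega⟩
  · obtain ⟨h0, h1⟩ := hk
    simp only [G, Valid, lam_succ_of_lt h1]
    refine ⟨?_, ?_, ?_⟩
    · convert hp.1 using 1
      push_cast; ring
    · exact hp.2.1.add (Dvd.dvd.mul_left (two_pow_dvd_eight (by have := lam_le p.2.1; omega)) _)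
    · have h2 := hp.2.2
      have h3 : (e : ℕ) * 8 ^ p.2.1 ≤ 1 * 8 ^ p.2.1 := Nat.mul_le_mul_right _ (by omega)
      rw [pow_succ]; omega
  · obtain ⟨h0, h1, V, h2, h3⟩ := hk
    have hb := b.2
    have hc := c.2
    simp only [G, Valid, lam_succ_of_eq h0]
    have hl : 1 ≤ p.2.1 := by rw [h0]; exact Nat.one_le_two_pow
    refine ⟨?_, ?_, ?_⟩
    · convert h1 using 1
      push_cast; ring
    · rw [h2, Nat.add_sub_cancel]
      exact h3.add (Dvd.dvd.mul_left (two_pow_dvd_eight (by have := lam_le p.2.1; omega)) _)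
    · have h4 := hp.2.2
      have h5 : ((e : ℕ) + 2 * b + 4 * c) * 8 ^ p.2.1 ≤ 7 * 8 ^ p.2.1 :=
        Nat.mul_le_mul_right _ (by omega)
      rw [pow_succ]; omega

lemma max_eq_of_le {a b c c' : ℝ} (h : c ≤ max a b) (h' : c' ≤ max a b) :
    max a (max b c) = max a (max b c') := by
  rw [← max_assoc, ← max_assoc, max_eq_left h, max_eq_left h']

lemma norm_sub_le_r {a b m n : ℕ} (ha : 2 ^ a ∣ m) (hb : 2 ^ b ∣ n) :
    ‖(m : Z2) - n‖ ≤ r (min a b) := by
  rw [norm_le_iff]
  exact (nat_dvd ((pow_dvd_pow _ (min_le_left a b)).trans ha)).sub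
    (nat_dvd ((pow_dvd_pow _ (min_le_right a b)).trans hb))

lemma raise_dist (e b c : Fin 2) (p q : Raw) (hp : Valid p) (hq : Valid q)
    (hkp : InC (some (some (b, c))) p) (hkq : InC (some (some (b, c))) q)
    (hlt : lam p.2.1 < lam q.2.1) :
    dist (embR (G e (some (some (b, c))) p)) (embR (G e (some (some (b, c))) q)) =
      dist (embR p) (embR q) := by
  have hp' := G_valid e _ p hp hkp
  have hq' := G_valid e _ q hq hkq
  have hp0 : p.2.1 ≠ 0 := by rw [hkp.1]; positivity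
  have hq0 : q.2.1 ≠ 0 := by rw [hkq.1]; positivity
  have h1 : dist (embR p) (embR q) = r (lam p.2.1) := by
    rw [dist_embR, z_of_ne hp0, z_of_ne hq0, norm_pow_sub hlt]
    have h2 := norm_sub_le_r hp.2.1 hq.2.1
    rw [min_eq_left hlt.le] at h2
    rw [max_eq_left h2, max_eq_right]
    rw [norm_le_iff]
    have h3 := hp.1
    have h4 := (pow_dvd_pow _ hlt.le).trans hq.1
    have h5 : (2 : Z2) ^ lam p.2.1 ∣ (p.2.1 : Z2) := nat_dvd (by rw [← hkp.1])
    have h6 : (2 : Z2) ^ lam p.2.1 ∣ (q.2.1 : Z2) :=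
      (pow_dvd_pow _ hlt.le).trans (nat_dvd (by rw [← hkq.1]))
    convert ((h3.sub h4).add h5).sub h6 using 1
    ring
  rw [h1, dist_embR]
  have e1 : lam (G e (some (some (b, c))) p).2.1 = lam p.2.1 + 1 := lam_succ_of_eq hkp.1
  have e2 : lam (G e (some (some (b, c))) q).2.1 = lam q.2.1 + 1 := lam_succ_of_eq hkq.1
  have h2 := norm_sub_le_r hp'.2.1 hq'.2.1
  rw [e1, e2, min_eq_left (by omega)] at h2
  rw [z_of_ne (l := (G e (some (some (b, c))) p).2.1) (Nat.succ_ne_zero _),
    z_of_ne (l := (G e (some (some (b, c))) q).2.1) (Nat.succ_ne_zero _), e1, e2,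
    norm_pow_sub (by omega), max_eq_left h2]
  have h3 : ‖(G e (some (some (b, c))) p).1 - (G e (some (some (b, c))) q).1‖ = r (lam p.2.1) := by
    apply norm_eq_of_dvd
    have h4 := hkp.2.1
    have h5 := (pow_dvd_pow _ (show lam p.2.1 + 1 ≤ lam q.2.1 + 1 by omega)).trans hkq.2.1
    have h6 : (2 : Z2) ^ (lam p.2.1 + 1) ∣ (q.2.1 : Z2) :=
      (pow_dvd_pow _ hlt).trans (nat_dvd (by rw [← hkq.1]))
    have h7 : (p.2.1 : Z2) = 2 ^ lam p.2.1 := by
      conv_lhs => rw [hkp.1]
      push_cast; rfl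
    convert (h4.sub h5).sub h6 using 1
    simp only [G]
    linear_combination h7
  rw [h3, max_eq_left (r_le (Nat.le_succ _))]

lemma G_dist (e : Fin 2) (k : K) (p q : Raw) (hp : Valid p) (hq : Valid q)
    (hkp : InC k p) (hkq : InC k q) :
    dist (embR (G e k p)) (embR (G e k q)) = dist (embR p) (embR q) := by
  have hp' := G_valid e _ p hp hkp
  have hq' := G_valid e _ q hq hkq
  rcases k with _ | _ | ⟨b, c⟩
  · have h1 : p.2.1 = 0 := hkp
    have h2 : q.2.1 = 0 := hkq
    have h3 : p.2.2 = 0 := by have := hp.2.2; rw [h1] at this; omega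
    have h4 : q.2.2 = 0 := by have := hq.2.2; rw [h2] at this; omega
    rw [dist_embR, dist_embR]
    simp only [G, h1, h2, h3, h4, sub_self]
  · rw [dist_embR, dist_embR]
    have e1 : lam (p.2.1 + 1) = lam p.2.1 := lam_succ_of_lt hkp.2
    have e2 : lam (q.2.1 + 1) = lam q.2.1 := lam_succ_of_lt hkq.2
    have e3 : z (p.2.1 + 1) = z p.2.1 := by rw [z_of_ne hkp.1, z_of_ne (Nat.succ_ne_zero _), e1]
    have e4 : z (q.2.1 + 1) = z q.2.1 := by rw [z_of_ne hkq.1, z_of_ne (Nat.succ_ne_zero _), e2]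
    have h2 := norm_sub_le_r hp'.2.1 hq'.2.1
    simp only [G, e1, e2] at h2
    simp only [G, e3, e4, add_sub_add_right_eq_sub]
    by_cases hl : p.2.1 = q.2.1
    · rw [hl]; push_cast; rw [add_sub_add_right_eq_sub]
    · have h3 := sep hp hq hkp.1 hkq.1 hl
      exact max_eq_of_le (h2.trans h3) ((norm_sub_le_r hp.2.1 hq.2.1).trans h3)
  · rcases lt_trichotomy (lam p.2.1) (lam q.2.1) with h | h | h
    · exact raise_dist e b c p q hp hq hkp hkq h
    · have hl : p.2.1 = q.2.1 := by rw [hkp.1, hkq.1, h]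
      obtain ⟨V, hV, -⟩ := hkp.2.2
      obtain ⟨V', hV', -⟩ := hkq.2.2
      rw [dist_embR, dist_embR]
      simp only [G, hV, hV', Nat.add_sub_cancel, hl, sub_self, add_sub_add_right_eq_sub]
      push_cast
      rw [add_sub_add_right_eq_sub, add_sub_add_right_eq_sub]
    · rw [dist_comm, raise_dist e b c q p hq hp hkq hkp h, dist_comm]

lemma tag_eq {V V' a a' N : ℕ} (hV : V < N) (hV' : V' < N) (h : V + a * N = V' + a' * N) :
    a = a' := by
  have h1 : (V + a * N) / N = a := by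
    rw [Nat.add_mul_div_right _ _ (by omega), Nat.div_eq_of_lt hV, zero_add]
  have h2 : (V' + a' * N) / N = a' := by
    rw [Nat.add_mul_div_right _ _ (by omega), Nat.div_eq_of_lt hV', zero_add]
  rw [← h1, h, h2]

lemma G_disj (e e' : Fin 2) (k k' : K) (p q : Raw) (hp : Valid p) (hq : Valid q)
    (hkp : InC k p) (hkq : InC k' q) (h : G e k p = G e' k' q) : e = e' ∧ k = k' := by
  have h1 := congrArg (fun x : Raw => x.2.1) h
  have h2 := congrArg (fun x : Raw => x.2.2) h
  rcases k with _ | _ | ⟨b, c⟩ <;> rcases k' with _ | _ | ⟨b', c'⟩ <;>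
    simp only [G] at h1 h2
  · exact ⟨Fin.ext h2, rfl⟩
  · exact absurd hkq.1 (by omega)
  · have := hkq.1
    have h3 : q.2.1 = 0 := by omega
    rw [h3] at this
    exact absurd this (by positivity)
  · exact absurd hkp.1 (by omega)
  · have hl : p.2.1 = q.2.1 := by omega
    have h3 := hp.2.2
    rw [hl] at h2 h3
    exact ⟨Fin.ext (tag_eq h3 hq.2.2 h2), rfl⟩
  · have hl : p.2.1 = q.2.1 := by omega
    have h3 := hkp.2
    have h4 := hkq.1
    rw [hl] at h3
    omega
  · have := hkp.1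
    have h3 : p.2.1 = 0 := by omega
    rw [h3] at this
    exact absurd this (by positivity)
  · have hl : p.2.1 = q.2.1 := by omega
    have h3 := hkq.2
    have h4 := hkp.1
    rw [hl] at h4
    omega
  · have hl : p.2.1 = q.2.1 := by omega
    have h3 := hp.2.2
    have h4 := hq.2.2
    rw [hl] at h2 h3
    have h5 := tag_eq (lt_of_le_of_lt (Nat.sub_le _ _) h3) (lt_of_le_of_lt (Nat.sub_le _ _) h4) h2
    have := e.2; have := e'.2; have := b.2; have := b'.2; have := c.2; have := c'.2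
    refine ⟨Fin.ext (by omega), ?_⟩
    rw [show b = b' from Fin.ext (by omega), show c = c' from Fin.ext (by omega)]

/-- The pieces, as subsets of the space. -/
def C (k : K) : Set Pt := {p | InC k p.1}

open Classical in
/-- The maps on the space. -/
noncomputable def F (e : Fin 2) (k : K) (p : Pt) : Pt :=
  if h : Valid (G e k p.1) then ⟨G e k p.1, h⟩ else p

lemma F_val (e : Fin 2) (k : K) (p : Pt) (hp : p ∈ C k) : (F e k p).1 = G e k p.1 := by
  unfold F
  rw [dif_pos (G_valid e k p.1 p.2 hp)]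

lemma F_dist (e : Fin 2) (k : K) (p q : Pt) (hp : p ∈ C k) (hq : q ∈ C k) :
    dist (F e k p) (F e k q) = dist p q := by
  rw [dist_def, dist_def, F_val e k p hp, F_val e k q hq]
  exact G_dist e k _ _ p.2 q.2 hp hq

lemma F_disj (e e' : Fin 2) (k k' : K) (h : ¬ (e = e' ∧ k = k')) :
    Disjoint (F e k '' C k) (F e' k' '' C k') := by
  rw [Set.disjoint_left]
  rintro _ ⟨p, hp, rfl⟩ ⟨q, hq, hpq⟩
  apply h
  have := congrArg Subtype.val hpq
  rw [F_val e k p hp, F_val e' k' q hq] at this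
  exact G_disj e e' k k' _ _ p.2 q.2 hp hq this.symm

lemma C_cover : ⋃ k, C k = univ := by
  rw [eq_univ_iff_forall]
  intro p
  obtain ⟨k, hk⟩ := cover p.1 p.2
  exact mem_iUnion.2 ⟨k, hk⟩

lemma mem_S_iff (p : Pt) (l : ℕ) : emb p ∈ S l ↔ p.1.2.1 = l := by
  constructor
  · intro h
    simp only [S, mem_iUnion, mem_ofPred_eq, mem_prod, mem_singleton_iff, exists_prop] at h
    obtain ⟨W, ⟨h1, h2⟩, h3, h4, h5⟩ := h
    have : emb p = emb ⟨((emb p).1, l, W), h3, h1, h2⟩ := by
      simp only [emb, embR] at h4 h5 ⊢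
      rw [h4, h5]
    rw [emb_inj this]
  · rintro rfl
    exact mem_S p

lemma meas_fiber (l W : ℕ) : MeasurableSet {p : Pt | p.1.2.1 = l ∧ p.1.2.2 = W} := by
  have : {p : Pt | p.1.2.1 = l ∧ p.1.2.2 = W} = emb ⁻¹' (S l ∩ {y | y.2.2 = (W : Z2)}) := by
    ext p
    simp only [mem_ofPred_eq, mem_preimage, mem_inter_iff, mem_S_iff]
    simp only [emb, embR, Nat.cast_inj]
  rw [this]
  apply IsClosed.measurableSet
  apply IsClosed.preimage isometry_emb.continuous
  exact (isClosed_S l).inter (isClosed_eq (by fun_prop) (by fun_prop))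

lemma meas_of (Q : Raw → Prop) (hQ : ∀ l W, IsClosed {T : Z2 | Q (T, l, W)}) :
    MeasurableSet {p : Pt | Q p.1} := by
  have : {p : Pt | Q p.1} = ⋃ l, ⋃ W, ({p : Pt | p.1.2.1 = l ∧ p.1.2.2 = W} ∩
      (fun p : Pt => (emb p).1) ⁻¹' {T : Z2 | Q (T, l, W)}) := by
    ext p
    simp only [mem_ofPred_eq, mem_iUnion, mem_inter_iff, mem_preimage]
    constructor
    · intro h
      exact ⟨p.1.2.1, p.1.2.2, ⟨rfl, rfl⟩, h⟩
    · rintro ⟨l, W, ⟨rfl, rfl⟩, h⟩
      exact h
  rw [this]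
  refine MeasurableSet.iUnion fun l => MeasurableSet.iUnion fun W => (meas_fiber l W).inter ?_
  exact ((hQ l W).preimage (continuous_fst.comp isometry_emb.continuous)).measurableSet

lemma meas_C (k : K) : MeasurableSet (C k) := by
  apply meas_of
  intro l W
  rcases k with _ | _ | ⟨b, c⟩
  · simp only [InC]
    exact isClosed_const
  · simp only [InC]
    exact isClosed_const
  · simp only [InC]
    exact isClosed_const.and ((isClosed_dvd _ _).and isClosed_const)

lemma F_injOn (e : Fin 2) (k : K) : InjOn (F e k) (C k) := by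
  intro x hx y hy hxy
  rw [← dist_eq_zero, ← F_dist e k x y hx hy, hxy, dist_self]

lemma meas_image (e : Fin 2) (k : K) : MeasurableSet (F e k '' C k) := by
  apply (meas_C k).image_of_continuousOn_injOn _ (F_injOn e k)
  rw [Metric.continuousOn_iff]
  intro b hb ε hε
  exact ⟨ε, hε, fun a ha hab => by rw [F_dist e k a b ha hb]; exact hab⟩

lemma inv_spec (e : Fin 2) (k : K) :
    BijOn (Function.invFunOn (F e k) (C k)) (F e k '' C k) (C k) ∧
      ∀ x ∈ F e k '' C k, ∀ y ∈ F e k '' C k,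
        dist (Function.invFunOn (F e k) (C k) x) (Function.invFunOn (F e k) (C k) y) = dist x y := by
  refine ⟨(F_injOn e k).bijOn_image.symm (F_injOn e k).bijOn_image.invOn_invFunOn.symm, ?_⟩
  rintro _ ⟨p, hp, rfl⟩ _ ⟨q, hq, rfl⟩
  rw [(F_injOn e k).leftInvOn_invFunOn hp, (F_injOn e k).leftInvOn_invFunOn hq, F_dist e k p q hp hq]

end Pool.Agent.H43Z.BU
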