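import Pool.Agent.H43Z.FRZ
import Pool.Agent.Helper566.FD.J17

/-! A formally real field in which the signs of rigid square roots are forced. -/

set_option autoImplicit false

namespace Pool.Agent.H43Z.FR

open Pool.Agent.Helper566.FD (Pol wv pv LettersIn hh letter lab isLab sg sgn gs mulP negP powP letters
  pv_append pv_negP pv_mulP pv_powP comp_poly comp_basic K0 g sigma kummer model_stat lab_letter
  isLab_letter letter_lab)
open Pool.Agent.Helper566.FD.J5 (isLab_false_of_mod)
open Pool.Agent.Helper566.FD.J17 (g_sq_pv g_sq_mem)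

/-- marker polynomials -/
def Dm (j : ℕ) (s s' : Bool) : Pol :=
  [((hh (4 * j) : ℤ) + (hh (4 * j + 2) : ℤ), []), (sg s, [4 * j]), (sg s', [4 * j + 2])]

/-- forcing polynomials -/
def Df (j : ℕ) (s : Bool) : Pol := [((hh (4 * j) : ℤ), []), (sg s, [4 * j])]

def Dy (x : List Bool) : Pol :=
  cond (x.getD 0 false) (Df x.length (x.getD 1 false)) (Dm x.length true true)

def DD (n : ℕ) : Pol := cond (isLab n) (Dy (lab n)) [((hh n : ℤ) * (hh n : ℤ) + 1, [])]

theorem letters_Dm (j : ℕ) (s s' : Bool) : ∀ i ∈ letters (Dm j s s'), isLab i = false := by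
  intro i hi
  apply isLab_false_of_mod
  simp [letters, Dm] at hi
  omega

theorem letters_Df (j : ℕ) (s : Bool) : ∀ i ∈ letters (Df j s), isLab i = false := by
  intro i hi
  apply isLab_false_of_mod
  simp [letters, Df] at hi
  omega

theorem letters_Dy (x : List Bool) : ∀ i ∈ letters (Dy x), isLab i = false := by
  unfold Dy
  cases x.getD 0 false
  · exact letters_Dm _ _ _
  · exact letters_Df _ _

open Pool.Agent.Helper566.FD.J7 in
theorem prim_DD : Primrec DD := by
  have hlen : Primrec (fun x : List Bool => 4 * x.length) :=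
    Primrec.nat_mul.comp (Primrec.const 4) Primrec.list_length
  have hlen2 : Primrec (fun x : List Bool => 4 * x.length + 2) :=
    Primrec.nat_add.comp hlen (Primrec.const 2)
  have h0 : Primrec (fun x : List Bool => x.getD 0 false) :=
    (Primrec.list_getD false).comp Primrec.id (Primrec.const 0)
  have h1 : Primrec (fun x : List Bool => x.getD 1 false) :=
    (Primrec.list_getD false).comp Primrec.id (Primrec.const 1)
  have hf : Primrec (fun x : List Bool => Df x.length (x.getD 1 false)) := by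
    unfold Df
    refine Primrec.list_cons.comp (Primrec.pair (prim_hhZ.comp hlen) (Primrec.const [])) ?_
    refine Primrec.list_cons.comp (Primrec.pair (prim_sg.comp h1) ?_) (Primrec.const [])
    exact Primrec.list_cons.comp hlen (Primrec.const [])
  have hm : Primrec (fun x : List Bool => Dm x.length true true) := by
    unfold Dm
    refine Primrec.list_cons.comp (Primrec.pair
      (prim_int_add.comp (prim_hhZ.comp hlen) (prim_hhZ.comp hlen2)) (Primrec.const [])) ?_
    refine Primrec.list_cons.comp (Primrec.pair (Primrec.const _) ?_) ?_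
    · exact Primrec.list_cons.comp hlen (Primrec.const [])
    · refine Primrec.list_cons.comp (Primrec.pair (Primrec.const _) ?_) (Primrec.const [])
      exact Primrec.list_cons.comp hlen2 (Primrec.const [])
  have hy : Primrec Dy := Primrec.cond h0 hf hm
  have h2 : Primrec (fun n : ℕ => [((hh n : ℤ) * (hh n : ℤ) + 1, ([] : List ℕ))]) :=
    Primrec.list_cons.comp (Primrec.pair
      (prim_int_add.comp (prim_int_mul.comp prim_hhZ prim_hhZ) (Primrec.const 1))
      (Primrec.const [])) (Primrec.const [])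
  exact Primrec.cond prim_isLab (hy.comp prim_lab) h2

/-- the table -/
def tab : Tab where
  D := DD
  h1 := by
    intro n
    unfold DD
    cases isLab n
    · simp [letters]
    · exact letters_Dy _
  h0 := by
    intro n hn
    unfold DD
    rw [hn]
    simp [letters]
  hc := prim_DD.to_comp

/-- marker labels -/
def mk (i : ℕ) : List Bool := false :: false :: List.replicate i false

/-- forcing labels -/
def frc (i : ℕ) (t : Bool) : List Bool := true :: t :: List.replicate i false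

theorem Dy_mk (i : ℕ) : Dy (mk i) = Dm (i + 2) true true := by simp [Dy, mk]

theorem Dy_frc (i : ℕ) (t : Bool) : Dy (frc i t) = Df (i + 2) t := by simp [Dy, frc]

/-- one summand -/
noncomputable def T (c : ℕ → Bool) (s : Bool) (n : ℕ) : ℝ := (hh n : ℝ) + (sg s : ℝ) * gs c n

theorem pv_Dm (c : ℕ → Bool) (j : ℕ) (s s' : Bool) :
    pv (gs c) (Dm j s s') = T c s (4 * j) + T c s' (4 * j + 2) := by
  simp [pv, wv, Dm, T]; ring

theorem pv_Df (c : ℕ → Bool) (j : ℕ) (s : Bool) : pv (gs c) (Df j s) = T c s (4 * j) := by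
  simp [pv, wv, Df, T]

theorem sqrt_bounds (n : ℕ) : (2 : ℝ) ≤ hh n ∧ (hh n : ℝ) < Real.sqrt ((hh n : ℝ) ^ 2 + 1) ∧
    Real.sqrt ((hh n : ℝ) ^ 2 + 1) < hh n + 1 := by
  have h1 := (Pool.Agent.Helper566.FD.J3.eta_hh n).1
  refine ⟨h1, ?_, ?_⟩
  · apply Real.lt_sqrt_of_sq_lt
    linarith
  · rw [Real.sqrt_lt' (by linarith)]
    nlinarith

theorem T_neg (c : ℕ → Bool) (s : Bool) (n : ℕ) (h : s = c n) : T c s n < 0 := by
  obtain ⟨h1, h2, h3⟩ := sqrt_bounds n
  unfold T gs
  rw [← h]
  cases s <;> simp [sg, sgn] <;> linarith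

theorem T_big (c : ℕ → Bool) (s : Bool) (n : ℕ) (h : s ≠ c n) : 4 ≤ T c s n := by
  obtain ⟨h1, h2, h3⟩ := sqrt_bounds n
  unfold T gs
  cases s <;> cases hc : c n <;> simp [sg, sgn, hc] at h ⊢ <;> linarith

theorem T_low (c : ℕ → Bool) (s : Bool) (n : ℕ) : -1 < T c s n := by
  obtain ⟨h1, h2, h3⟩ := sqrt_bounds n
  unfold T gs
  cases s <;> cases c n <;> simp [sg, sgn] <;> linarith

theorem gs_mem (b : ℕ → Bool) (n : ℕ) (hn : isLab n = false) : gs b n ∈ K0 := by
  have h1 : g n ∈ K0 := Subfield.subset_closure ⟨n, hn, rfl⟩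
  have h2 : gs b n = sgn (b n) * g n := by simp [gs, g, hn]
  rw [h2]
  cases b n
  · simpa [sgn] using h1
  · simpa [sgn] using h1

theorem sigma2 (b c : ℕ → Bool) : ∃ φ : K0 →+* ℝ, ∀ p : Pol,
    (∀ n ∈ letters p, isLab n = false) →
      ∃ θ : K0, (θ : ℝ) = pv (gs b) p ∧ φ θ = pv (gs c) p := by
  obtain ⟨φ, hφ⟩ := sigma (fun n => xor (b n) (c n))
  have h1 : ∀ n (hn : isLab n = false), φ ⟨gs b n, gs_mem b n hn⟩ = gs c n := by
    intro n hn
    have h2 := hφ n hn
    have h3 : (⟨gs b n, gs_mem b n hn⟩ : K0) =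
        (if b n then -1 else 1) * ⟨g n, Subfield.subset_closure ⟨n, hn, rfl⟩⟩ := by
      apply Subtype.ext
      cases hb : b n <;> simp [gs, g, hn, hb, sgn]
    rw [h3, map_mul, h2]
    cases hb : b n <;> cases hc : c n <;> simp [gs, hb, hc, sgn]
  have hw : ∀ w : List ℕ, (∀ n ∈ w, isLab n = false) →
      ∃ θ : K0, (θ : ℝ) = wv (gs b) w ∧ φ θ = wv (gs c) w := by
    intro w hw
    induction w with
    | nil => exact ⟨1, by simp [wv], by simp [wv]⟩
    | cons a w ih =>
      obtain ⟨θ, h2, h3⟩ := ih (fun n hn => hw n (List.mem_cons_of_mem _ hn))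
      have ha : isLab a = false := hw a List.mem_cons_self
      refine ⟨⟨gs b a, gs_mem b a ha⟩ * θ, ?_, ?_⟩
      · rw [Subfield.coe_mul, h2]
        simp [wv]
      · rw [map_mul, h3, h1 a ha]
        simp [wv]
  refine ⟨φ, fun p hp => ?_⟩
  induction p with
  | nil => exact ⟨0, by simp [pv], by simp [pv]⟩
  | cons m p ih =>
    obtain ⟨θ, h2, h3⟩ := ih (fun n hn => hp n (by
      simp only [letters, List.flatMap_cons, List.mem_append] at hn ⊢
      exact Or.inr hn))
    obtain ⟨η, h4, h5⟩ := hw m.2 (fun n hn => hp n (by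
      simp only [letters, List.flatMap_cons, List.mem_append]
      exact Or.inl hn))
    refine ⟨(m.1 : K0) * η + θ, ?_, ?_⟩
    · rw [Subfield.coe_add, Subfield.coe_mul, h2, h4]
      simp [pv]
    · rw [map_add, map_mul, h3, h5, map_intCast]
      simp [pv]

theorem nonneg_of_sq (b c : ℕ → Bool) (q : Pol) (hq : ∀ n ∈ letters q, isLab n = false)
    (S : Finset ℕ) (r : ℝ) (hr : r ∈ K0)
    (h : r ^ 2 = pv (gs b) q * ∏ n ∈ S, pv (gs b) (Dy (lab n))) :
    0 ≤ pv (gs c) q * ∏ n ∈ S, pv (gs c) (Dy (lab n)) := by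
  obtain ⟨φ, hφ⟩ := sigma2 b c
  obtain ⟨η, hη1, hη2⟩ := hφ q hq
  choose θ hθ1 hθ2 using fun n : ℕ => hφ (Dy (lab n)) (letters_Dy _)
  have hsq : (⟨r, hr⟩ : K0) ^ 2 = η * ∏ n ∈ S, θ n := by
    apply Subtype.ext
    rw [SubmonoidClass.coe_pow, Subfield.coe_mul]
    have : ((∏ n ∈ S, θ n : K0) : ℝ) = ∏ n ∈ S, (θ n : ℝ) := map_prod K0.subtype _ _
    rw [this, hη1]
    simp only [hθ1]
    exact h
  have h1 := congrArg φ hsq
  rw [map_pow, map_mul, map_prod, hη2] at h1
  simp only [hθ2] at h1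
  rw [← h1]
  exact sq_nonneg _

section field

variable (Fc : ℕ → Bool → Prop)

/-- the labels in use -/
def Lb (n : ℕ) : Prop := (∃ i, n = letter (mk i)) ∨ ∃ i t, Fc i t ∧ n = letter (frc i t)

/-- the letters in use -/
def II (n : ℕ) : Prop := isLab n = false ∨ Lb Fc n

open Classical in
/-- the signs of the static letters -/
noncomputable def bb (n : ℕ) : Bool := decide (∃ i, n = 4 * (i + 2) ∧ Fc i false)

/-- the generators -/
noncomputable def yy (n : ℕ) : ℝ :=
  cond (isLab n) (Real.sqrt (pv (gs (bb Fc)) (Dy (lab n)))) (gs (bb Fc) n)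

/-- the field -/
noncomputable def FF : Subfield ℝ := Subfield.closure (yy Fc '' {n | II Fc n})

/-- changed signs -/
noncomputable def upd (i : ℕ) (u v : Bool) (n : ℕ) : Bool :=
  if n = 4 * (i + 2) then u else if n = 4 * (i + 2) + 2 then v else bb Fc n

theorem upd_1 (i : ℕ) (u v : Bool) : upd Fc i u v (4 * (i + 2)) = u := by simp [upd]

theorem upd_2 (i : ℕ) (u v : Bool) : upd Fc i u v (4 * (i + 2) + 2) = v := by simp [upd]

theorem bb_2 (j : ℕ) : bb Fc (4 * j + 2) = false := by
  unfold bb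
  simp only [decide_eq_false_iff_not]
  rintro ⟨i, h, -⟩
  omega

theorem bb_1 (i : ℕ) : bb Fc (4 * (i + 2)) = true ↔ Fc i false := by
  unfold bb
  simp only [decide_eq_true_eq]
  constructor
  · rintro ⟨i', h, h'⟩
    rw [show i = i' by omega]; exact h'
  · intro h
    exact ⟨i, rfl, h⟩

theorem Lb_isLab {n : ℕ} (h : Lb Fc n) : isLab n = true := by
  rcases h with ⟨i, rfl⟩ | ⟨i, t, -, rfl⟩ <;> exact isLab_letter _

variable (hF : ∀ i, Fc i true → Fc i false → False)

include hF in
theorem bb_ne {i : ℕ} {t : Bool} (h : Fc i t) : t ≠ bb Fc (4 * (i + 2)) := by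
  cases t
  · rw [(bb_1 Fc i).2 h]; simp
  · intro h'
    exact hF i h ((bb_1 Fc i).1 h'.symm)

theorem mk_pos (c : ℕ → Bool) (i : ℕ)
    (h : c (4 * (i + 2)) = false ∨ c (4 * (i + 2) + 2) = false) :
    0 < pv (gs c) (Dy (lab (letter (mk i)))) := by
  rw [lab_letter, Dy_mk, pv_Dm]
  have h1 := T_low c true (4 * (i + 2))
  have h2 := T_low c true (4 * (i + 2) + 2)
  rcases h with h | h
  · have := T_big c true (4 * (i + 2)) (by rw [h]; simp)
    linarith
  · have := T_big c true (4 * (i + 2) + 2) (by rw [h]; simp)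
    linarith

theorem frc_pos (c : ℕ → Bool) (i : ℕ) (t : Bool) (h : t ≠ c (4 * (i + 2))) :
    0 < pv (gs c) (Dy (lab (letter (frc i t)))) := by
  rw [lab_letter, Dy_frc, pv_Df]
  have := T_big c t _ h
  linarith

theorem frc_neg (c : ℕ → Bool) (i : ℕ) (t : Bool) (h : t = c (4 * (i + 2))) :
    pv (gs c) (Dy (lab (letter (frc i t)))) < 0 := by
  rw [lab_letter, Dy_frc, pv_Df]
  exact T_neg c t _ h

include hF in
theorem Lb_pos {n : ℕ} (h : Lb Fc n) : 0 < pv (gs (bb Fc)) (Dy (lab n)) := by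
  rcases h with ⟨i, rfl⟩ | ⟨i, t, ht, rfl⟩
  · exact mk_pos _ i (Or.inr (bb_2 Fc _))
  · exact frc_pos _ i t (bb_ne Fc hF ht)

include hF in
/-- labels in use are positive after a change of signs at index `i`, with two exceptions -/
theorem Lb_upd_pos (i : ℕ) (u v : Bool) {n : ℕ} (h : Lb Fc n)
    (h1 : n = letter (mk i) → u = false ∨ v = false) (h2 : n ≠ letter (frc i u)) :
    0 < pv (gs (upd Fc i u v)) (Dy (lab n)) := by
  rcases h with ⟨k, rfl⟩ | ⟨k, t, ht, rfl⟩
  · apply mk_pos
    by_cases hk : k = i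
    · subst hk
      rw [upd_1, upd_2]
      exact h1 rfl
    · right
      unfold upd
      rw [if_neg (by omega), if_neg (by omega), bb_2]
  · apply frc_pos
    by_cases hk : k = i
    · subst hk
      rw [upd_1]
      rintro rfl
      exact h2 rfl
    · unfold upd
      rw [if_neg (by omega), if_neg (by omega)]
      exact bb_ne Fc hF ht

theorem prod_neg_of (S : Finset ℕ) (f : ℕ → ℝ) (n0 : ℕ) (h0 : n0 ∈ S) (hneg : f n0 < 0)
    (hpos : ∀ n ∈ S, n ≠ n0 → 0 < f n) : ∏ n ∈ S, f n < 0 := by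
  rw [← Finset.mul_prod_erase S _ h0]
  apply mul_neg_of_neg_of_pos hneg
  apply Finset.prod_pos
  intro n hn
  rw [Finset.mem_erase] at hn
  exact hpos n hn.2 hn.1

theorem yy_static {n : ℕ} (hn : isLab n = false) : yy Fc n = gs (bb Fc) n := by
  unfold yy; rw [hn]; rfl

theorem yy_lab {n : ℕ} (hn : isLab n = true) :
    yy Fc n = Real.sqrt (pv (gs (bb Fc)) (Dy (lab n))) := by
  unfold yy; rw [hn]; rfl

include hF in
theorem yy_sq {n : ℕ} (h : Lb Fc n) : yy Fc n ^ 2 = pv (gs (bb Fc)) (Dy (lab n)) := by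
  rw [yy_lab Fc (Lb_isLab Fc h), Real.sq_sqrt (Lb_pos Fc hF h).le]

theorem gs_sq (b : ℕ → Bool) (n : ℕ) : gs b n ^ 2 = (hh n : ℝ) ^ 2 + 1 := by
  unfold gs
  rw [mul_pow, Real.sq_sqrt (by positivity)]
  cases b n <;> simp [sgn]

theorem pv_mem_K0 (b : ℕ → Bool) (p : Pol) (hp : ∀ n ∈ letters p, isLab n = false) :
    pv (gs b) p ∈ K0 := g_sq_mem K0 (gs b) p (fun i hi => gs_mem b i (hp i hi))

theorem yy_sq_mem (n : ℕ) : yy Fc n ^ 2 ∈ K0 := by
  cases hn : isLab n
  · rw [yy_static Fc hn]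
    exact pow_mem (gs_mem _ n hn) 2
  · rw [yy_lab Fc hn]
    by_cases h : 0 ≤ pv (gs (bb Fc)) (Dy (lab n))
    · rw [Real.sq_sqrt h]
      exact pv_mem_K0 _ _ (letters_Dy _)
    · rw [Real.sqrt_eq_zero_of_nonpos (not_le.1 h).le]
      simp

theorem letter_inj {x x' : List Bool} (h : letter x = letter x') : x = x' := by
  rw [← lab_letter x, h, lab_letter]

include hF in
theorem label_prod (S : Finset ℕ) (hS : (S : Set ℕ) ⊆ {n | Lb Fc n}) (hne : S.Nonempty) :
    ∏ n ∈ S, yy Fc n ∉ K0 := by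
  intro hv
  have hsq : (∏ n ∈ S, yy Fc n) ^ 2 =
      pv (gs (bb Fc)) [(1, [])] * ∏ n ∈ S, pv (gs (bb Fc)) (Dy (lab n)) := by
    rw [← Finset.prod_pow, Finset.prod_congr rfl (fun n hn => yy_sq Fc hF (hS hn))]
    simp [pv, wv]
  have key : ∀ c : ℕ → Bool, ¬ ∏ n ∈ S, pv (gs c) (Dy (lab n)) < 0 := by
    intro c hc
    have := nonneg_of_sq (bb Fc) c [(1, [])] (by simp [letters]) S _ hv hsq
    have h1 : pv (gs c) [(1, [])] = 1 := by simp [pv, wv]
    rw [h1, one_mul] at this
    linarith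
  by_cases hf : ∃ i t, letter (frc i t) ∈ S
  · obtain ⟨i, t, hi⟩ := hf
    apply key (upd Fc i t false)
    apply prod_neg_of S _ _ hi
    · exact frc_neg _ i t (upd_1 Fc i t false).symm
    · intro n hn hne
      exact Lb_upd_pos Fc hF i t false (hS hn) (fun _ => Or.inr rfl) hne
  · obtain ⟨n0, hn0⟩ := hne
    rcases hS hn0 with ⟨i, rfl⟩ | ⟨i, t, -, rfl⟩
    · apply key (upd Fc i true true)
      apply prod_neg_of S _ _ hn0
      · rw [lab_letter, Dy_mk, pv_Dm]
        have h1 := T_neg (upd Fc i true true) true _ (upd_1 Fc i true true).symm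
        have h2 := T_neg (upd Fc i true true) true _ (upd_2 Fc i true true).symm
        linarith
      · intro n hn hne
        refine Lb_upd_pos Fc hF i true true (hS hn) (fun h => absurd h hne) ?_
        rintro rfl
        exact hf ⟨i, true, hn⟩
    · exact absurd ⟨i, t, hn0⟩ hf

theorem closure_le (J : Set ℕ) :
    Subfield.closure (yy Fc '' {m | II Fc m ∧ m ∈ J}) ≤
      Subfield.closure ((K0 : Set ℝ) ∪ yy Fc '' ({n | Lb Fc n} ∩ J)) := by
  rw [Subfield.closure_le]
  rintro _ ⟨m, ⟨hm | hm, hmJ⟩, rfl⟩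
  · apply Subfield.subset_closure
    left
    rw [yy_static Fc hm]
    exact gs_mem _ m hm
  · exact Subfield.subset_closure (Or.inr ⟨m, ⟨hm, hmJ⟩, rfl⟩)

theorem pv_yy (p : Pol) (hp : ∀ n ∈ letters p, isLab n = false) :
    pv (yy Fc) p = pv (gs (bb Fc)) p :=
  g_sq_pv _ _ p (fun i hi => yy_static Fc (hp i hi))

include hF in
theorem model_yy : Model tab (II Fc) (yy Fc) := by
  refine ⟨?_, fun n hn => Or.inl hn, ?_, ?_⟩
  · rintro n (hn | hn)
    · rw [yy_static Fc hn, gs_sq]
      simp only [tab, DD, hn, cond_false]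
      simp [pv, wv]; ring
    · rw [yy_sq Fc hF hn]
      simp only [tab, DD, Lb_isLab Fc hn, cond_true]
      exact (pv_yy Fc _ (letters_Dy _)).symm
  · rintro n (hn | hn) hlab hmem
    · rw [hn] at hlab; exact absurd hlab (by simp)
    · have hk := (kummer K0 (yy Fc) (yy_sq_mem Fc) {n | Lb Fc n}
        (fun S hS hne => label_prod Fc hF S hS hne)).1 n hn
      exact hk (closure_le Fc {m | m ≠ n} hmem)
  · intro n hn
    have h := (model_stat (bb Fc)).indS n hn
    rw [yy_static Fc hn]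
    have himg : yy Fc '' {m | isLab m = false ∧ m ≠ n} =
        gs (bb Fc) '' {m | isLab m = false ∧ m ≠ n} :=
      Set.image_congr fun m hm => yy_static Fc hm.1
    rw [himg]
    exact h

include hF in
/-- the conjugates of the marker with the wrong sign of the first root are not squares -/
theorem marker_rigid (i : ℕ) (s' : Bool) (u : ℝ) (hu : u ∈ FF Fc) :
    u ^ 2 ≠ pv (gs (bb Fc)) (Dm (i + 2) false s') := by
  intro h
  have hu' : u ∈ Subfield.closure ((K0 : Set ℝ) ∪ yy Fc '' {n | Lb Fc n}) := by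
    have h1 := closure_le Fc Set.univ
    rw [Set.inter_univ] at h1
    apply h1
    simpa [FF] using hu
  obtain ⟨S, hS, v, hv, huv⟩ := (kummer K0 (yy Fc) (yy_sq_mem Fc) {n | Lb Fc n}
    (fun S hS hne => label_prod Fc hF S hS hne)).2 u hu'
    (by rw [h]; exact pv_mem_K0 _ _ (letters_Dm _ _ _))
  have hP : (∏ n ∈ S, yy Fc n) ^ 2 = ∏ n ∈ S, pv (gs (bb Fc)) (Dy (lab n)) := by
    rw [← Finset.prod_pow, Finset.prod_congr rfl (fun n hn => yy_sq Fc hF (hS hn))]
  have hr : v * ∏ n ∈ S, pv (gs (bb Fc)) (Dy (lab n)) ∈ K0 :=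
    mul_mem hv (prod_mem fun n _ => pv_mem_K0 _ _ (letters_Dy _))
  have key := fun c => nonneg_of_sq (bb Fc) c (Dm (i + 2) false s') (letters_Dm _ _ _) S _ hr
    (by rw [← h, huv, ← hP]; ring)
  by_cases hf : letter (frc i false) ∈ S
  · have h1 := key (upd Fc i false (!s'))
    have h2 : ∏ n ∈ S, pv (gs (upd Fc i false (!s'))) (Dy (lab n)) < 0 := by
      apply prod_neg_of S _ _ hf
      · exact frc_neg _ i false (upd_1 Fc i false _).symm
      · intro n hn hne
        exact Lb_upd_pos Fc hF i false _ (hS hn) (fun _ => Or.inl rfl) hne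
    have h3 : 0 < pv (gs (upd Fc i false (!s'))) (Dm (i + 2) false s') := by
      rw [pv_Dm]
      have h4 := T_low (upd Fc i false (!s')) false (4 * (i + 2))
      have h5 := T_big (upd Fc i false (!s')) s' (4 * (i + 2) + 2) (by rw [upd_2]; cases s' <;> simp)
      linarith
    nlinarith
  · have h1 := key (upd Fc i false s')
    have h2 : 0 < ∏ n ∈ S, pv (gs (upd Fc i false s')) (Dy (lab n)) := by
      apply Finset.prod_pos
      intro n hn
      refine Lb_upd_pos Fc hF i false _ (hS hn) (fun _ => Or.inl rfl) ?_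
      rintro rfl
      exact hf hn
    have h3 : pv (gs (upd Fc i false s')) (Dm (i + 2) false s') < 0 := by
      rw [pv_Dm]
      have h4 := T_neg (upd Fc i false s') false _ (upd_1 Fc i false s').symm
      have h5 := T_neg (upd Fc i false s') s' _ (upd_2 Fc i false s').symm
      linarith
    nlinarith

theorem yy_mem {n : ℕ} (h : II Fc n) : yy Fc n ∈ FF Fc := Subfield.subset_closure ⟨n, h, rfl⟩

end field

end Pool.Agent.H43Z.FR
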