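import Pool.Agent.H43Z.FRA
import Pool.Agent.Helper566.FD.J19

/-! The field has a computable presentation. -/

set_option autoImplicit false

namespace Pool.Agent.H43Z.FR

open Pool.Agent.Helper566.FD (Pol wv pv LettersIn hh letter lab isLab sg sgn gs mulP negP powP letters
  pv_append pv_negP pv_mulP pv_powP comp_poly comp_basic K0 lab_letter isLab_letter letter_lab)
open Pool.Agent.Helper566.FD.J19 (filtE comp_filtE pv_cons' Nn cN addN mulN negN invN eqN comp_addN
  comp_mulN comp_negN comp_invN comp_eqN cN_add cN_mul cN_neg cN_inv eqN_iff y_mem cN_mem)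
open Pool.Agent.Helper223 (exists_field_numbering)

/-- values of the coded letters -/
noncomputable def yE (y : ℕ → ℝ) (act : ℕ → Bool) (i : ℕ) : ℝ :=
  if act i = true then y i.unpair.2 else 0

theorem wv_yE (y : ℕ → ℝ) (act : ℕ → Bool) (w : List ℕ) : wv (yE y act) w =
    if w.all act = true then wv y (w.map (fun i => i.unpair.2)) else 0 := by
  induction w with
  | nil => simp [wv]
  | cons a w ih =>
    have h1 : wv (yE y act) (a :: w) = yE y act a * wv (yE y act) w := by simp [wv]
    rw [h1, ih]
    unfold yE
    by_cases ha : act a = true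
    · by_cases hw : w.all act = true
      · rw [if_pos ha, if_pos hw, if_pos (by rw [List.all_cons, ha, hw]; rfl)]
        simp [wv]
      · rw [if_neg hw, mul_zero, if_neg]
        rw [List.all_cons, ha, Bool.true_and]
        exact hw
    · rw [if_neg ha, zero_mul, if_neg]
      rw [List.all_cons, Bool.and_eq_true]
      exact fun h => ha h.1

theorem pv_filtE (y : ℕ → ℝ) (act : ℕ → Bool) (p : Pol) :
    pv y (filtE act p) = pv (yE y act) p := by
  have key : ∀ (p s : Pol), pv y (p.foldl (fun s m => cond (m.2.all act)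
      (s ++ [(m.1, m.2.map (fun i => i.unpair.2))]) s) s) = pv y s + pv (yE y act) p := by
    intro p
    induction p with
    | nil => intro s; simp [pv]
    | cons m p ih =>
      intro s
      rw [List.foldl_cons, ih, pv_cons', wv_yE]
      by_cases hm : m.2.all act = true
      · rw [hm, cond_true, if_pos rfl, pv_append]
        have : pv y [(m.1, m.2.map (fun i => i.unpair.2))] =
            (m.1 : ℝ) * wv y (m.2.map (fun i => i.unpair.2)) := by simp [pv]
        rw [this]
        ring
      · have hm' := hm
        rw [Bool.not_eq_true] at hm'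
        rw [hm', cond_false, if_neg (by simp)]
        ring
  unfold filtE
  rw [key]
  simp [pv]

theorem letters_filtE (I : ℕ → Prop) (act : ℕ → Bool) (h : ∀ i, act i = true → I i.unpair.2)
    (p : Pol) : LettersIn I (filtE act p) := by
  have key : ∀ (p s : Pol), LettersIn I s → LettersIn I (p.foldl (fun s m => cond (m.2.all act)
      (s ++ [(m.1, m.2.map (fun i => i.unpair.2))]) s) s) := by
    intro p
    induction p with
    | nil => intro s hs; exact hs
    | cons m p ih =>
      intro s hs
      rw [List.foldl_cons]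
      apply ih
      cases hm : m.2.all act
      · exact hs
      · intro m' hm' n hn
        simp only [cond_true, List.mem_append, List.mem_singleton] at hm'
        rcases hm' with hm' | rfl
        · exact hs m' hm' n hn
        · simp only [List.mem_map] at hn
          obtain ⟨i, hi, rfl⟩ := hn
          exact h i (List.all_eq_true.1 hm i hi)
  exact key p [] (fun m hm => absurd hm List.not_mem_nil)

theorem prim_rep : Primrec (fun i : ℕ => List.replicate i false) := by
  have h : Primrec (fun i : ℕ => (List.range i).map (fun _ => false)) :=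
    Primrec.list_map Primrec.list_range (g := fun _ _ => false) (Primrec.const _)
  refine h.of_eq fun i => ?_
  simp

theorem prim_mk : Primrec mk :=
  Primrec.list_cons.comp (Primrec.const _) (Primrec.list_cons.comp (Primrec.const _) prim_rep)

theorem prim_frc : Primrec₂ frc :=
  Primrec.list_cons.comp (Primrec.const _)
    (Primrec.list_cons.comp Primrec.snd (prim_rep.comp Primrec.fst))

/-- labels in use at a stage -/
def EE (E : ℕ → ℕ × Bool → Bool) (s : ℕ) (x : List Bool) : Bool :=
  decide (x = mk (x.length - 2)) ||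
    (decide (x = frc (x.length - 2) (x.getD 1 false)) && E s (x.length - 2, x.getD 1 false))

theorem comp_EE {E : ℕ → ℕ × Bool → Bool} (hE : Computable₂ E) : Computable₂ (EE E) := by
  have h1 : Primrec (fun q : ℕ × List Bool => q.2.length - 2) :=
    Primrec.nat_sub.comp (Primrec.list_length.comp Primrec.snd) (Primrec.const 2)
  have h2 : Primrec (fun q : ℕ × List Bool => q.2.getD 1 false) :=
    (Primrec.list_getD false).comp Primrec.snd (Primrec.const 1)
  have h3 : Primrec (fun q : ℕ × List Bool => decide (q.2 = mk (q.2.length - 2))) :=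
    (Primrec.eq (α := List Bool)).decide.comp Primrec.snd (prim_mk.comp h1)
  have h4 : Primrec (fun q : ℕ × List Bool =>
      decide (q.2 = frc (q.2.length - 2) (q.2.getD 1 false))) :=
    (Primrec.eq (α := List Bool)).decide.comp Primrec.snd (prim_frc.comp h1 h2)
  have h5 : Computable (fun q : ℕ × List Bool => E q.1 (q.2.length - 2, q.2.getD 1 false)) :=
    hE.comp Computable.fst (h1.pair h2).to_comp
  exact Primrec.or.to_comp.comp h3.to_comp (Primrec.and.to_comp.comp h4.to_comp h5)

theorem exists_copy (E : ℕ → ℕ × Bool → Bool) (hE : Computable₂ E) (Fc : ℕ → Bool → Prop)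
    (hFE : ∀ i t, Fc i t ↔ ∃ s, E s (i, t) = true) (hF : ∀ i, Fc i true → Fc i false → False) :
    ∃ e : ℕ ≃ FF Fc,
      Computable₂ (fun a b : ℕ => e.symm (e a + e b)) ∧
      Computable₂ (fun a b : ℕ => e.symm (e a * e b)) ∧
      Computable (fun a : ℕ => e.symm (-(e a))) ∧
      Computable (fun a : ℕ => e.symm ((e a)⁻¹)) := by
  obtain ⟨act, hact⟩ : ∃ act : ℕ → Bool, act = fun i => (!isLab i.unpair.2) ||
    EE E i.unpair.1 (lab i.unpair.2) := ⟨_, rfl⟩
  have hu1 : Computable (fun n : ℕ => n.unpair.1) := (Primrec.fst.comp Primrec.unpair).to_comp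
  have hu2 : Computable (fun n : ℕ => n.unpair.2) := (Primrec.snd.comp Primrec.unpair).to_comp
  have hactc : Computable act := by
    rw [hact]
    exact (Primrec.or.to_comp).comp ((Primrec.not.to_comp).comp (comp_basic.2.2.2.1.comp hu2))
      ((comp_EE hE).comp hu1 (comp_basic.2.2.1.comp hu2))
  have hact1 : ∀ i, act i = true → II Fc i.unpair.2 := by
    intro i hi
    rw [hact] at hi
    cases hl : isLab i.unpair.2
    · exact Or.inl hl
    · right
      simp only [hl, Bool.not_true, Bool.false_or, EE, Bool.or_eq_true, Bool.and_eq_true,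
        decide_eq_true_eq] at hi
      rcases hi with hi | ⟨hi, hi'⟩
      · exact Or.inl ⟨_, by rw [← hi, letter_lab _ hl]⟩
      · exact Or.inr ⟨_, _, (hFE _ _).2 ⟨_, hi'⟩, by rw [← hi, letter_lab _ hl]⟩
  have hact2 : ∀ n, II Fc n → ∃ s, act (Nat.pair s n) = true := by
    rintro n (hn | ⟨i, rfl⟩ | ⟨i, t, ht, rfl⟩)
    · exact ⟨0, by simp [hact, hn]⟩
    · exact ⟨0, by simp [hact, lab_letter, EE, mk]⟩
    · obtain ⟨s, hs⟩ := (hFE i t).1 ht
      exact ⟨s, by simp [hact, lab_letter, EE, frc, hs]⟩
  have hZ : Computable (fun p => zt tab (filtE act p)) := (comp_zt tab).comp (comp_filtE hactc)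
  have hzt : ∀ p, zt tab (filtE act p) = true ↔ pv (yE (yy Fc) act) p = 0 := by
    intro p
    rw [← pv_filtE (yy Fc) act p]
    exact zt_iff tab (II Fc) (yy Fc) (model_yy Fc hF) (filtE act p) (letters_filtE _ act hact1 p)
  have hyK : ∀ i, yE (yy Fc) act i ∈ FF Fc := by
    intro i
    unfold yE
    split_ifs with h
    · exact yy_mem Fc (hact1 i h)
    · exact zero_mem _
  have hle : FF Fc ≤ Pool.Agent.Helper566.FD.J19.FF (fun p => zt tab (filtE act p))
      (yE (yy Fc) act) hzt := by
    unfold FF
    rw [Subfield.closure_le]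
    rintro _ ⟨n, hn, rfl⟩
    obtain ⟨s, hs⟩ := hact2 n hn
    have h1 : yE (yy Fc) act (Nat.pair s n) = yy Fc n := by
      unfold yE
      rw [if_pos hs, Nat.unpair_pair]
    rw [← h1]
    exact y_mem _ _ hzt _
  let c : Nn → FF Fc := fun a => ⟨cN (yE (yy Fc) act) a, cN_mem _ _ hyK a⟩
  haveI : Infinite (FF Fc) := Infinite.of_injective (fun n : ℕ => (n : FF Fc)) Nat.cast_injective
  obtain ⟨e, u, v, hu, hv, h1, h2, h3, h4, h5, h6⟩ := exists_field_numbering (F := FF Fc) c
    (fun ⟨x, hx⟩ => by
      obtain ⟨a, ha⟩ := hle hx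
      exact ⟨a, Subtype.ext ha⟩)
    (addN (fun p => zt tab (filtE act p))) mulN negN invN (comp_addN _ hZ) comp_mulN
    comp_negN comp_invN
    (fun a b => Subtype.ext (cN_add _ _ hzt a b)) (fun a b => Subtype.ext (cN_mul _ a b))
    (fun a => Subtype.ext (cN_neg _ a)) (fun a => Subtype.ext (cN_inv _ a))
    (eqN (fun p => zt tab (filtE act p))) (comp_eqN _ hZ)
    (fun a b => (eqN_iff _ _ hzt a b).trans
      ⟨fun h => Subtype.ext h, fun h => congrArg Subtype.val h⟩)
  exact ⟨e, h3, h4, h5, h6⟩

end Pool.Agent.H43Z.FR
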