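import Pool.Agent.H43Z.FRC

/-! No computable copy of the field has a computable ordering. -/

set_option autoImplicit false

namespace Pool.Agent.H43Z.FR

open Pool.Agent.Helper566.FD (Pol wv pv LettersIn hh letter lab isLab sg sgn gs
  comp_basic lab_letter isLab_letter letter_lab)
open Pool.Agent.Helper566.FD.J5 (isLab_false_of_mod)
open Pool.Agent.Helper223 (comp_find comp_dec_eq comp_unpair1 comp_unpair2)
open Nat.Partrec (Code)
open Nat.Partrec.Code

/-- program `i` on input `i` gives the value coded by `t` within `s` steps -/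
def E0 (s : ℕ) (q : ℕ × Bool) : Bool :=
  decide (evaln s (Denumerable.ofNat Code q.1) q.1 = some (cond q.2 0 1))

theorem comp_E0 : Computable₂ E0 := by
  have h1 : Primrec (fun x : ℕ × (ℕ × Bool) =>
      evaln x.1 (Denumerable.ofNat Code x.2.1) x.2.1) :=
    primrec_evaln.comp (Primrec.pair (Primrec.pair Primrec.fst
      ((Primrec.ofNat Code).comp (Primrec.fst.comp Primrec.snd))) (Primrec.fst.comp Primrec.snd))
  have h2 : Primrec (fun x : ℕ × (ℕ × Bool) => (some (cond x.2.2 0 1) : Option ℕ)) :=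
    Primrec.option_some.comp (Primrec.cond (Primrec.snd.comp Primrec.snd) (Primrec.const 0)
      (Primrec.const 1))
  exact ((Primrec.eq (α := Option ℕ)).decide.comp h1 h2).to_comp

/-- the forced signs -/
def F0 (i : ℕ) (t : Bool) : Prop := ∃ s, E0 s (i, t) = true

theorem F0_iff (i : ℕ) (t : Bool) :
    F0 i t ↔ (cond t 0 1 : ℕ) ∈ (Denumerable.ofNat Code i).eval i := by
  rw [evaln_complete]
  simp only [F0, E0, decide_eq_true_eq, Option.mem_def]

theorem F0_disj (i : ℕ) (h1 : F0 i true) (h2 : F0 i false) : False := by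
  rw [F0_iff] at h1 h2
  exact absurd (Part.mem_unique h1 h2) (by simp)

/-- the field -/
noncomputable abbrev F : Subfield ℝ := FF F0

theorem stat4 (j : ℕ) : isLab (4 * j) = false := isLab_false_of_mod _ (by omega)
theorem stat42 (j : ℕ) : isLab (4 * j + 2) = false := isLab_false_of_mod _ (by omega)

/-- the rigid root -/
noncomputable def rt (i : ℕ) : F := ⟨yy F0 (4 * (i + 2)), yy_mem F0 (Or.inl (stat4 _))⟩

/-- the auxiliary root -/
noncomputable def rt' (i : ℕ) : F := ⟨yy F0 (4 * (i + 2) + 2), yy_mem F0 (Or.inl (stat42 _))⟩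

theorem rt_val (i : ℕ) : (rt i : ℝ) = gs (bb F0) (4 * (i + 2)) := yy_static F0 (stat4 _)
theorem rt'_val (i : ℕ) : (rt' i : ℝ) = gs (bb F0) (4 * (i + 2) + 2) := yy_static F0 (stat42 _)

theorem rt_sq (i : ℕ) : rt i * rt i = ((hh (4 * (i + 2)) * hh (4 * (i + 2)) + 1 : ℕ) : F) := by
  apply Subtype.ext
  have := gs_sq (bb F0) (4 * (i + 2))
  push_cast
  rw [rt_val]; linarith

theorem rt'_sq (i : ℕ) :
    rt' i * rt' i = ((hh (4 * (i + 2) + 2) * hh (4 * (i + 2) + 2) + 1 : ℕ) : F) := by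
  apply Subtype.ext
  have := gs_sq (bb F0) (4 * (i + 2) + 2)
  push_cast
  rw [rt'_val]; linarith

theorem marker_ex (i : ℕ) : ∃ w : F,
    w * w = ((hh (4 * (i + 2)) + hh (4 * (i + 2) + 2) : ℕ) : F) + rt i + rt' i := by
  have hL : Lb F0 (letter (mk i)) := Or.inl ⟨i, rfl⟩
  refine ⟨⟨yy F0 (letter (mk i)), yy_mem F0 (Or.inr hL)⟩, Subtype.ext ?_⟩
  have := yy_sq F0 F0_disj hL
  rw [lab_letter, Dy_mk, pv_Dm] at this
  push_cast
  rw [rt_val, rt'_val]
  simp only [T, sg, if_true] at this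
  push_cast at this
  linarith

theorem marker_uniq (i : ℕ) (a a' w : F)
    (ha : a * a = ((hh (4 * (i + 2)) * hh (4 * (i + 2)) + 1 : ℕ) : F))
    (ha' : a' * a' = ((hh (4 * (i + 2) + 2) * hh (4 * (i + 2) + 2) + 1 : ℕ) : F))
    (hw : w * w = ((hh (4 * (i + 2)) + hh (4 * (i + 2) + 2) : ℕ) : F) + a + a') : a = rt i := by
  rw [← rt_sq, mul_self_eq_mul_self_iff] at ha
  rw [← rt'_sq, mul_self_eq_mul_self_iff] at ha'
  rcases ha with ha | ha
  · exact ha
  · exfalso
    have h1 := congrArg Subtype.val hw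
    rcases ha' with ha' | ha'
    · apply marker_rigid F0 F0_disj i true w w.2
      rw [pv_Dm]
      rw [ha, ha'] at h1
      push_cast at h1
      rw [rt_val, rt'_val] at h1
      simp [T, sg]
      linarith
    · apply marker_rigid F0 F0_disj i false w w.2
      rw [pv_Dm]
      rw [ha, ha'] at h1
      push_cast at h1
      rw [rt_val, rt'_val] at h1
      simp [T, sg]
      linarith

theorem forced (i : ℕ) (t : Bool) (h : F0 i t) : ∃ u : F, u ≠ 0 ∧
    u * u = (hh (4 * (i + 2)) : F) + cond t (rt i) (-rt i) := by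
  have hL : Lb F0 (letter (frc i t)) := Or.inr ⟨i, t, h, rfl⟩
  have h1 := yy_sq F0 F0_disj hL
  have h2 := Lb_pos F0 F0_disj hL
  refine ⟨⟨yy F0 (letter (frc i t)), yy_mem F0 (Or.inr hL)⟩, ?_, Subtype.ext ?_⟩
  · intro h0
    have h3 : yy F0 (letter (frc i t)) = 0 := congrArg Subtype.val h0
    rw [← h1, h3] at h2
    simp at h2
  · rw [lab_letter, Dy_frc, pv_Df] at h1
    cases t
    · simp only [cond_false]
      push_cast
      rw [rt_val]
      simp [T, sg] at h1
      linarith
    · simp only [cond_true]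
      push_cast
      rw [rt_val]
      simp [T, sg] at h1
      linarith

section cone

variable {K : Type} [Field K] (P : Set K) (h0 : (0 : K) ∉ P)
  (hadd : ∀ x y : K, x ∈ P → y ∈ P → x + y ∈ P) (hmul : ∀ x y : K, x ∈ P → y ∈ P → x * y ∈ P)
  (htot : ∀ x : K, x ≠ 0 → x ∈ P ∨ -x ∈ P)

include hmul htot in
theorem cone_sq (u : K) (hu : u ≠ 0) : u * u ∈ P := by
  rcases htot u hu with h | h
  · exact hmul _ _ h h
  · simpa using hmul _ _ h h

include hadd hmul htot in
theorem cone_nat (n : ℕ) : ((n + 1 : ℕ) : K) ∈ P := by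
  have h1 : (1 : K) ∈ P := by simpa using cone_sq P hmul htot 1 one_ne_zero
  induction n with
  | zero => simpa using h1
  | succ n ih =>
    have := hadd _ _ ih h1
    rwa [← Nat.cast_succ] at this

include h0 hadd hmul htot in
theorem cone_key (h : ℕ) (hh0 : h ≠ 0) (s u : K) (hs : s * s = ((h * h + 1 : ℕ) : K)) (hu : u ≠ 0)
    (hus : u * u = (h : K) + s) : -s ∉ P := by
  intro hneg
  obtain ⟨k, rfl⟩ := Nat.exists_eq_succ_of_ne_zero hh0
  have h1 := cone_sq P hmul htot u hu
  have h2 := hadd _ _ (cone_nat P hadd hmul htot k) hneg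
  have h3 := hmul _ _ h1 h2
  have h4 := hadd _ _ h3 (cone_nat P hadd hmul htot 0)
  apply h0
  convert h4 using 1
  rw [hus]
  push_cast at hs ⊢
  linear_combination hs

end cone

theorem hh_ne (n : ℕ) : hh n ≠ 0 := by unfold hh; positivity

/-- no presentation of `F` on a computable set of numbers has a computable positive cone -/
theorem no_order (ν : F → ℕ) (hν : Function.Injective ν) (U : ℕ → Bool) (hU : Computable U)
    (hUν : ∀ n, U n = true ↔ ∃ x, ν x = n) (A M : ℕ → ℕ → ℕ) (hA : Computable₂ A)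
    (hM : Computable₂ M) (hAν : ∀ x y, A (ν x) (ν y) = ν (x + y))
    (hMν : ∀ x y, M (ν x) (ν y) = ν (x * y)) (P : Set F) (Pb : ℕ → Bool) (hPb : Computable Pb)
    (hPν : ∀ x, Pb (ν x) = true ↔ x ∈ P) (h0 : (0 : F) ∉ P)
    (hadd : ∀ x y : F, x ∈ P → y ∈ P → x + y ∈ P) (hmul : ∀ x y : F, x ∈ P → y ∈ P → x * y ∈ P)
    (htot : ∀ x : F, x ≠ 0 → x ∈ P ∨ -x ∈ P) : False := by
  have hnum : Computable (fun n : ℕ => ν (n : F)) := by
    have c := Computable.nat_rec (f := fun n : ℕ => n) (g := fun _ : ℕ => ν 0)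
      (h := fun (_ : ℕ) (p : ℕ × ℕ) => A p.2 (ν 1)) Computable.id (Computable.const _)
      ((hA.comp (Computable.snd.comp Computable.snd) (Computable.const (ν 1))).to₂)
    refine c.of_eq fun n => ?_
    induction n with
    | zero => simp
    | succ n ih =>
      simp only at ih ⊢
      rw [ih, hAν]
      push_cast
      rfl
  have hhc : Computable hh := comp_basic.1
  have c1 : Computable (fun q : ℕ × ℕ => hh (4 * (q.1 + 2))) :=
    hhc.comp (Primrec.nat_mul.comp (Primrec.const 4)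
      (Primrec.nat_add.comp Primrec.fst (Primrec.const 2))).to_comp
  have c2 : Computable (fun q : ℕ × ℕ => hh (4 * (q.1 + 2) + 2)) :=
    hhc.comp (Primrec.nat_add.comp (Primrec.nat_mul.comp (Primrec.const 4)
      (Primrec.nat_add.comp Primrec.fst (Primrec.const 2))) (Primrec.const 2)).to_comp
  have ca : Computable (fun q : ℕ × ℕ => q.2.unpair.1) := comp_unpair1.comp Computable.snd
  have ca' : Computable (fun q : ℕ × ℕ => q.2.unpair.2.unpair.1) :=
    comp_unpair1.comp (comp_unpair2.comp Computable.snd)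
  have cw : Computable (fun q : ℕ × ℕ => q.2.unpair.2.unpair.2) :=
    comp_unpair2.comp (comp_unpair2.comp Computable.snd)
  have cadd : Computable₂ (fun a b : ℕ => a + b) := Primrec.nat_add.to_comp
  have cmul : Computable₂ (fun a b : ℕ => a * b) := Primrec.nat_mul.to_comp
  have cand : Computable₂ (fun a b : Bool => a && b) := Primrec.and.to_comp
  let Q : ℕ → ℕ → Bool := fun i k =>
    (U k.unpair.1 && (U k.unpair.2.unpair.1 && U k.unpair.2.unpair.2)) &&
    (decide (M k.unpair.1 k.unpair.1 = ν ((hh (4 * (i + 2)) * hh (4 * (i + 2)) + 1 : ℕ) : F)) &&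
    (decide (M k.unpair.2.unpair.1 k.unpair.2.unpair.1 =
      ν ((hh (4 * (i + 2) + 2) * hh (4 * (i + 2) + 2) + 1 : ℕ) : F)) &&
    decide (M k.unpair.2.unpair.2 k.unpair.2.unpair.2 =
      A (A (ν ((hh (4 * (i + 2)) + hh (4 * (i + 2) + 2) : ℕ) : F)) k.unpair.1)
        k.unpair.2.unpair.1)))
  have hQ : Computable₂ Q := by
    refine cand.comp (cand.comp (hU.comp ca) (cand.comp (hU.comp ca') (hU.comp cw)))
      (cand.comp ?_ (cand.comp ?_ ?_))
    · exact comp_dec_eq (hM.comp ca ca)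
        (hnum.comp (cadd.comp (cmul.comp c1 c1) (Computable.const 1)))
    · exact comp_dec_eq (hM.comp ca' ca')
        (hnum.comp (cadd.comp (cmul.comp c2 c2) (Computable.const 1)))
    · exact comp_dec_eq (hM.comp cw cw)
        (hA.comp (hA.comp (hnum.comp (cadd.comp c1 c2)) ca) ca')
  have hex : ∀ i, ∃ k, Q i k = true := by
    intro i
    obtain ⟨w, hw⟩ := marker_ex i
    refine ⟨Nat.pair (ν (rt i)) (Nat.pair (ν (rt' i)) (ν w)), ?_⟩
    simp only [Q, Nat.unpair_pair, Bool.and_eq_true, decide_eq_true_eq, hUν, hAν, hMν, rt_sq,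
      rt'_sq, hw, exists_apply_eq_apply, and_self]
  have hfind : ∀ i k, Q i k = true → k.unpair.1 = ν (rt i) := by
    intro i k hk
    simp only [Q, Bool.and_eq_true, decide_eq_true_eq, hUν] at hk
    obtain ⟨⟨⟨a, ha⟩, ⟨a', ha'⟩, ⟨w, hw⟩⟩, h1, h2, h3⟩ := hk
    rw [← ha, hMν] at h1
    rw [← ha', hMν] at h2
    rw [← ha, ← ha', ← hw, hMν, hAν, hAν] at h3
    rw [← ha, marker_uniq i a a' w (hν h1) (hν h2) (hν h3)]
  have hrt : Computable (fun i => ν (rt i)) := by
    refine (comp_unpair1.comp (comp_find Q hQ hex)).of_eq fun i => ?_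
    exact hfind i _ (Nat.find_spec (hex i))
  have hsep : Computable (fun i => cond (Pb (ν (rt i))) 1 0 : ℕ → ℕ) :=
    Computable.cond (hPb.comp hrt) (Computable.const 1) (Computable.const 0)
  obtain ⟨c, hc⟩ := exists_code.1 (Partrec.nat_iff.1 hsep.partrec)
  have hev : ∀ v : ℕ, cond (Pb (ν (rt (Encodable.encode c)))) 1 0 = v →
      v ∈ (Denumerable.ofNat Code (Encodable.encode c)).eval (Encodable.encode c) := by
    intro v hv
    rw [Denumerable.ofNat_encode, hc, ← hv]
    exact Part.mem_some _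
  set i := Encodable.encode c
  have hrt0 : rt i ≠ 0 := by
    intro h
    have := rt_sq i
    rw [h, zero_mul] at this
    exact Nat.cast_ne_zero.2 (Nat.succ_ne_zero _) this.symm
  cases hb : Pb (ν (rt i))
  · have h1 : F0 i true := (F0_iff i true).2 (hev _ (by rw [hb]; rfl))
    obtain ⟨u, hu, hus⟩ := forced i true h1
    have h2 := cone_key P h0 hadd hmul htot _ (hh_ne _) (rt i) u (rt_sq i) hu hus
    rcases htot _ hrt0 with h3 | h3
    · rw [← hPν, hb] at h3
      exact absurd h3 (by simp)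
    · exact h2 h3
  · have h1 : F0 i false := (F0_iff i false).2 (hev _ (by rw [hb]; rfl))
    obtain ⟨u, hu, hus⟩ := forced i false h1
    have h2 := cone_key P h0 hadd hmul htot _ (hh_ne _) (-rt i) u
      (by rw [neg_mul_neg]; exact rt_sq i) hu hus
    rw [neg_neg, ← hPν, hb] at h2
    exact h2 rfl

theorem copy_F : ∃ e : ℕ ≃ F,
      Computable₂ (fun a b : ℕ => e.symm (e a + e b)) ∧
      Computable₂ (fun a b : ℕ => e.symm (e a * e b)) ∧
      Computable (fun a : ℕ => e.symm (-(e a))) ∧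
      Computable (fun a : ℕ => e.symm ((e a)⁻¹)) :=
  exists_copy E0 comp_E0 F0 (fun _ _ => Iff.rfl) F0_disj

theorem real_F (n : ℕ) (c : Fin n → F) (h : ∑ i, c i ^ 2 = 0) (i : Fin n) : c i = 0 := by
  have h1 : ∑ i, (c i : ℝ) ^ 2 = 0 := by
    have := congrArg Subtype.val h
    simpa using this
  rw [Finset.sum_eq_zero_iff_of_nonneg (fun j _ => sq_nonneg _)] at h1
  have h2 := h1 i (Finset.mem_univ i)
  exact Subtype.ext (pow_eq_zero_iff (two_ne_zero) |>.1 h2)

end Pool.Agent.H43Z.FR
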