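import Mathlib
import Pool.Agent.Helper566.FD.J4
import Pool.Agent.Helper566.FD.J5
import Pool.Agent.Helper566.FD.J6
import Pool.Agent.Helper566.FD.J9
import Pool.Agent.Helper566.FD.J10

/-! The zero test of the start library `Helper566/FD`, for an arbitrary table `D` of squares of the
generators (the proofs are those of that library, with `D` as a parameter). -/

set_option autoImplicit false

namespace Pool.Agent.H43Z.FR

open Pool.Agent.Helper566.FD (Pol wv pv LettersIn hh letter lab isLab sg sgn gs mulP negP powP letters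
  pv_append pv_negP pv_mulP pv_powP comp_poly comp_basic)
open Pool.Agent.Helper566.FD.J4 (pv_nil pv_cons wv_split)
open Pool.Agent.Helper566.FD.J5 (letters_mulP_aux letters_powP_aux)
open Pool.Agent.Helper566.FD.J6 (zt_pv_mem zt_pv_const)
open Pool.Agent.Helper566.FD.J9 (comp_elim_flatMap comp_elim_filter comp_elim_count comp_elim_par)
open Pool.Agent.Helper566.FD.J10 (j10_comp_foldl j10_comp_flatMap j10_comp_all j10_comp_test)

/-- A table of squares of generators. -/
structure Tab where
  D : ℕ → Pol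
  h1 : ∀ n, ∀ i ∈ letters (D n), isLab i = false
  h0 : ∀ n, isLab n = false → letters (D n) = []
  hc : Computable D

variable (τ : Tab)

def red (n : ℕ) (m : ℤ × List ℕ) : Pol :=
  mulP [(m.1, m.2.filter (fun i => decide (i ≠ n)))] (powP (τ.D n) (m.2.count n / 2))

def partA (n : ℕ) (p : Pol) : Pol :=
  p.flatMap (fun m => if m.2.count n % 2 = 0 then red τ n m else [])
def partB (n : ℕ) (p : Pol) : Pol :=
  p.flatMap (fun m => if m.2.count n % 2 = 0 then [] else red τ n m)

def elim (n : ℕ) (st : List Pol) : List Pol := st.flatMap (fun p => [partA τ n p, partB τ n p])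

def st1 (p : Pol) : List Pol :=
  (letters p).foldl (fun st n => if isLab n then elim τ n st else st) [p]

def st2 (p : Pol) : List Pol :=
  ((st1 τ p).flatMap letters).foldl (fun st n => elim τ n st) (st1 τ p)

def zt (p : Pol) : Bool :=
  (st2 τ p).all (fun q => decide ((q.map (fun m => m.1)).sum = 0))

structure Model (I : ℕ → Prop) (y : ℕ → ℝ) : Prop where
  sq : ∀ n, I n → y n ^ 2 = pv y (τ.D n)
  stat : ∀ n, isLab n = false → I n
  indL : ∀ n, I n → isLab n = true → y n ∉ Subfield.closure (y '' {m | I m ∧ m ≠ n})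
  indS : ∀ n, isLab n = false → y n ∉ Subfield.closure (y '' {m | isLab m = false ∧ m ≠ n})

theorem letters_D (n : ℕ) : ∀ i ∈ letters (τ.D n), isLab i = false := τ.h1 n

theorem letters_D_ne (n : ℕ) : n ∉ letters (τ.D n) := by
  intro h
  have h1 := τ.h1 n n h
  rw [τ.h0 n h1] at h
  exact absurd h List.not_mem_nil

theorem pv_red (y : ℕ → ℝ) (n : ℕ) (hn : y n ^ 2 = pv y (τ.D n)) (m : ℤ × List ℕ) :
    pv y (red τ n m) = (m.1 : ℝ) * wv y (m.2.filter (fun i => decide (i ≠ n))) *
      y n ^ (2 * (m.2.count n / 2)) := by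
  unfold red
  rw [pv_mulP, pv_powP, ← hn, ← pow_mul, pv_cons, pv_nil, add_zero]

/-- splitting off the letter `n` -/
theorem part_eq (y : ℕ → ℝ) (n : ℕ) (hn : y n ^ 2 = pv y (τ.D n)) (p : Pol) :
    pv y p = pv y (partA τ n p) + pv y (partB τ n p) * y n := by
  induction p with
  | nil => simp [partA, partB, pv]
  | cons m p ih =>
    have hA : partA τ n (m :: p) = (if m.2.count n % 2 = 0 then red τ n m else []) ++ partA τ n p := by
      unfold partA
      rw [List.flatMap_cons]
    have hB : partB τ n (m :: p) = (if m.2.count n % 2 = 0 then [] else red τ n m) ++ partB τ n p := by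
      unfold partB
      rw [List.flatMap_cons]
    rw [hA, hB, pv_append, pv_append, pv_cons, ih, wv_split y n m.2]
    by_cases h : m.2.count n % 2 = 0
    · rw [if_pos h, if_pos h, pv_red τ y n hn, pv_nil]
      have e : 2 * (m.2.count n / 2) = m.2.count n := by omega
      rw [e]
      ring
    · rw [if_neg h, if_neg h, pv_red τ y n hn, pv_nil]
      have e : m.2.count n = 2 * (m.2.count n / 2) + 1 := by omega
      have e2 : y n ^ (m.2.count n) = y n ^ (2 * (m.2.count n / 2)) * y n := by
        rw [← pow_succ, ← e]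
      rw [e2]
      ring


theorem letters_red_aux (n : ℕ) (m : ℤ × List ℕ) (i : ℕ) (h : i ∈ letters (red τ n m)) :
    (i ∈ m.2 ∧ i ≠ n) ∨ i ∈ letters (τ.D n) := by
  unfold red at h
  rcases letters_mulP_aux _ _ _ h with h1 | h1
  · left
    simp only [letters, List.flatMap_cons, List.flatMap_nil, List.append_nil, List.mem_filter,
      decide_eq_true_eq] at h1
    exact h1
  · right
    exact letters_powP_aux _ _ _ h1

/-- letters of the two parts -/
theorem letters_part (n : ℕ) (p : Pol) (q : Pol) (hq : q = partA τ n p ∨ q = partB τ n p) :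
    ∀ i ∈ letters q, (i ∈ letters p ∧ i ≠ n) ∨ i ∈ letters (τ.D n) := by
  intro i hi
  have key : ∃ m ∈ p, i ∈ letters (red τ n m) := by
    rcases hq with rfl | rfl
    · simp only [letters, partA, List.mem_flatMap] at hi
      obtain ⟨a, ⟨m, hm, ha⟩, hia⟩ := hi
      refine ⟨m, hm, ?_⟩
      split_ifs at ha with hc
      · simp only [letters, List.mem_flatMap]
        exact ⟨a, ha, hia⟩
      · simp at ha
    · simp only [letters, partB, List.mem_flatMap] at hi
      obtain ⟨a, ⟨m, hm, ha⟩, hia⟩ := hi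
      refine ⟨m, hm, ?_⟩
      split_ifs at ha with hc
      · simp at ha
      · simp only [letters, List.mem_flatMap]
        exact ⟨a, ha, hia⟩
  obtain ⟨m, hm, hi'⟩ := key
  rcases letters_red_aux τ n m i hi' with h1 | h1
  · left
    refine ⟨?_, h1.2⟩
    simp only [letters, List.mem_flatMap]
    exact ⟨m, hm, h1.1⟩
  · right; exact h1


theorem zt_core (J : ℕ → Prop) (y : ℕ → ℝ) (n : ℕ)
    (hind : y n ∉ Subfield.closure (y '' {m | J m ∧ m ≠ n})) (hsq : y n ^ 2 = pv y (τ.D n))
    (q : Pol) (hq : ∀ i ∈ letters q, J i) (hD : ∀ i ∈ letters (τ.D n), J i) :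
    pv y q = 0 ↔ (pv y (partA τ n q) = 0 ∧ pv y (partB τ n q) = 0) := by
  have hA : pv y (partA τ n q) ∈ Subfield.closure (y '' {m | J m ∧ m ≠ n}) := by
    apply zt_pv_mem
    intro i hi
    rcases letters_part τ n q _ (Or.inl rfl) i hi with h | h
    · exact ⟨hq i h.1, h.2⟩
    · exact ⟨hD i h, fun e => letters_D_ne τ n (e ▸ h)⟩
  have hB : pv y (partB τ n q) ∈ Subfield.closure (y '' {m | J m ∧ m ≠ n}) := by
    apply zt_pv_mem
    intro i hi
    rcases letters_part τ n q _ (Or.inr rfl) i hi with h | h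
    · exact ⟨hq i h.1, h.2⟩
    · exact ⟨hD i h, fun e => letters_D_ne τ n (e ▸ h)⟩
  have hE := part_eq τ y n hsq q
  constructor
  · intro h0
    have hB0 : pv y (partB τ n q) = 0 := by
      by_contra hne
      apply hind
      have e : y n = - pv y (partA τ n q) / pv y (partB τ n q) := by
        field_simp
        rw [h0] at hE
        linarith
      rw [e]
      exact div_mem (neg_mem hA) hB
    rw [hB0, h0] at hE
    exact ⟨by linarith, hB0⟩
  · rintro ⟨h1, h2⟩
    rw [hE, h1, h2]
    ring

theorem zt_mem_elim (n : ℕ) (st : List Pol) (q : Pol) :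
    q ∈ elim τ n st ↔ ∃ p ∈ st, q = partA τ n p ∨ q = partB τ n p := by
  unfold elim
  rw [List.mem_flatMap]
  constructor
  · rintro ⟨p, hp, h⟩
    refine ⟨p, hp, ?_⟩
    simpa using h
  · rintro ⟨p, hp, h⟩
    refine ⟨p, hp, ?_⟩
    simpa using h

theorem zt_elim (J : ℕ → Prop) (y : ℕ → ℝ) (n : ℕ)
    (hind : y n ∉ Subfield.closure (y '' {m | J m ∧ m ≠ n})) (hsq : y n ^ 2 = pv y (τ.D n))
    (hD : ∀ i ∈ letters (τ.D n), J i) (st : List Pol) (hst : ∀ q ∈ st, ∀ i ∈ letters q, J i) :
    (∀ q ∈ elim τ n st, ∀ i ∈ letters q, J i) ∧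
    ((∀ q ∈ st, pv y q = 0) ↔ ∀ q ∈ elim τ n st, pv y q = 0) ∧
    (∀ q ∈ elim τ n st, ∀ i ∈ letters q, (i ≠ n ∧ ∃ q' ∈ st, i ∈ letters q') ∨ i ∈ letters (τ.D n)) := by
  have h3 : ∀ q ∈ elim τ n st, ∀ i ∈ letters q,
      (i ≠ n ∧ ∃ q' ∈ st, i ∈ letters q') ∨ i ∈ letters (τ.D n) := by
    intro q hq i hi
    obtain ⟨p, hp, h⟩ := (zt_mem_elim τ n st q).mp hq
    rcases letters_part τ n p q h i hi with h | h
    · exact Or.inl ⟨h.2, p, hp, h.1⟩
    · exact Or.inr h
  refine ⟨?_, ?_, h3⟩
  · intro q hq i hi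
    rcases h3 q hq i hi with ⟨_, q', hq', h⟩ | h
    · exact hst q' hq' i h
    · exact hD i h
  · constructor
    · intro h q hq
      obtain ⟨p, hp, h'⟩ := (zt_mem_elim τ n st q).mp hq
      have := (zt_core τ J y n hind hsq p (hst p hp) hD).mp (h p hp)
      rcases h' with rfl | rfl
      · exact this.1
      · exact this.2
    · intro h q hq
      refine (zt_core τ J y n hind hsq q (hst q hq) hD).mpr ⟨?_, ?_⟩
      · exact h _ ((zt_mem_elim τ n st _).mpr ⟨q, hq, Or.inl rfl⟩)
      · exact h _ ((zt_mem_elim τ n st _).mpr ⟨q, hq, Or.inr rfl⟩)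

theorem zt_fold1 (I : ℕ → Prop) (y : ℕ → ℝ) (hM : Model τ I y) :
    ∀ (l : List ℕ) (st : List Pol), (∀ n ∈ l, I n) → (∀ q ∈ st, ∀ i ∈ letters q, I i) →
    (∀ q ∈ l.foldl (fun st n => if isLab n then elim τ n st else st) st, ∀ i ∈ letters q, I i) ∧
    ((∀ q ∈ st, pv y q = 0) ↔
      ∀ q ∈ l.foldl (fun st n => if isLab n then elim τ n st else st) st, pv y q = 0) ∧
    (∀ q ∈ l.foldl (fun st n => if isLab n then elim τ n st else st) st, ∀ i ∈ letters q,
      isLab i = true → i ∉ l ∧ ∃ q' ∈ st, i ∈ letters q') := by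
  intro l
  induction l with
  | nil =>
    intro st _ hst
    refine ⟨hst, Iff.rfl, fun q hq i hi _ => ⟨List.not_mem_nil, q, hq, hi⟩⟩
  | cons n l ih =>
    intro st hl hst
    rw [List.foldl_cons]
    by_cases hn : isLab n = true
    · rw [if_pos hn]
      have hD : ∀ i ∈ letters (τ.D n), I i := fun i hi => hM.stat i (letters_D τ n i hi)
      obtain ⟨e1, e2, e3⟩ := zt_elim τ I y n (hM.indL n (hl n List.mem_cons_self) hn)
        (hM.sq n (hl n List.mem_cons_self)) hD st hst
      obtain ⟨i1, i2, i3⟩ := ih (elim τ n st) (fun m hm => hl m (List.mem_cons_of_mem _ hm)) e1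
      refine ⟨i1, e2.trans i2, fun q hq i hi hlab => ?_⟩
      obtain ⟨j1, q', hq', hiq'⟩ := i3 q hq i hi hlab
      rcases e3 q' hq' i hiq' with ⟨k1, k2⟩ | k
      · refine ⟨?_, k2⟩
        rw [List.mem_cons]
        rintro (h | h)
        · exact k1 h
        · exact j1 h
      · have := letters_D τ n i k
        rw [hlab] at this
        exact absurd this (by decide)
    · rw [if_neg hn]
      obtain ⟨i1, i2, i3⟩ := ih st (fun m hm => hl m (List.mem_cons_of_mem _ hm)) hst
      refine ⟨i1, i2, fun q hq i hi hlab => ?_⟩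
      obtain ⟨j1, j2⟩ := i3 q hq i hi hlab
      refine ⟨?_, j2⟩
      rw [List.mem_cons]
      rintro (h | h)
      · exact hn (h ▸ hlab)
      · exact j1 h

theorem zt_fold2 (I : ℕ → Prop) (y : ℕ → ℝ) (hM : Model τ I y) :
    ∀ (l : List ℕ) (st : List Pol), (∀ n ∈ l, isLab n = false) →
      (∀ q ∈ st, ∀ i ∈ letters q, isLab i = false) →
    ((∀ q ∈ st, pv y q = 0) ↔
      ∀ q ∈ l.foldl (fun st n => elim τ n st) st, pv y q = 0) ∧
    (∀ q ∈ l.foldl (fun st n => elim τ n st) st, ∀ i ∈ letters q,
      i ∉ l ∧ ∃ q' ∈ st, i ∈ letters q') := by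
  intro l
  induction l with
  | nil =>
    intro st _ hst
    refine ⟨Iff.rfl, fun q hq i hi => ⟨List.not_mem_nil, q, hq, hi⟩⟩
  | cons n l ih =>
    intro st hl hst
    rw [List.foldl_cons]
    have hn : isLab n = false := hl n List.mem_cons_self
    have hD0 : letters (τ.D n) = [] := by
      exact τ.h0 n hn
    have hD : ∀ i ∈ letters (τ.D n), isLab i = false := letters_D τ n
    obtain ⟨e1, e2, e3⟩ := zt_elim τ (fun m => isLab m = false) y n (hM.indS n hn)
      (hM.sq n (hM.stat n hn)) hD st hst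
    obtain ⟨i2, i3⟩ := ih (elim τ n st) (fun m hm => hl m (List.mem_cons_of_mem _ hm)) e1
    refine ⟨e2.trans i2, fun q hq i hi => ?_⟩
    obtain ⟨j1, q', hq', hiq'⟩ := i3 q hq i hi
    rcases e3 q' hq' i hiq' with ⟨k1, k2⟩ | k
    · refine ⟨?_, k2⟩
      rw [List.mem_cons]
      rintro (h | h)
      · exact k1 h
      · exact j1 h
    · rw [hD0] at k
      exact absurd k List.not_mem_nil


/-- correctness of the zero test in every model -/
theorem zt_iff (I : ℕ → Prop) (y : ℕ → ℝ) (hM : Model τ I y) (p : Pol) (hp : LettersIn I p) :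
    zt τ p = true ↔ pv y p = 0 := by
  have hp' : ∀ i ∈ letters p, I i := by
    intro i hi
    obtain ⟨m, hm, him⟩ := List.mem_flatMap.mp hi
    exact hp m hm i him
  obtain ⟨a1, a2, a3⟩ := zt_fold1 τ I y hM (letters p) [p] hp' (by
    intro q hq i hi
    rw [List.mem_singleton] at hq
    subst hq
    exact hp' i hi)
  have hs1 : ∀ q ∈ st1 τ p, ∀ i ∈ letters q, isLab i = false := by
    intro q hq i hi
    by_contra hne
    have hlab : isLab i = true := by
      simpa using hne
    obtain ⟨b1, q', hq', b2⟩ := a3 q hq i hi hlab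
    rw [List.mem_singleton] at hq'
    subst hq'
    exact b1 b2
  obtain ⟨c2, c3⟩ := zt_fold2 τ I y hM ((st1 τ p).flatMap letters) (st1 τ p) (by
    intro n hn
    obtain ⟨q, hq, hnq⟩ := List.mem_flatMap.mp hn
    exact hs1 q hq n hnq) hs1
  have hs2 : ∀ q ∈ st2 τ p, ∀ i, i ∉ letters q := by
    intro q hq i hi
    obtain ⟨d1, q', hq', d2⟩ := c3 q hq i hi
    exact d1 (List.mem_flatMap.mpr ⟨q', hq', d2⟩)
  have hfin : (∀ q ∈ [p], pv y q = 0) ↔ ∀ q ∈ st2 τ p, pv y q = 0 := a2.trans c2
  unfold zt
  rw [List.all_eq_true]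
  constructor
  · intro h
    apply hfin.mpr _ p (List.mem_singleton.mpr rfl)
    intro q hq
    have h1 := h q hq
    rw [decide_eq_true_iff] at h1
    rw [zt_pv_const y q (hs2 q hq), h1, Int.cast_zero]
  · intro h q hq
    rw [decide_eq_true_iff]
    have h1 := hfin.mp (by
      intro q' hq'
      rw [List.mem_singleton] at hq'
      rw [hq', h]) q hq
    rw [zt_pv_const y q (hs2 q hq)] at h1
    exact_mod_cast h1


theorem comp_elim_red : Computable₂ (fun (n : ℕ) (m : ℤ × List ℕ) => red τ n m) := by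
  have hn : Computable (fun q : ℕ × (ℤ × List ℕ) => q.1) := Computable.fst
  have hm1 : Computable (fun q : ℕ × (ℤ × List ℕ) => q.2.1) := Computable.fst.comp Computable.snd
  have hm2 : Computable (fun q : ℕ × (ℤ × List ℕ) => q.2.2) := Computable.snd.comp Computable.snd
  have h1 : Computable (fun q : ℕ × (ℤ × List ℕ) => q.2.2.filter (fun i => decide (i ≠ q.1))) :=
    comp_elim_filter.comp hn hm2
  have h2 : Computable (fun q : ℕ × (ℤ × List ℕ) =>
      [(q.2.1, q.2.2.filter (fun i => decide (i ≠ q.1)))]) :=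
    Computable.list_cons.comp (Computable.pair hm1 h1) (Computable.const _)
  have h3 : Computable (fun q : ℕ × (ℤ × List ℕ) => q.2.2.count q.1 / 2) :=
    (Primrec.nat_div.to_comp).comp (comp_elim_count.comp hn hm2) (Computable.const 2)
  have h4 : Computable (fun q : ℕ × (ℤ × List ℕ) => powP (τ.D q.1) (q.2.2.count q.1 / 2)) :=
    comp_poly.2.2.1.comp (τ.hc.comp hn) h3
  exact comp_poly.1.comp h2 h4


theorem comp_elim_A : Computable₂ (fun (n : ℕ) (p : Pol) => partA τ n p) := by
  have hr : Computable (fun q : (ℕ × Pol) × (ℤ × List ℕ) => red τ q.1.1 q.2) :=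
    (comp_elim_red τ).comp (Computable.fst.comp Computable.fst) Computable.snd
  have h := comp_elim_flatMap (l := fun q : ℕ × Pol => q.2)
    (f := fun q m => if m.2.count q.1 % 2 = 0 then red τ q.1 m else []) Computable.snd
    ((Computable.cond comp_elim_par hr (Computable.const [])).of_eq fun q => by
      by_cases hq : q.2.2.count q.1.1 % 2 = 0 <;> simp [hq])
  exact h

theorem comp_elim_B : Computable₂ (fun (n : ℕ) (p : Pol) => partB τ n p) := by
  have hr : Computable (fun q : (ℕ × Pol) × (ℤ × List ℕ) => red τ q.1.1 q.2) :=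
    (comp_elim_red τ).comp (Computable.fst.comp Computable.fst) Computable.snd
  have h := comp_elim_flatMap (l := fun q : ℕ × Pol => q.2)
    (f := fun q m => if m.2.count q.1 % 2 = 0 then [] else red τ q.1 m) Computable.snd
    ((Computable.cond comp_elim_par (Computable.const []) hr).of_eq fun q => by
      by_cases hq : q.2.2.count q.1.1 % 2 = 0 <;> simp [hq])
  exact h

theorem comp_elim : Computable₂ (fun (n : ℕ) (p : Pol) => partA τ n p) ∧
    Computable₂ (fun (n : ℕ) (p : Pol) => partB τ n p) ∧ Computable₂ (elim τ) := by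
  refine ⟨comp_elim_A τ, comp_elim_B τ, ?_⟩
  have h1 : Computable (fun q : (ℕ × List Pol) × Pol => partA τ q.1.1 q.2) :=
    (comp_elim_A τ).comp (Computable.fst.comp Computable.fst) Computable.snd
  have h2 : Computable (fun q : (ℕ × List Pol) × Pol => partB τ q.1.1 q.2) :=
    (comp_elim_B τ).comp (Computable.fst.comp Computable.fst) Computable.snd
  have h3 : Computable (fun q : (ℕ × List Pol) × Pol => [partA τ q.1.1 q.2, partB τ q.1.1 q.2]) :=
    Computable.list_cons.comp h1 (Computable.list_cons.comp h2 (Computable.const _))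
  exact comp_elim_flatMap (l := fun q : ℕ × List Pol => q.2)
    (f := fun q p => [partA τ q.1 p, partB τ q.1 p]) Computable.snd h3


theorem j10_comp_st1 : Computable (st1 τ) := by
  have hI : Computable isLab := comp_basic.2.2.2.1
  have hE : Computable₂ (elim τ) := (comp_elim τ).2.2
  have hL : Computable letters := comp_poly.2.2.2
  have h : Computable fun p : Pol =>
      (letters p).foldl (fun st n => cond (isLab n) (elim τ n st) st) [p] := by
    refine j10_comp_foldl (f := letters) (g := fun p => [p])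
      (h := fun _ s => cond (isLab s.2) (elim τ s.2 s.1) s.1) hL ?_ ?_
    · exact Computable.list_cons.comp Computable.id (Computable.const [])
    · refine Computable.cond (hI.comp (Computable.snd.comp Computable.snd)) ?_
        (Computable.fst.comp Computable.snd)
      exact hE.comp (Computable.snd.comp Computable.snd) (Computable.fst.comp Computable.snd)
  refine h.of_eq fun p => ?_
  unfold st1
  congr 1
  funext st n
  cases isLab n <;> rfl

theorem j10_comp_st2 : Computable (st2 τ) := by
  have hE : Computable₂ (elim τ) := (comp_elim τ).2.2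
  have hL : Computable letters := comp_poly.2.2.2
  unfold st2
  refine j10_comp_foldl (f := fun p => (st1 τ p).flatMap letters) (g := fun p => st1 τ p)
    (h := fun _ s => elim τ s.2 s.1) (j10_comp_flatMap hL (j10_comp_st1 τ)) (j10_comp_st1 τ) ?_
  exact hE.comp (Computable.snd.comp Computable.snd) (Computable.fst.comp Computable.snd)


theorem comp_zt : Computable (zt τ) := by
  unfold zt
  exact j10_comp_all j10_comp_test (j10_comp_st2 τ)


end Pool.Agent.H43Z.FR
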