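import Pool.Agent.H590Z.HC.Par

set_option autoImplicit false

namespace Pool.Agent.H590Z.HC

open Finset Filter Topology

namespace G1a

theorem cube_le (l : ℕ) : (l + 10) ^ 3 ≤ 2 ^ (l + 10) := by
  induction l with
  | zero => norm_num
  | succ l ih =>
    have : (l + 1 + 10) ^ 3 ≤ 2 * (l + 10) ^ 3 := by nlinarith [Nat.zero_le (l ^ 3), Nat.zero_le (l ^ 2)]
    calc (l + 1 + 10) ^ 3 ≤ 2 * (l + 10) ^ 3 := this
      _ ≤ 2 * 2 ^ (l + 10) := by omega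
      _ = 2 ^ (l + 1 + 10) := by ring

theorem s_ge (l : ℕ) : 1000 ≤ sN l := by
  unfold sN
  calc 1000 = 10 ^ 3 := by norm_num
    _ ≤ (l + 10) ^ 3 := Nat.pow_le_pow_left (by omega) 3

theorem PP_succ (η : ℝ) (J : ℕ) : PP η (J + 1) = PP η J * (1 + η ^ 2 / ((J : ℝ) + 1) ^ 2) := by
  unfold PP; rw [prod_range_succ]

theorem PP_pos (η : ℝ) (J : ℕ) : 0 < PP η J := by
  unfold PP; exact prod_pos fun i _ => by positivity

theorem PP_mono (η : ℝ) : Monotone (PP η) := by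
  refine monotone_nat_of_le_succ fun J => ?_
  rw [PP_succ]
  have h1 : (0 : ℝ) ≤ η ^ 2 / ((J : ℝ) + 1) ^ 2 := by positivity
  nlinarith [PP_pos η J]

theorem PP_one (J : ℕ) : PP 1 (J + 1) ≤ 4 * ((J : ℝ) + 1) / ((J : ℝ) + 2) := by
  induction J with
  | zero => rw [PP_succ]; norm_num [PP]
  | succ J ih =>
    rw [PP_succ]
    have hJ : (0 : ℝ) ≤ J := Nat.cast_nonneg J
    push_cast
    calc PP 1 (J + 1) * (1 + 1 ^ 2 / ((J : ℝ) + 1 + 1) ^ 2)
        ≤ 4 * ((J : ℝ) + 1) / ((J : ℝ) + 2) * (1 + 1 ^ 2 / ((J : ℝ) + 1 + 1) ^ 2) :=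
          mul_le_mul_of_nonneg_right ih (by positivity)
      _ ≤ 4 * ((J : ℝ) + 1 + 1) / ((J : ℝ) + 1 + 2) := by
          rw [div_mul_eq_mul_div, div_le_div_iff₀ (by positivity) (by positivity)]
          have e : (1 + 1 ^ 2 / ((J : ℝ) + 1 + 1) ^ 2) = ((J + 2) ^ 2 + 1) / (J + 2) ^ 2 := by
            field_simp; ring
          rw [e, mul_div_assoc', div_mul_eq_mul_div, div_le_iff₀ (by positivity)]
          nlinarith

theorem PP_one_le (J : ℕ) : PP 1 J ≤ 4 := by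
  refine le_trans (PP_mono 1 (Nat.le_succ J)) (le_trans (PP_one J) ?_)
  rw [div_le_iff₀ (by positivity)]
  linarith

theorem PP_big (n J : ℕ) (h : J ≤ n) : (2 : ℝ) ^ J ≤ PP n J := by
  induction J with
  | zero => simp [PP]
  | succ J ih =>
    rw [PP_succ, pow_succ]
    have h1 : (J : ℝ) + 1 ≤ n := by exact_mod_cast h
    have h2 : (1 : ℝ) ≤ (n : ℝ) ^ 2 / ((J : ℝ) + 1) ^ 2 := by
      rw [le_div_iff₀ (by positivity), one_mul]
      exact pow_le_pow_left₀ (by positivity) h1 2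
    exact mul_le_mul (ih (by omega)) (by linarith) (by norm_num) (PP_pos _ _).le

theorem T_lt (l : ℕ) : TN l < 2 * PN l * sN l + 2 * sN l := by
  have hs : 0 < 2 * sN l := by have := s_ge l; omega
  have := Nat.lt_div_mul_add (a := TN l) hs
  unfold PN
  nlinarith

theorem K_ge (l : ℕ) : 3 * sN l ≤ 2 * PN l := by
  have h1 := T_lt l
  have hs := s_ge l
  have h2 : sN l ^ 4 ≤ TN l := by
    have : sN l ≤ 2 ^ sN l := Nat.lt_two_pow_self.le
    calc sN l ^ 4 ≤ (2 ^ sN l) ^ 4 := Nat.pow_le_pow_left this 4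
      _ = TN l := by unfold TN sN; rw [← pow_mul, mul_comm]
  by_contra hc
  have h3 : 2 * PN l * sN l ≤ 3 * sN l * sN l := Nat.mul_le_mul_right _ (by omega)
  have h4 : 1000 * sN l ≤ sN l * sN l := Nat.mul_le_mul_right _ hs
  have h5 : 1000 * (sN l * sN l) ≤ (sN l * sN l) * (sN l * sN l) :=
    Nat.mul_le_mul_right _ (by omega)
  nlinarith

end G1a

open G1a

theorem hN_spec (l : ℕ) : (sN l : ℝ) ≤ hN l ∧ hN l ≤ 3 * (sN l : ℝ) ^ 2 ∧
    PP (hN l / sN l) (2 * PN l) = QN l * VN l := by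
  have hs : (1000 : ℝ) ≤ sN l := by exact_mod_cast s_ge l
  have hc : Continuous fun η : ℝ => PP η (2 * PN l) := by
    unfold PP
    exact continuous_finsetProd _ fun i _ => by fun_prop
  have e : (QN l : ℝ) * VN l = 2 ^ (4 * (l + 10) ^ 2 + 2 * (l + 10) ^ 3) := by
    unfold QN VN; push_cast; rw [pow_add]
  have h1 : PP 1 (2 * PN l) ≤ QN l * VN l := by
    refine le_trans (PP_one_le _) ?_
    rw [e]
    calc (4 : ℝ) = 2 ^ 2 := by norm_num
      _ ≤ _ := pow_le_pow_right₀ (by norm_num) (by nlinarith [Nat.zero_le (l ^ 3), Nat.zero_le (l ^ 2)])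
  have h2 : (QN l : ℝ) * VN l ≤ PP ((3 * sN l : ℕ) : ℝ) (2 * PN l) := by
    refine le_trans ?_ (le_trans (PP_big (3 * sN l) (3 * sN l) le_rfl) (PP_mono _ (K_ge l)))
    rw [e]
    refine pow_le_pow_right₀ (by norm_num) ?_
    unfold sN
    nlinarith [Nat.zero_le (l ^ 3), Nat.zero_le (l ^ 2)]
  obtain ⟨η, hη, hη'⟩ := intermediate_value_Icc
    (show (1 : ℝ) ≤ ((3 * sN l : ℕ) : ℝ) by push_cast; linarith) hc.continuousOn ⟨h1, h2⟩
  unfold hN
  refine Classical.epsilon_spec (p := fun h : ℝ => (sN l : ℝ) ≤ h ∧ h ≤ 3 * (sN l : ℝ) ^ 2 ∧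
    PP (h / sN l) (2 * PN l) = QN l * VN l) ⟨η * sN l, ?_, ?_, ?_⟩
  · nlinarith [hη.1]
  · have := hη.2
    push_cast at this
    nlinarith
  · rw [mul_div_cancel_right₀ _ (by linarith)]
    exact hη'

theorem num_basic (l : ℕ) : 1000 ≤ sN l ∧ sN l ≤ wN l ∧ 1024 ≤ wN l ∧ VN l ^ 2 = TN l ∧
    UN l * wN l ^ 2 = TN l ∧ 2 * PN l * sN l ≤ TN l ∧ TN l < 2 * PN l * sN l + 2 * sN l ∧
    wN l ^ 40 * QN l ^ 2 ≤ VN l ∧ wN (l + 1) ^ 20 * QN (l + 1) ^ 2 * TN l ≤ TN (l + 1) ∧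
    hN l ≤ (wN l : ℝ) ^ 3 ∧ 2 * l ≤ TN l := by
  have hw : 1024 ≤ wN l := by
    unfold wN
    calc 1024 = 2 ^ 10 := by norm_num
      _ ≤ 2 ^ (l + 10) := Nat.pow_le_pow_right (by norm_num) (by omega)
  have hsw : sN l ≤ wN l := cube_le l
  refine ⟨s_ge l, hsw, hw, ?_, ?_, ?_, T_lt l, ?_, ?_, ?_, ?_⟩
  · unfold VN TN; rw [← pow_mul]; congr 1; ring
  · unfold UN wN TN
    rw [← pow_mul, ← pow_add]
    congr 1
    have : 2 * (l + 10) ≤ 4 * (l + 10) ^ 3 := by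
      nlinarith [Nat.zero_le (l ^ 3), Nat.zero_le (l ^ 2)]
    omega
  · have := Nat.div_mul_le_self (TN l) (2 * sN l)
    unfold PN
    nlinarith
  · unfold wN QN VN
    rw [← pow_mul, ← pow_mul, ← pow_add]
    exact Nat.pow_le_pow_right (by norm_num)
      (by nlinarith [Nat.zero_le (l ^ 3), Nat.zero_le (l ^ 2)])
  · unfold wN QN TN
    rw [← pow_mul, ← pow_mul, ← pow_add, ← pow_add]
    exact Nat.pow_le_pow_right (by norm_num)
      (by nlinarith [Nat.zero_le (l ^ 3), Nat.zero_le (l ^ 2)])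
  · have h1 := (hN_spec l).2.1
    have h2 : (sN l : ℝ) ≤ wN l := by exact_mod_cast hsw
    have h3 : (1024 : ℝ) ≤ wN l := by exact_mod_cast hw
    have h4 : (sN l : ℝ) ^ 2 ≤ (wN l : ℝ) ^ 2 := pow_le_pow_left₀ (by positivity) h2 2
    have h5 : (0 : ℝ) ≤ (wN l : ℝ) ^ 2 := by positivity
    nlinarith
  · unfold TN
    have h1 : l < 2 ^ l := Nat.lt_two_pow_self
    calc 2 * l ≤ 2 ^ (l + 1) := by rw [pow_succ]; omega
      _ ≤ _ := Nat.pow_le_pow_right (by norm_num)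
        (by nlinarith [Nat.zero_le (l ^ 3), Nat.zero_le (l ^ 2)])

theorem TN_mono {l m : ℕ} (h : l < m) : wN m ^ 20 * TN l ≤ TN m := by
  obtain ⟨k, rfl⟩ : ∃ k, m = k + 1 := ⟨m - 1, by omega⟩
  unfold wN TN
  rw [← pow_mul, ← pow_add]
  refine Nat.pow_le_pow_right (by norm_num) ?_
  have h1 : (l + 10) ^ 3 ≤ (k + 10) ^ 3 := Nat.pow_le_pow_left (by omega) 3
  nlinarith [Nat.zero_le (k ^ 3), Nat.zero_le (k ^ 2)]

end Pool.Agent.H590Z.HC
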