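import Pool.Agent.Helper578.JD.Core

/-! The low basis theorem. -/

set_option autoImplicit false

namespace Pool.Agent.H43Z.LB

open Pool.Agent.Helper578.JD Pool.Agent.Helper578.JD.Oracle Pool.Agent.Helper578.JD.Defs Encodable

/-- the diagonal halting set -/
def K : Set ℕ := {n | W n n}

theorem REIn_not {α : Type} [Primcodable α] {p : α → Prop} (hp : REPred p) :
    REIn K (fun a => ¬ p a) := by
  obtain ⟨g, hg, h⟩ := smn (P := fun (a : α) (_ : ℕ) => p a) (RE.comp hp Computable.fst)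
  refine (REIn.not_mem hg).of_eq fun a => not_congr ?_
  exact h a (g a)

/-- the class of sets which avoid all the pieces of information in `B` -/
def Z (B : Info → Prop) : Set (ℕ → Bool) := {x | ∀ c, B c → ¬ Ok {n | x n = true} c}

theorem isOpen_ok (c : Info) : IsOpen {x : ℕ → Bool | Ok {n | x n = true} c} := by
  have : {x : ℕ → Bool | Ok {n | x n = true} c} =
      (⋂ n ∈ c.1.toFinset, (fun x : ℕ → Bool => x n) ⁻¹' {true}) ∩
      ⋂ n ∈ c.2.toFinset, (fun x : ℕ → Bool => x n) ⁻¹' {false} := by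
    ext x
    simp [Ok]
  rw [this]
  exact (isOpen_biInter_finset fun n _ => (isOpen_discrete _).preimage (continuous_apply n)).inter
    (isOpen_biInter_finset fun n _ => (isOpen_discrete _).preimage (continuous_apply n))

theorem isClosed_Z (B : Info → Prop) : IsClosed (Z B) := by
  have : Z B = ⋂ c ∈ {c | B c}, {x : ℕ → Bool | Ok {n | x n = true} c}ᶜ := by
    ext x
    simp [Z]
  rw [this]
  exact isClosed_biInter fun c _ => (isOpen_ok c).isClosed_compl

theorem inter_nonempty (B : ℕ → Info → Prop) (hm : ∀ n c, B n c → B (n + 1) c)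
    (hne : ∀ n, (Z (B n)).Nonempty) : ∃ x, ∀ n, x ∈ Z (B n) := by
  have := IsCompact.nonempty_iInter_of_sequence_nonempty_isCompact_isClosed (fun n => Z (B n))
    (fun n x hx c hc => hx c (hm n c hc)) hne (isClosed_Z _).isCompact (fun n => isClosed_Z _)
  obtain ⟨x, hx⟩ := this
  exact ⟨x, fun n => Set.mem_iInter.1 hx n⟩

theorem testBit_iff (s x : ℕ) : s.testBit x = true ↔ s / 2 ^ x % 2 = 1 := by
  rw [Nat.testBit_eq_decide_div_mod_eq]; simp

theorem empty_iff (B : Info → Prop) : ¬ (Z B).Nonempty ↔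
    ∃ n, ∀ s < 2 ^ n, ∃ c, B c ∧ (∀ x ∈ c.1, x < n ∧ s / 2 ^ x % 2 = 1) ∧
      (∀ x ∈ c.2, x < n ∧ s / 2 ^ x % 2 ≠ 1) := by
  classical
  constructor
  · intro h
    by_contra hc
    push Not at hc
    apply h
    obtain ⟨x, hx⟩ := inter_nonempty
      (fun n c => B c ∧ (∀ x ∈ c.1, x < n) ∧ ∀ x ∈ c.2, x < n)
      (fun n c h => ⟨h.1, fun x hx => (h.2.1 x hx).trans (Nat.lt_succ_self n),
        fun x hx => (h.2.2 x hx).trans (Nat.lt_succ_self n)⟩)
      (fun n => by
        obtain ⟨s, -, hs⟩ := hc n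
        refine ⟨fun x => s.testBit x, fun c h1 h2 => ?_⟩
        obtain ⟨x, hx, h3⟩ := hs c h1.1
          (fun x hx => ⟨h1.2.1 x hx, (testBit_iff s x).1 (h2.1 x hx)⟩)
        exact h2.2 x hx ((testBit_iff s x).2 (h3 (h1.2.2 x hx))))
    refine ⟨x, fun c h1 => ?_⟩
    obtain ⟨n, hn⟩ := (c.1 ++ c.2).toFinset.exists_nat_subset_range
    refine hx n c ⟨h1, fun y hy => ?_, fun y hy => ?_⟩
    · exact Finset.mem_range.1 (hn (by simp [hy]))
    · exact Finset.mem_range.1 (hn (by simp [hy]))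
  · rintro ⟨n, hn⟩ ⟨x, hx⟩
    obtain ⟨c, h1, h2, h3⟩ := hn (Nat.ofBits (fun i : Fin n => x i)) (Nat.ofBits_lt_two_pow _)
    refine hx c h1 ⟨fun y hy => ?_, fun y hy h4 => ?_⟩
    · have h4 := (testBit_iff _ _).2 (h2 y hy).2
      rw [Nat.testBit_ofBits_lt _ _ (h2 y hy).1] at h4
      exact h4
    · apply (h3 y hy).2
      rw [← testBit_iff, Nat.testBit_ofBits_lt _ _ (h3 y hy).1]
      exact h4

theorem prim_pow2 : Primrec (fun n : ℕ => 2 ^ n) := by
  have h : Primrec (fun n : ℕ => Nat.rec (motive := fun _ => ℕ) 1 (fun _ IH => 2 * IH) n) :=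
    Primrec.nat_rec' (f := fun n : ℕ => n) (g := fun _ => 1) (h := fun _ p => 2 * p.2)
      Primrec.id (Primrec.const 1)
      (Primrec.nat_mul.comp (Primrec.const 2) (Primrec.snd.comp Primrec.snd))
  refine h.of_eq fun n => ?_
  induction n with
  | zero => rfl
  | succ n ih =>
    show 2 * (Nat.rec (motive := fun _ => ℕ) 1 (fun _ IH => 2 * IH) n) = 2 ^ (n + 1)
    rw [ih, pow_succ, mul_comm]

theorem cbit {α : Type} [Primcodable α] {f g : α → ℕ} (hf : Computable f) (hg : Computable g) :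
    Computable fun a => f a / 2 ^ g a % 2 :=
  Primrec.nat_mod.to_comp.comp (Primrec.nat_div.to_comp.comp hf (prim_pow2.to_comp.comp hg))
    (Computable.const 2)

theorem empty_re {α : Type} [Primcodable α] (B : α → Info → Prop)
    (hB : REPred fun x : α × Info => B x.1 x.2) : REPred fun a => ¬ (Z (B a)).Nonempty := by
  have h : REPred fun a => ∃ n, ∀ s < 2 ^ n, ∃ c, B a c ∧
      (∀ x ∈ c.1, x < n ∧ s / 2 ^ x % 2 = 1) ∧ (∀ x ∈ c.2, x < n ∧ s / 2 ^ x % 2 ≠ 1) := by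
    refine RE.ex (p := fun a n => ∀ s < 2 ^ n, ∃ c, B a c ∧
      (∀ x ∈ c.1, x < n ∧ s / 2 ^ x % 2 = 1) ∧ (∀ x ∈ c.2, x < n ∧ s / 2 ^ x % 2 ≠ 1)) ?_
    refine RE.all_lt (p := fun (y : α × ℕ) s => ∃ c, B y.1 c ∧
      (∀ x ∈ c.1, x < y.2 ∧ s / 2 ^ x % 2 = 1) ∧ (∀ x ∈ c.2, x < y.2 ∧ s / 2 ^ x % 2 ≠ 1)) ?_
      (prim_pow2.to_comp.comp Computable.snd)
    refine RE.ex (p := fun (y : (α × ℕ) × ℕ) (c : Info) => B y.1.1 c ∧
      (∀ x ∈ c.1, x < y.1.2 ∧ y.2 / 2 ^ x % 2 = 1) ∧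
      (∀ x ∈ c.2, x < y.1.2 ∧ y.2 / 2 ^ x % 2 ≠ 1)) ?_
    refine RE.and (RE.comp hB (f := fun y : ((α × ℕ) × ℕ) × Info => (y.1.1.1, y.2)) (by fun_prop))
      (RE.and ?_ ?_)
    · refine RE.all_mem (p := fun (y : ((α × ℕ) × ℕ) × Info) (x : ℕ) =>
        x < y.1.1.2 ∧ y.1.2 / 2 ^ x % 2 = 1) ?_ (by fun_prop)
      exact RE.and (RE.lt (by fun_prop) (by fun_prop))
        (RE.eq (cbit (by fun_prop) (by fun_prop)) (by fun_prop))
    · refine RE.all_mem (p := fun (y : ((α × ℕ) × ℕ) × Info) (x : ℕ) =>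
        x < y.1.1.2 ∧ y.1.2 / 2 ^ x % 2 ≠ 1) ?_ (by fun_prop)
      exact RE.and (RE.lt (by fun_prop) (by fun_prop))
        (RE.ne (cbit (by fun_prop) (by fun_prop)) (by fun_prop))
  exact h.of_eq fun a => (empty_iff (B a)).symm

section main

variable (Bad : Info → Prop)

/-- more forbidden information -/
def BadL (L : List ℕ) (c : Info) : Prop := Bad c ∨ ∃ i ∈ L, W i (encode c)

/-- emptiness -/
def Emp (L : List ℕ) : Prop := ¬ (Z (BadL Bad L)).Nonempty

open Classical in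
/-- forcing the jump -/
noncomputable def LL : ℕ → List ℕ
  | 0 => []
  | e + 1 => if Emp Bad (e :: LL e) then LL e else e :: LL e

variable (hB : REPred Bad)

include hB in
theorem Emp_re : REPred (Emp Bad) := by
  apply empty_re (BadL Bad)
  refine RE.or (RE.comp hB Computable.snd) ?_
  refine RE.ex_mem (p := fun (y : List ℕ × Info) (i : ℕ) => W i (encode y.2)) ?_ Computable.fst
  exact RE.comp W_re (f := fun y : (List ℕ × Info) × ℕ => (y.2, encode y.1.2)) (by fun_prop)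

/-- one step -/
def Step (i : ℕ) (a b : List ℕ) : Prop :=
  (Emp Bad (i :: a) ∧ b = a) ∨ (¬ Emp Bad (i :: a) ∧ b = i :: a)

theorem Step_iff (i : ℕ) (b : List ℕ) : Step Bad i (LL Bad i) b ↔ b = LL Bad (i + 1) := by
  unfold Step
  by_cases h : Emp Bad (i :: LL Bad i) <;> simp [LL, h]

theorem graph_iff (e : ℕ) (l : List ℕ) : (∃ h : List (List ℕ), h[0]? = some [] ∧ h[e]? = some l ∧
    ∀ i < e, ∃ ab : List ℕ × List ℕ, h[i]? = some ab.1 ∧ h[i + 1]? = some ab.2 ∧
      Step Bad i ab.1 ab.2) ↔ LL Bad e = l := by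
  constructor
  · rintro ⟨h, h0, he, hs⟩
    have key : ∀ i ≤ e, h[i]? = some (LL Bad i) := by
      intro i
      induction i with
      | zero => intro _; exact h0
      | succ i ih =>
        intro hi
        obtain ⟨⟨a, b⟩, h1, h2, h3⟩ := hs i hi
        have h4 := ih (by omega)
        rw [h1, Option.some_inj] at h4
        simp only at h4 h3 h2
        rw [h4, Step_iff] at h3
        rw [h2, h3]
    have := key e le_rfl
    rw [he, Option.some_inj] at this
    exact this.symm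
  · rintro rfl
    have key : ∀ i ≤ e, ((List.range (e + 1)).map (LL Bad))[i]? = some (LL Bad i) := by
      intro i hi
      rw [List.getElem?_map, List.getElem?_range (by omega)]
      rfl
    refine ⟨(List.range (e + 1)).map (LL Bad), key 0 (Nat.zero_le _), key e le_rfl, fun i hi => ?_⟩
    exact ⟨(LL Bad i, LL Bad (i + 1)), key i hi.le, key (i + 1) hi, (Step_iff Bad i _).2 rfl⟩

include hB in
theorem graph_re : REIn K fun x : ℕ × List ℕ => LL Bad x.1 = x.2 := by
  have h1 : REIn K (Emp Bad) := REIn.of_re (Emp_re Bad hB)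
  have h2 : REIn K (fun L => ¬ Emp Bad L) := REIn_not (Emp_re Bad hB)
  refine REIn.of_eq ?_ fun x => graph_iff Bad x.1 x.2
  refine REIn.ex (S := fun (x : ℕ × List ℕ) (h : List (List ℕ)) => h[0]? = some [] ∧
    h[x.1]? = some x.2 ∧ ∀ i < x.1, ∃ ab : List ℕ × List ℕ, h[i]? = some ab.1 ∧
      h[i + 1]? = some ab.2 ∧ Step Bad i ab.1 ab.2) ?_
  refine REIn.and (REIn.of_re (RE.eq (by fun_prop) (by fun_prop)))
    (REIn.and (REIn.of_re (RE.eq (by fun_prop) (by fun_prop))) ?_)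
  refine REIn.all_lt (S := fun (y : (ℕ × List ℕ) × List (List ℕ)) (i : ℕ) =>
    ∃ ab : List ℕ × List ℕ, y.2[i]? = some ab.1 ∧
      y.2[i + 1]? = some ab.2 ∧ Step Bad i ab.1 ab.2) ?_ (by fun_prop)
  refine REIn.ex (S := fun (y : ((ℕ × List ℕ) × List (List ℕ)) × ℕ) (ab : List ℕ × List ℕ) =>
    y.1.2[y.2]? = some ab.1 ∧ y.1.2[y.2 + 1]? = some ab.2 ∧ Step Bad y.2 ab.1 ab.2) ?_
  refine REIn.and (REIn.of_re (RE.eq (by fun_prop) (by fun_prop)))
    (REIn.and (REIn.of_re (RE.eq (by fun_prop) (by fun_prop))) ?_)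
  refine REIn.or (REIn.and ?_ (REIn.of_re (RE.eq (by fun_prop) (by fun_prop))))
    (REIn.and ?_ (REIn.of_re (RE.eq (by fun_prop) (by fun_prop))))
  · exact h1.comp (f := fun y : (((ℕ × List ℕ) × List (List ℕ)) × ℕ) × (List ℕ × List ℕ) =>
      y.1.2 :: y.2.1) (by fun_prop)
  · exact h2.comp (f := fun y : (((ℕ × List ℕ) × List (List ℕ)) × ℕ) × (List ℕ × List ℕ) =>
      y.1.2 :: y.2.1) (by fun_prop)

include hB in
/-- the low basis theorem -/
theorem low_basis (hne : ∃ A : Set ℕ, ∀ c, Bad c → ¬ Ok A c) :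
    ∃ A : Set ℕ, (∀ c, Bad c → ¬ Ok A c) ∧
      ∀ f : ℕ →. ℕ, RecursiveIn {chi A} f → TuringReducible (chi {n | (f n).Dom}) (chi K) := by
  classical
  have hne' : ∀ e, (Z (BadL Bad (LL Bad e))).Nonempty := by
    intro e
    induction e with
    | zero =>
      obtain ⟨A, hA⟩ := hne
      refine ⟨fun n => decide (n ∈ A), fun c hc => ?_⟩
      rcases hc with hc | ⟨i, hi, -⟩
      · simpa using hA c hc
      · simp [LL] at hi
    | succ e ih =>
      by_cases h : Emp Bad (e :: LL Bad e)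
      · simpa [LL, h] using ih
      · rw [LL, if_neg h]
        exact not_not.1 h
  obtain ⟨x, hx⟩ := inter_nonempty (fun e => BadL Bad (LL Bad e)) (by
    rintro e c (hc | ⟨i, hi, hc⟩)
    · exact Or.inl hc
    · refine Or.inr ⟨i, ?_, hc⟩
      by_cases h : Emp Bad (e :: LL Bad e) <;> simp [LL, h, hi]) hne'
  have hj : ∀ e, e ∈ jump {n | x n = true} ↔ Emp Bad (e :: LL Bad e) := by
    intro e
    constructor
    · rintro ⟨c, h1, h2⟩
      by_contra h
      exact hx (e + 1) c (Or.inr ⟨e, by simp [LL, h], h2⟩) h1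
    · intro h
      by_contra hc
      apply h
      refine ⟨x, ?_⟩
      rintro c (h1 | ⟨i, hi, h1⟩)
      · exact hx 0 c (Or.inl h1)
      · rcases List.mem_cons.1 hi with rfl | hi
        · exact fun h2 => hc ⟨c, h2, h1⟩
        · exact hx e c (Or.inr ⟨i, hi, h1⟩)
  have h1 : REIn K (Emp Bad) := REIn.of_re (Emp_re Bad hB)
  have h2 : REIn K (fun L => ¬ Emp Bad L) := REIn_not (Emp_re Bad hB)
  have j1 : REIn K (· ∈ jump {n | x n = true}) := by
    refine REIn.of_eq (REIn.ex (S := fun (e : ℕ) (l : List ℕ) => LL Bad e = l ∧ Emp Bad (e :: l))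
      (REIn.and (graph_re Bad hB)
        (h1.comp (f := fun y : ℕ × List ℕ => y.1 :: y.2) (by fun_prop)))) fun e => ?_
    rw [hj]; simp
  have j2 : REIn K (· ∉ jump {n | x n = true}) := by
    refine REIn.of_eq (REIn.ex (S := fun (e : ℕ) (l : List ℕ) => LL Bad e = l ∧ ¬ Emp Bad (e :: l))
      (REIn.and (graph_re Bad hB)
        (h2.comp (f := fun y : ℕ × List ℕ => y.1 :: y.2) (by fun_prop)))) fun e => ?_
    rw [hj]; simp
  refine ⟨{n | x n = true}, fun c hc => hx 0 c (Or.inl hc), fun f hf => ?_⟩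
  have h3 := graph_of_recursiveIn (RecursiveIn.iff_nat.1 hf)
  have h4 : REIn {n | x n = true} (fun n => (f n).Dom) := by
    refine (REIn.ex (S := fun (n y : ℕ) => y ∈ f n) h3).of_eq fun n => ?_
    rw [Part.dom_iff_mem]
  obtain ⟨g, hg, h5⟩ := REIn_iff_jump.1 h4
  rw [turingReducible_iff]
  exact ⟨(j1.comp hg).of_eq fun n => (h5 n).symm, (j2.comp hg).of_eq fun n => not_congr (h5 n).symm⟩

end main

end Pool.Agent.H43Z.LB
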