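import Mathlib

/-! Definitions for the statement on low orderings of computable fields. -/

set_option autoImplicit false

namespace Pool.Agent.H43Z.LowOrd

open Classical in
/-- The characteristic function of a set of natural numbers, as an oracle. -/
noncomputable def chi (X : Set ℕ) : ℕ →. ℕ := fun n => Part.some (if n ∈ X then 1 else 0)

/-- The halting problem `∅'`: the numbers `n` such that program number `n` halts on input `n`. -/
def halting : Set ℕ := {n | ((Denumerable.ofNat Nat.Partrec.Code n).eval n).Dom}

/-- `X` is low: every set that is computably enumerable relative to `X` (the domain of a partial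
function recursive in `X`) is Turing reducible to the halting problem. As the jump `X'` is
computably enumerable in `X` and complete for such sets, this says `X' ≤_T ∅'`. -/
def IsLow (X : Set ℕ) : Prop :=
  ∀ f : ℕ →. ℕ, RecursiveIn {chi X} f → TuringReducible (chi {n | (f n).Dom}) (chi halting)

/-- `ν` identifies the field `K` with a computable field: `ν` is injective, its range (the domain)
is a computable set of natural numbers, and addition and multiplication are computed on the domain
by partial computable functions. -/
def IsComputableField {K : Type} [Field K] (ν : K → ℕ) : Prop :=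
  Function.Injective ν ∧ ComputablePred (fun n => n ∈ Set.range ν) ∧
    ∃ A M : ℕ → ℕ →. ℕ, Partrec₂ A ∧ Partrec₂ M ∧
      ∀ x y : K, ν (x + y) ∈ A (ν x) (ν y) ∧ ν (x * y) ∈ M (ν x) (ν y)

/-- `lt` is an ordering of the field `K`. -/
def IsFieldOrdering {K : Type} [Field K] (lt : K → K → Prop) : Prop :=
  IsStrictTotalOrder K lt ∧ (∀ a b c : K, lt a b → lt (a + c) (b + c)) ∧
    ∀ a b : K, lt 0 a → lt 0 b → lt 0 (a * b)

/-- The set of the codes of the pairs `(a, b)` with `a < b`. -/
def orderCode {K : Type} (ν : K → ℕ) (lt : K → K → Prop) : Set ℕ :=
  {n | ∃ a b : K, lt a b ∧ n = Nat.pair (ν a) (ν b)}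

end Pool.Agent.H43Z.LowOrd
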