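import Pool.Agent.H43Z.LowDefs
import Pool.Agent.H43Z.LowBasis
import Pool.Agent.H43Z.FRD

set_option autoImplicit false

namespace Pool.Agent.H43Z.LowOrd

open Pool.Agent.Helper578.JD Pool.Agent.Helper578.JD.Oracle
open Pool.Agent.H43Z.FR (F no_order copy_F)

theorem chi_eq (X : Set ℕ) : chi X = Defs.chi X := rfl

theorem total_ext (U : ℕ → Bool) (hU : Computable U) (A : ℕ → ℕ →. ℕ) (hA : Partrec₂ A)
    (h : ∀ a b, U a = true → U b = true → (A a b).Dom) :
    ∃ A' : ℕ → ℕ → ℕ, Computable₂ A' ∧ ∀ a b, U a = true → U b = true → A' a b ∈ A a b := by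
  have h1 : Partrec (fun p : ℕ × ℕ => cond (U p.1 && U p.2) (A p.1 p.2) (Part.some 0)) :=
    Partrec.cond (Primrec.and.to_comp.comp (hU.comp Computable.fst) (hU.comp Computable.snd)) hA
      (Computable.const 0).partrec
  have h2 : ∀ p : ℕ × ℕ, (cond (U p.1 && U p.2) (A p.1 p.2) (Part.some 0)).Dom := by
    intro p
    cases h3 : U p.1 <;> cases h4 : U p.2 <;> simp
    exact h _ _ h3 h4
  refine ⟨fun a b => (cond (U a && U b) (A a b) (Part.some 0)).get (h2 (a, b)),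
    h1.of_eq_tot (fun p => Part.get_mem _), fun a b ha hb => ?_⟩
  have h3 := Part.get_mem (h2 (a, b))
  simp only [ha, hb, Bool.and_self, cond_true] at h3 ⊢
  exact h3

theorem no_copy (K : Type) [Field K] (μ : K → ℕ) (lt : K → K → Prop) (hμ : IsComputableField μ)
    (hlt : IsFieldOrdering lt) (hc : ComputablePred (fun n => n ∈ orderCode μ lt)) :
    IsEmpty (F ≃+* K) := by
  refine ⟨fun φ => ?_⟩
  obtain ⟨hinj, hU, A, M, hA, hM, hAM⟩ := hμ
  obtain ⟨U, hUc, hUe⟩ := ComputablePred.computable_iff.1 hU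
  obtain ⟨O, hOc, hOe⟩ := ComputablePred.computable_iff.1 hc
  have hU' : ∀ n, U n = true ↔ ∃ x, μ x = n := fun n => by
    have := congrFun hUe n
    simp only [eq_iff_iff] at this
    exact this.symm
  have hO' : ∀ a b, O (Nat.pair (μ a) (μ b)) = true ↔ lt a b := fun a b => by
    have := congrFun hOe (Nat.pair (μ a) (μ b))
    simp only [eq_iff_iff] at this
    rw [← this]
    constructor
    · rintro ⟨a', b', h1, h2⟩
      rw [Nat.pair_eq_pair] at h2
      rw [hinj h2.1, hinj h2.2]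
      exact h1
    · intro h
      exact ⟨a, b, h, rfl⟩
  obtain ⟨A', hA', hA''⟩ := total_ext U hUc A hA (fun a b ha hb => by
    obtain ⟨x, rfl⟩ := (hU' a).1 ha
    obtain ⟨y, rfl⟩ := (hU' b).1 hb
    exact Part.dom_iff_mem.2 ⟨_, (hAM x y).1⟩)
  obtain ⟨M', hM', hM''⟩ := total_ext U hUc M hM (fun a b ha hb => by
    obtain ⟨x, rfl⟩ := (hU' a).1 ha
    obtain ⟨y, rfl⟩ := (hU' b).1 hb
    exact Part.dom_iff_mem.2 ⟨_, (hAM x y).2⟩)
  obtain ⟨hsto, hadd, hmul⟩ := hlt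
  refine no_order (fun x => μ (φ x)) (hinj.comp φ.injective) U hUc (fun n => ?_) A' M' hA' hM'
    (fun x y => ?_) (fun x y => ?_) {x | lt 0 (φ x)} (fun n => O (Nat.pair (μ 0) n))
    (hOc.comp (Primrec₂.natPair.to_comp.comp (Computable.const _) Computable.id))
    (fun x => hO' 0 (φ x)) ?_ ?_ ?_ ?_
  · rw [hU']
    constructor
    · rintro ⟨x, rfl⟩
      exact ⟨φ.symm x, by simp⟩
    · rintro ⟨x, rfl⟩
      exact ⟨φ x, rfl⟩
  · rw [map_add]
    exact Part.mem_unique (hA'' _ _ ((hU' _).2 ⟨_, rfl⟩) ((hU' _).2 ⟨_, rfl⟩)) (hAM _ _).1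
  · rw [map_mul]
    exact Part.mem_unique (hM'' _ _ ((hU' _).2 ⟨_, rfl⟩) ((hU' _).2 ⟨_, rfl⟩)) (hAM _ _).2
  · simp only [Set.mem_ofPred_eq, map_zero]
    exact irrefl_of lt 0
  · intro x y hx hy
    simp only [Set.mem_ofPred_eq, map_add] at hx hy ⊢
    have h1 := hadd _ _ (φ y) hx
    rw [zero_add] at h1
    exact trans_of lt hy h1
  · intro x y hx hy
    simp only [Set.mem_ofPred_eq, map_mul] at hx hy ⊢
    exact hmul _ _ hx hy
  · intro x hx
    simp only [Set.mem_ofPred_eq, map_neg]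
    rcases trichotomous_of lt 0 (φ x) with h | h | h
    · exact Or.inl h
    · exact absurd (φ.injective (by rw [← h, map_zero])) hx
    · right
      have h1 := hadd _ _ (-φ x) h
      rwa [add_neg_cancel, zero_add] at h1

/-- finite information that contradicts the axioms of orderings -/
def Bad (A M : ℕ → ℕ → ℕ) (z : ℕ) (c : Info) : Prop :=
  ∃ t : ℕ × ℕ × ℕ, c = ([Nat.pair t.1 t.1], []) ∨
    c = ([Nat.pair t.1 t.2.1, Nat.pair t.2.1 t.2.2], [Nat.pair t.1 t.2.2]) ∨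
    (t.1 ≠ t.2.1 ∧ c = ([], [Nat.pair t.1 t.2.1, Nat.pair t.2.1 t.1])) ∨
    c = ([Nat.pair t.1 t.2.1], [Nat.pair (A t.1 t.2.2) (A t.2.1 t.2.2)]) ∨
    c = ([Nat.pair z t.1, Nat.pair z t.2.1], [Nat.pair z (M t.1 t.2.1)])

theorem Bad_re (A M : ℕ → ℕ → ℕ) (hA : Computable₂ A) (hM : Computable₂ M) (z : ℕ) :
    REPred (Bad A M z) := by
  have a1 : Computable fun x : Info × (ℕ × ℕ × ℕ) => A x.2.1 x.2.2.2 :=
    hA.comp (by fun_prop) (by fun_prop)
  have a2 : Computable fun x : Info × (ℕ × ℕ × ℕ) => A x.2.2.1 x.2.2.2 :=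
    hA.comp (by fun_prop) (by fun_prop)
  have a3 : Computable fun x : Info × (ℕ × ℕ × ℕ) => M x.2.1 x.2.2.1 :=
    hM.comp (by fun_prop) (by fun_prop)
  refine RE.ex (p := fun (c : Info) (t : ℕ × ℕ × ℕ) => c = ([Nat.pair t.1 t.1], []) ∨
    c = ([Nat.pair t.1 t.2.1, Nat.pair t.2.1 t.2.2], [Nat.pair t.1 t.2.2]) ∨
    (t.1 ≠ t.2.1 ∧ c = ([], [Nat.pair t.1 t.2.1, Nat.pair t.2.1 t.1])) ∨
    c = ([Nat.pair t.1 t.2.1], [Nat.pair (A t.1 t.2.2) (A t.2.1 t.2.2)]) ∨
    c = ([Nat.pair z t.1, Nat.pair z t.2.1], [Nat.pair z (M t.1 t.2.1)])) ?_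
  refine RE.or (RE.eq (by fun_prop) (by fun_prop)) (RE.or (RE.eq (by fun_prop) (by fun_prop))
    (RE.or (RE.and (RE.ne (by fun_prop) (by fun_prop)) (RE.eq (by fun_prop) (by fun_prop)))
    (RE.or (RE.eq (by fun_prop) ?_) (RE.eq (by fun_prop) ?_))))
  · exact RE.cpair (by fun_prop) (RE.ccons (RE.cnatpair a1 a2) (by fun_prop))
  · exact RE.cpair (by fun_prop) (RE.ccons (RE.cnatpair (by fun_prop) a3) (by fun_prop))

theorem main : ∃ (F : Type) (_ : Field F) (ν : F → ℕ) (lt : F → F → Prop),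
    IsComputableField ν ∧ IsFieldOrdering lt ∧ IsLow (orderCode ν lt) ∧
    ∀ (K : Type) [Field K] (μ : K → ℕ) (lt' : K → K → Prop), IsComputableField μ →
      IsFieldOrdering lt' → ComputablePred (fun n => n ∈ orderCode μ lt') → IsEmpty (F ≃+* K) := by
  obtain ⟨e, hA, hM, -, -⟩ := copy_F
  obtain ⟨X, hX, hlow⟩ := LB.low_basis _ (Bad_re _ _ hA hM (e.symm 0))
    ⟨{n | e n.unpair.1 < e n.unpair.2}, by
      rintro c ⟨⟨a, b, d⟩, rfl | rfl | ⟨h, rfl⟩ | rfl | rfl⟩ <;>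
        simp only [Ok, List.mem_cons, List.not_mem_nil, or_false, forall_eq_or_imp, forall_eq,
          Set.mem_ofPred_eq, Nat.unpair_pair, Equiv.apply_symm_apply, not_and, not_lt,
          false_imp_iff, implies_true, lt_self_iff_false, not_le, and_imp]
      · exact fun h1 h2 => h1.trans h2
      · intro _ h1
        exact lt_of_le_of_ne h1 (fun h2 => h (e.injective h2.symm))
      · intro h1
        exact add_lt_add_left h1 _
      · exact fun h1 h2 => mul_pos h1 h2⟩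
  have hirr : ∀ a, Nat.pair a a ∉ X := fun a h =>
    hX _ ⟨(a, 0, 0), Or.inl rfl⟩ ⟨by simpa using h, by simp⟩
  have htr : ∀ a b d, Nat.pair a b ∈ X → Nat.pair b d ∈ X → Nat.pair a d ∈ X := by
    intro a b d h1 h2
    by_contra h3
    exact hX _ ⟨(a, b, d), Or.inr (Or.inl rfl)⟩ ⟨by simp [h1, h2], by simp [h3]⟩
  have htot : ∀ a b, a ≠ b → Nat.pair a b ∉ X → Nat.pair b a ∈ X := by
    intro a b h1 h2
    by_contra h3
    exact hX _ ⟨(a, b, 0), Or.inr (Or.inr (Or.inl ⟨h1, rfl⟩))⟩ ⟨by simp, by simp [h2, h3]⟩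
  have hadd : ∀ a b d, Nat.pair a b ∈ X →
      Nat.pair (e.symm (e a + e d)) (e.symm (e b + e d)) ∈ X := by
    intro a b d h1
    by_contra h3
    exact hX _ ⟨(a, b, d), Or.inr (Or.inr (Or.inr (Or.inl rfl)))⟩ ⟨by simp [h1], by simp [h3]⟩
  have hmul : ∀ a b, Nat.pair (e.symm 0) a ∈ X → Nat.pair (e.symm 0) b ∈ X →
      Nat.pair (e.symm 0) (e.symm (e a * e b)) ∈ X := by
    intro a b h1 h2
    by_contra h3
    exact hX _ ⟨(a, b, 0), Or.inr (Or.inr (Or.inr (Or.inr rfl)))⟩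
      ⟨by simp [h1, h2], by simp [h3]⟩
  refine ⟨F, inferInstance, e.symm, fun x y => Nat.pair (e.symm x) (e.symm y) ∈ X,
    ⟨e.symm.injective, ?_, fun a b => Part.some (e.symm (e a + e b)),
      fun a b => Part.some (e.symm (e a * e b)), hA.partrec₂, hM.partrec₂, fun x y => by simp⟩,
    ⟨?_, fun a b c h => ?_, fun a b h1 h2 => ?_⟩, ?_, no_copy⟩
  · have : (fun n => n ∈ Set.range e.symm) = fun _ => True := by
      funext n
      simp only [eq_iff_iff, iff_true]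
      exact ⟨e n, e.symm_apply_apply n⟩
    rw [this]
    exact ComputablePred.computable_iff.2 ⟨fun _ => true, Computable.const _, by simp⟩
  · refine { irrefl := fun a => hirr _, trans := fun a b c => htr _ _ _, trichotomous := ?_ }
    intro a b h1 h2
    by_contra h3
    exact h2 (htot _ _ (fun h => h3 (e.symm.injective h)) h1)
  · simpa using hadd _ _ (e.symm c) h
  · simpa using hmul _ _ h1 h2
  · have : orderCode e.symm (fun x y => Nat.pair (e.symm x) (e.symm y) ∈ X) = X := by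
      ext n
      constructor
      · rintro ⟨a, b, h, rfl⟩
        exact h
      · intro h
        exact ⟨e n.unpair.1, e n.unpair.2, by simpa using h, by simp⟩
    rw [this]
    exact hlow

end Pool.Agent.H43Z.LowOrd
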